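import Pool.Agent.Lib_helper47.TA.F.K4A

/-! Block K4B: pigeonhole. -/

set_option autoImplicit false

namespace Pool.Agent.TA

open Pool.Agent.HOM
open scoped Pointwise

theorem bins_in_class (k W : ℕ) (hW : 0 < W) (B : Finset ℤ) (hB : B.card = k * W) :
    ∃ B' ⊆ B, B'.card = k ∧ ∀ b ∈ B', ∀ b' ∈ B', (W : ℤ) ∣ b - b' := by
  classical
  have hW' : (0 : ℤ) < W := by exact_mod_cast hW
  obtain ⟨y, -, hy⟩ := Finset.exists_le_card_fiber_of_mul_le_card_of_maps_to
    (s := B) (t := Finset.range W) (f := fun b : ℤ => (b % (W : ℤ)).toNat) (n := k)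
    (fun b _ => by
      rw [Finset.mem_range]
      have h1 := Int.emod_nonneg b hW'.ne'
      have h2 := Int.emod_lt_of_pos b hW'
      omega)
    (Finset.nonempty_range_iff.2 hW.ne')
    (by rw [Finset.card_range, hB, mul_comm])
  obtain ⟨B', hB', hc⟩ := Finset.exists_subset_card_eq hy
  refine ⟨B', hB'.trans (Finset.filter_subset _ _), hc, fun b hb b' hb' => ?_⟩
  have h1 := (Finset.mem_filter.1 (hB' hb)).2
  have h2 := (Finset.mem_filter.1 (hB' hb')).2
  have h3 := Int.emod_nonneg b hW'.ne'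
  have h4 := Int.emod_nonneg b' hW'.ne'
  have h5 : b % (W : ℤ) = b' % (W : ℤ) := by
    have h6 : (b % (W : ℤ)).toNat = (b' % (W : ℤ)).toNat := h1.trans h2.symm
    omega
  exact Int.ModEq.dvd (show b' ≡ b [ZMOD (W : ℤ)] from h5.symm)

example : type_of% @bins_in_class := @bins_in_class

end Pool.Agent.TA
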