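import Pool.Agent.Lib_helper47.TA.F.WNR

/-!
# Half or almost all, block BOH: Bohr sets are syndetic
-/

set_option autoImplicit false

namespace Pool.Agent.TA

open Pool.Agent.HOM

theorem boh_norm (z : Circle) (s t : ℤ) : ‖(z : ℂ) ^ (t - s) - 1‖ = dist (z ^ t) (z ^ s) := by
  have h0 : (z : ℂ) ≠ 0 := z.coe_ne_zero
  have h1 : ‖(z : ℂ) ^ s‖ = 1 := by rw [norm_zpow, z.norm_coe, one_zpow]
  have h2 : ((z : ℂ) ^ (t - s) - 1) * (z : ℂ) ^ s = (z : ℂ) ^ t - (z : ℂ) ^ s := by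
    rw [sub_mul, one_mul, ← zpow_add₀ h0, sub_add_cancel]
  calc ‖(z : ℂ) ^ (t - s) - 1‖ = ‖((z : ℂ) ^ (t - s) - 1) * (z : ℂ) ^ s‖ := by
        rw [norm_mul, h1, mul_one]
    _ = ‖(z : ℂ) ^ t - (z : ℂ) ^ s‖ := by rw [h2]
    _ = dist (z ^ t) (z ^ s) := by
        have h3 : dist (z ^ t) (z ^ s) = dist ((z ^ t : Circle) : ℂ) ((z ^ s : Circle) : ℂ) := rfl
        rw [h3, dist_eq_norm, Circle.coe_zpow, Circle.coe_zpow]

theorem bohr_syndetic (F : Finset Circle) (ρ : ℝ) (hρ : 0 < ρ) : ∃ H : ℕ, ∀ x : ℤ,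
    ∃ τ ∈ Set.Ioc x (x + H), ∀ z ∈ F, ‖(z : ℂ) ^ τ - 1‖ < ρ := by
  classical
  have htb : TotallyBounded (Set.range fun (t : ℤ) (z : F) => (z : Circle) ^ t) :=
    (isCompact_univ.totallyBounded).subset (Set.subset_univ _)
  obtain ⟨T, hT, hTf, hcov⟩ := Metric.finite_approx_of_totallyBounded htb ρ hρ
  have hex : ∀ y ∈ T, ∃ s : ℤ, (fun (z : F) => (z : Circle) ^ s) = y := fun y hy => hT hy
  choose! f hf using hex
  obtain ⟨B, hB⟩ := (hTf.image fun y => (f y).natAbs).bddAbove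
  have hB' : ∀ y ∈ T, (f y).natAbs ≤ B := fun y hy => hB ⟨y, hy, rfl⟩
  refine ⟨2 * B + 1, fun x => ?_⟩
  have h1 := hcov ⟨x + B + 1, rfl⟩
  rw [Set.mem_iUnion₂] at h1
  obtain ⟨y, hy, h2⟩ := h1
  have h3 := hB' y hy
  refine ⟨x + B + 1 - f y, ⟨by omega, by push_cast; omega⟩, fun z hz => ?_⟩
  rw [boh_norm]
  rw [Metric.mem_ball, ← hf y hy] at h2
  exact (dist_le_pi_dist (fun z : F => (z : Circle) ^ (x + B + 1))
    (fun z : F => (z : Circle) ^ (f y)) ⟨z, hz⟩).trans_lt h2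

example : type_of% @bohr_syndetic := @bohr_syndetic

end Pool.Agent.TA
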