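import Pool.Agent.Lib_helper47.TA.F.TYP

/-!
# Project TA, block CLM: the claim (helper56)
-/

set_option autoImplicit false

namespace Pool.Agent.TA

open Pool.Agent.HOM
open scoped Pointwise

section PP
variable {m : Mn ℤ} {C : Set ℤ}

theorem claim_not (h : Sym m C) (η : ℝ) (hη : 0 < η) (hδ : 100 * η ≤ ms m C - 1 / 2) (p q : ℤ)
    (h1 : P m C p q ≤ 2 * η) : 2 * η < P m C p (-q) := by
  by_contra h2
  push Not at h2
  have h3 := square h (2 * η) p q h1 h2
  linarith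

/-- a point of a set of measure `> 2 η` outside of two sets of measure `≤ η` -/
theorem clm_point (η : ℝ) (S A B : Set ℤ) (hS : 2 * η < ms m S) (hA : ms m A ≤ η)
    (hB : ms m B ≤ η) : ∃ y ∈ S, y ∉ A ∧ y ∉ B := by
  by_contra hne
  push Not at hne
  have h1 : S ⊆ A ∪ B := by
    intro y hy
    by_cases hyA : y ∈ A
    · exact Or.inl hyA
    · exact Or.inr (hne y hy hyA)
  have h2 := ms_mono m h1
  have h3 := ms_union_le m A B
  linarith

theorem claim_or (h : Sym m C) (η : ℝ) (hη : 0 < η) (hδ : 100 * η ≤ ms m C - 1 / 2) (p q : ℤ)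
    (hp : p ∈ Typ m C η) (hq : q ∈ Typ m C η) : P m C p q ≤ 2 * η ∨ P m C p (-q) ≤ 2 * η := by
  by_contra hne
  push Not at hne
  obtain ⟨h1, h2⟩ := hne
  have hq' : -q ∈ Typ m C η := (typ_neg h η q).2 hq
  -- the point `y`
  rw [P_mid h] at h2
  obtain ⟨y, ⟨hy1, hy2, hy3⟩, hy4, hy5⟩ := clm_point η _ _ _ h2 (typ_mark η hη p hp)
    (typ_mark η hη q hq)
  have hyp : P m C y (-p) ≤ η := by
    by_contra hlt
    exact hy4 ⟨hy2, hy1, not_le.1 hlt⟩
  have hyq : P m C y (-q) ≤ η := by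
    by_contra hlt
    exact hy5 ⟨hy2, by rw [sub_eq_add_neg]; exact hy3, not_le.1 hlt⟩
  -- the point `x`
  rw [P_mid h] at h1
  obtain ⟨x, ⟨hx1, hx2, hx3⟩, hx4, hx5⟩ := clm_point η _ _ _ h1 (typ_mark η hη p hp)
    (typ_mark η hη (-q) hq')
  have hxp : P m C x (-p) ≤ η := by
    by_contra hlt
    exact hx4 ⟨hx2, hx1, not_le.1 hlt⟩
  have hxq : P m C x q ≤ η := by
    by_contra hlt
    exact hx5 ⟨hx2, by rw [sub_neg_eq_add]; exact hx3, by rw [neg_neg]; exact not_le.1 hlt⟩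
  -- the 4-cube
  have e1 : P m C q (-y) ≤ η := by
    rw [P_comm h, ← P_neg h, neg_neg]
    exact hyq
  have e2 : P m C (-y) p ≤ η := by
    rw [← P_neg h, neg_neg]
    exact hyp
  have e3 : P m C p (-x) ≤ η := by
    rw [P_comm h, ← P_neg h, neg_neg]
    exact hxp
  have e4 : P m C (-x) (-q) ≤ η := by
    rw [P_neg h]
    exact hxq
  have h5 := cube4 h η q (-y) p (-x) e1 e2 e3 e4
  linarith

end PP

example : type_of% @claim_not := @claim_not
example : type_of% @claim_or := @claim_or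

end Pool.Agent.TA
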