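import Pool.Agent.Lib_helper47.TA.F.CLM

set_option autoImplicit false

namespace Pool.Agent.TA

open Pool.Agent.HOM
open scoped Pointwise

section PP
variable {m : Mn ℤ} {C : Set ℤ}

private theorem cls_trans (h : Sym m C) (η : ℝ) (hη : 0 < η) (hδ : 100 * η ≤ ms m C - 1 / 2)
    (p q r : ℤ) (hp : p ∈ Typ m C η) (hr : r ∈ Typ m C η)
    (h1 : P m C p q ≤ 2 * η) (h2 : P m C q r ≤ 2 * η) : P m C p r ≤ 2 * η := by
  rcases claim_or h η hη hδ p r hp hr with h3 | h3
  · exact h3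
  · exfalso
    have h4 : P m C r (-p) = P m C p (-r) := by
      rw [P_comm h r (-p)]
      have h5 := P_neg h p (-r)
      rw [neg_neg] at h5
      exact h5
    have h6 := cube3 h (2 * η) p q r h1 h2 (by rw [h4]; exact h3)
    linarith

theorem cls_exists (h : Sym m C) (η : ℝ) (hη : 0 < η) (hδ : 100 * η ≤ ms m C - 1 / 2) :
    ∃ X : Set ℤ, Cls m C η X := by
  by_cases hG : (Typ m C η).Nonempty
  · obtain ⟨p₀, hp₀⟩ := hG
    have low : ∀ p ∈ {p | p ∈ Typ m C η ∧ P m C p p₀ ≤ 2 * η},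
        ∀ s ∈ {p | p ∈ Typ m C η ∧ P m C p p₀ ≤ 2 * η}, P m C p s ≤ 2 * η := by
      rintro p ⟨hp, hp1⟩ s ⟨hs, hs1⟩
      refine cls_trans h η hη hδ p p₀ s hp hs hp1 ?_
      rw [P_comm h]
      exact hs1
    refine ⟨{p | p ∈ Typ m C η ∧ P m C p p₀ ≤ 2 * η}, ⟨fun p hp => hp.1, ?_, ?_, low, ?_⟩⟩
    · intro p hp
      rcases claim_or h η hη hδ p₀ p hp₀ hp with h1 | h1
      · left
        refine ⟨hp, ?_⟩
        rw [P_comm h]
        exact h1
      · right
        refine ⟨(typ_neg h η p).mpr hp, ?_⟩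
        rw [P_comm h]
        exact h1
    · rintro p ⟨hp, hp1⟩ ⟨_, hp2⟩
      rw [P_comm h] at hp1 hp2
      have h1 := claim_not h η hη hδ p₀ p hp1
      linarith
    · intro p hp s hs
      exact claim_not h η hη hδ p s (low p hp s hs)
  · rw [Set.not_nonempty_iff_eq_empty] at hG
    refine ⟨∅, ⟨Set.empty_subset _, fun p hp => ?_, fun p hp => hp.elim, fun p hp => hp.elim,
      fun p hp => hp.elim⟩⟩
    rw [hG] at hp
    exact hp.elim

end PP

example : type_of% @cls_exists := @cls_exists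

end Pool.Agent.TA
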