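import Pool.Agent.Lib_helper47.TA.F.WIN

/-! Project TA, block CLW: the measure of residue classes. -/

set_option autoImplicit false

namespace Pool.Agent.TA

open Pool.Agent.HOM

theorem clw_one (m : Mn ℤ) (hm : m.Inv) (W : ℕ) (r : ZMod W) :
    ms m {n : ℤ | (n : ZMod W) = r} = ms m {n : ℤ | (n : ZMod W) = 0} := by
  obtain ⟨a, rfl⟩ := ZMod.intCast_surjective r
  rw [← ms_shift m hm {n : ℤ | (n : ZMod W) = ((a : ℤ) : ZMod W)} a]
  congr 1
  ext n
  simp only [Set.mem_setOf_eq, Int.cast_add, add_eq_right]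

theorem clw_sum (m : Mn ℤ) (hm : m.Inv) (W : ℕ) (S : Finset (ZMod W)) :
    ms m {n : ℤ | (n : ZMod W) ∈ S} = S.card * ms m {n : ℤ | (n : ZMod W) = 0} := by
  classical
  induction S using Finset.induction_on with
  | empty =>
    have h : {n : ℤ | (n : ZMod W) ∈ (∅ : Finset (ZMod W))} = ∅ := by
      ext n
      simp
    rw [h, ms_empty, Finset.card_empty, Nat.cast_zero, zero_mul]
  | insert a s ha ih =>
    have h : {n : ℤ | (n : ZMod W) ∈ insert a s} =
        {n : ℤ | (n : ZMod W) = a} ∪ {n : ℤ | (n : ZMod W) ∈ s} := by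
      ext n
      simp only [Set.mem_setOf_eq, Finset.mem_insert, Set.mem_union]
    rw [h, ms_disj m (fun x hx h' => ha (by
      have h1 : (x : ZMod W) = a := hx
      have h2 : (x : ZMod W) ∈ s := h'
      rwa [h1] at h2)), ih, clw_one m hm W a, Finset.card_insert_of_notMem ha]
    push_cast
    ring

theorem ms_classes (m : Mn ℤ) (hm : m.Inv) (W : ℕ) (hW : 0 < W) (S : Finset (ZMod W)) :
    ms m {n : ℤ | (n : ZMod W) ∈ S} = S.card / W := by
  haveI : NeZero W := ⟨hW.ne'⟩
  have h1 := clw_sum m hm W Finset.univ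
  have h2 : {n : ℤ | (n : ZMod W) ∈ (Finset.univ : Finset (ZMod W))} = Set.univ := by
    ext n
    simp
  rw [h2, ms_univ, Finset.card_univ, ZMod.card] at h1
  have hW' : (W : ℝ) ≠ 0 := by exact_mod_cast hW.ne'
  rw [clw_sum m hm W S, eq_div_iff hW']
  linear_combination (-(S.card : ℝ)) * h1

end Pool.Agent.TA

example : type_of% @Pool.Agent.TA.ms_classes := @Pool.Agent.TA.ms_classes
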