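import Pool.Agent.Lib_helper47.TA.F.SQ3

/-! Block CU4 of the project TA (MP_49610d_nt): the 4-cube lemma. The certificate: for every subset
`A` of `{0,1}^4` without one of the 32 bad triples, `2 |A| + ∑ Φ_i (back face) ≤ 16 + ∑ Φ_i (front
face)`, checked by the kernel. -/

set_option autoImplicit false

namespace Pool.Agent.TA

open Pool.Agent.HOM

/-- The number of a subset of the 3-cube. -/
def cu_pat (a b c d e f g h : Bool) : ℕ :=
  a.toNat + 2 * b.toNat + 4 * c.toNat + 8 * d.toNat + 16 * e.toNat + 32 * f.toNat + 64 * g.toNat +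
    128 * h.toNat

/-- The entry `p` of a table (digit number `p` of `T` in base `4`). -/
def cu_ent (T p : ℕ) : ℕ := (T >>> (2 * p)) &&& 3

/-- The table of `Φ_0 + 1`. -/
def cu_T0 : ℕ := 4469269309980865699858019423414017250102165208461409227962123881899454559442433851840969348614705608554083236118332522535191547580803824262337534440592725

/-- The table of `Φ_1 + 1`. -/
def cu_T1 : ℕ := 4469269309980865688228577654003716622485717265659416612673669143355563759848899694154191474724170127177523662831322227586939806780122604069117588279743829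

/-- The table of `Φ_2 + 1`. -/
def cu_T2 : ℕ := 4469269309980865699858008332058319413665817259178477914761990413223074437545833046036353621628670750557786619757507813828537108850964104403118914419381589

/-- The table of `Φ_3 + 1`. -/
def cu_T3 : ℕ := 4469269309980865699857997242056546834884078671933519690520250413915054793939930799360280183496563343239271336005991511367311040960493889035284898230130005

/-- There is a bad triple. -/
def cu_bad (b0 b1 b2 b3 b4 b5 b6 b7 b8 b9 b10 b11 b12 b13 b14 b15 : Bool) : Bool :=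
  (b1 && b0 && b2) || (b2 && b3 && b1) || (b5 && b4 && b6) || (b6 && b7 && b5) || (b9 && b8 && b10) || (b10 && b11 && b9) || (b13 && b12 && b14) || (b14 && b15 && b13) || (b2 && b0 && b4) || (b4 && b6 && b2) || (b3 && b1 && b5) || (b5 && b7 && b3) || (b10 && b8 && b12) || (b12 && b14 && b10) || (b11 && b9 && b13) || (b13 && b15 && b11) || (b4 && b0 && b8) || (b8 && b12 && b4) || (b5 && b1 && b9) || (b9 && b13 && b5) || (b6 && b2 && b10) || (b10 && b14 && b6) || (b7 && b3 && b11) || (b11 && b15 && b7) || (b0 && b1 && b9) || (b0 && b8 && b9) || (b2 && b3 && b11) || (b2 && b10 && b11) || (b4 && b5 && b13) || (b4 && b12 && b13) || (b6 && b7 && b15) || (b6 && b14 && b15)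

/-- The inequality of the certificate. -/
def cu_chk (b0 b1 b2 b3 b4 b5 b6 b7 b8 b9 b10 b11 b12 b13 b14 b15 : Bool) : Bool :=
  cu_bad b0 b1 b2 b3 b4 b5 b6 b7 b8 b9 b10 b11 b12 b13 b14 b15 || decide (2 * (b0.toNat + b1.toNat + b2.toNat + b3.toNat + b4.toNat + b5.toNat + b6.toNat + b7.toNat + b8.toNat + b9.toNat + b10.toNat + b11.toNat + b12.toNat + b13.toNat + b14.toNat + b15.toNat) +
      (cu_ent cu_T0 (cu_pat b1 b3 b5 b7 b9 b11 b13 b15) +
      cu_ent cu_T1 (cu_pat b2 b3 b6 b7 b10 b11 b14 b15) +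
      cu_ent cu_T2 (cu_pat b4 b5 b6 b7 b12 b13 b14 b15) +
      cu_ent cu_T3 (cu_pat b8 b9 b10 b11 b12 b13 b14 b15)) ≤ 16 + (cu_ent cu_T0 (cu_pat b0 b2 b4 b6 b8 b10 b12 b14) +
      cu_ent cu_T1 (cu_pat b0 b1 b4 b5 b8 b9 b12 b13) +
      cu_ent cu_T2 (cu_pat b0 b1 b2 b3 b8 b9 b10 b11) +
      cu_ent cu_T3 (cu_pat b0 b1 b2 b3 b4 b5 b6 b7)))

set_option maxRecDepth 100000 in
theorem cu_all : ∀ b0 b1 b2 b3 b4 b5 b6 b7 b8 b9 b10 b11 b12 b13 b14 b15 : Bool, cu_chk b0 b1 b2 b3 b4 b5 b6 b7 b8 b9 b10 b11 b12 b13 b14 b15 = true := by decide +kernel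

theorem cu_or (x y : Bool) : (x || y).toNat ≤ x.toNat + y.toNat := by
  cases x <;> cases y <;> decide

theorem cu_and (x y z : Bool) : (x && y && z).toNat = x.toNat * y.toNat * z.toNat := by
  cases x <;> cases y <;> cases z <;> decide

theorem cu_bad_le (b0 b1 b2 b3 b4 b5 b6 b7 b8 b9 b10 b11 b12 b13 b14 b15 : Bool) :
    (cu_bad b0 b1 b2 b3 b4 b5 b6 b7 b8 b9 b10 b11 b12 b13 b14 b15).toNat ≤
      b1.toNat * b0.toNat * b2.toNat +
      b2.toNat * b3.toNat * b1.toNat +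
      b5.toNat * b4.toNat * b6.toNat +
      b6.toNat * b7.toNat * b5.toNat +
      b9.toNat * b8.toNat * b10.toNat +
      b10.toNat * b11.toNat * b9.toNat +
      b13.toNat * b12.toNat * b14.toNat +
      b14.toNat * b15.toNat * b13.toNat +
      b2.toNat * b0.toNat * b4.toNat +
      b4.toNat * b6.toNat * b2.toNat +
      b3.toNat * b1.toNat * b5.toNat +
      b5.toNat * b7.toNat * b3.toNat +
      b10.toNat * b8.toNat * b12.toNat +
      b12.toNat * b14.toNat * b10.toNat +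
      b11.toNat * b9.toNat * b13.toNat +
      b13.toNat * b15.toNat * b11.toNat +
      b4.toNat * b0.toNat * b8.toNat +
      b8.toNat * b12.toNat * b4.toNat +
      b5.toNat * b1.toNat * b9.toNat +
      b9.toNat * b13.toNat * b5.toNat +
      b6.toNat * b2.toNat * b10.toNat +
      b10.toNat * b14.toNat * b6.toNat +
      b7.toNat * b3.toNat * b11.toNat +
      b11.toNat * b15.toNat * b7.toNat +
      b0.toNat * b1.toNat * b9.toNat +
      b0.toNat * b8.toNat * b9.toNat +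
      b2.toNat * b3.toNat * b11.toNat +
      b2.toNat * b10.toNat * b11.toNat +
      b4.toNat * b5.toNat * b13.toNat +
      b4.toNat * b12.toNat * b13.toNat +
      b6.toNat * b7.toNat * b15.toNat +
      b6.toNat * b14.toNat * b15.toNat := by
  unfold cu_bad
  simp only [← cu_and]
  repeat' first | exact le_rfl | refine (cu_or _ _).trans (Nat.add_le_add ?_ ?_)

theorem cu_le0 : ∀ a b c d e f g h : Bool, cu_ent cu_T0 (cu_pat a b c d e f g h) ≤ 2 := by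
  decide +kernel

theorem cu_le1 : ∀ a b c d e f g h : Bool, cu_ent cu_T1 (cu_pat a b c d e f g h) ≤ 2 := by
  decide +kernel

theorem cu_le2 : ∀ a b c d e f g h : Bool, cu_ent cu_T2 (cu_pat a b c d e f g h) ≤ 2 := by
  decide +kernel

theorem cu_le3 : ∀ a b c d e f g h : Bool, cu_ent cu_T3 (cu_pat a b c d e f g h) ≤ 2 := by
  decide +kernel

theorem cu_ineq (b0 b1 b2 b3 b4 b5 b6 b7 b8 b9 b10 b11 b12 b13 b14 b15 : Bool) :
    2 * (b0.toNat + b1.toNat + b2.toNat + b3.toNat + b4.toNat + b5.toNat + b6.toNat + b7.toNat + b8.toNat + b9.toNat + b10.toNat + b11.toNat + b12.toNat + b13.toNat + b14.toNat + b15.toNat) +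
      (cu_ent cu_T0 (cu_pat b1 b3 b5 b7 b9 b11 b13 b15) +
      cu_ent cu_T1 (cu_pat b2 b3 b6 b7 b10 b11 b14 b15) +
      cu_ent cu_T2 (cu_pat b4 b5 b6 b7 b12 b13 b14 b15) +
      cu_ent cu_T3 (cu_pat b8 b9 b10 b11 b12 b13 b14 b15)) ≤
      16 + (cu_ent cu_T0 (cu_pat b0 b2 b4 b6 b8 b10 b12 b14) +
      cu_ent cu_T1 (cu_pat b0 b1 b4 b5 b8 b9 b12 b13) +
      cu_ent cu_T2 (cu_pat b0 b1 b2 b3 b8 b9 b10 b11) +
      cu_ent cu_T3 (cu_pat b0 b1 b2 b3 b4 b5 b6 b7)) +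
      24 * (b1.toNat * b0.toNat * b2.toNat +
      b2.toNat * b3.toNat * b1.toNat +
      b5.toNat * b4.toNat * b6.toNat +
      b6.toNat * b7.toNat * b5.toNat +
      b9.toNat * b8.toNat * b10.toNat +
      b10.toNat * b11.toNat * b9.toNat +
      b13.toNat * b12.toNat * b14.toNat +
      b14.toNat * b15.toNat * b13.toNat +
      b2.toNat * b0.toNat * b4.toNat +
      b4.toNat * b6.toNat * b2.toNat +
      b3.toNat * b1.toNat * b5.toNat +
      b5.toNat * b7.toNat * b3.toNat +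
      b10.toNat * b8.toNat * b12.toNat +
      b12.toNat * b14.toNat * b10.toNat +
      b11.toNat * b9.toNat * b13.toNat +
      b13.toNat * b15.toNat * b11.toNat +
      b4.toNat * b0.toNat * b8.toNat +
      b8.toNat * b12.toNat * b4.toNat +
      b5.toNat * b1.toNat * b9.toNat +
      b9.toNat * b13.toNat * b5.toNat +
      b6.toNat * b2.toNat * b10.toNat +
      b10.toNat * b14.toNat * b6.toNat +
      b7.toNat * b3.toNat * b11.toNat +
      b11.toNat * b15.toNat * b7.toNat +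
      b0.toNat * b1.toNat * b9.toNat +
      b0.toNat * b8.toNat * b9.toNat +
      b2.toNat * b3.toNat * b11.toNat +
      b2.toNat * b10.toNat * b11.toNat +
      b4.toNat * b5.toNat * b13.toNat +
      b4.toNat * b12.toNat * b13.toNat +
      b6.toNat * b7.toNat * b15.toNat +
      b6.toNat * b14.toNat * b15.toNat) := by
  have h1 := cu_all b0 b1 b2 b3 b4 b5 b6 b7 b8 b9 b10 b11 b12 b13 b14 b15
  have h2 := cu_bad_le b0 b1 b2 b3 b4 b5 b6 b7 b8 b9 b10 b11 b12 b13 b14 b15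
  unfold cu_chk at h1
  rw [Bool.or_eq_true] at h1
  rcases h1 with h1 | h1
  · rw [h1, Bool.toNat_true] at h2
    have k0 := cu_le0 b1 b3 b5 b7 b9 b11 b13 b15
    have k1 := cu_le1 b2 b3 b6 b7 b10 b11 b14 b15
    have k2 := cu_le2 b4 b5 b6 b7 b12 b13 b14 b15
    have k3 := cu_le3 b8 b9 b10 b11 b12 b13 b14 b15
    have t0 := Bool.toNat_le b0
    have t1 := Bool.toNat_le b1
    have t2 := Bool.toNat_le b2
    have t3 := Bool.toNat_le b3
    have t4 := Bool.toNat_le b4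
    have t5 := Bool.toNat_le b5
    have t6 := Bool.toNat_le b6
    have t7 := Bool.toNat_le b7
    have t8 := Bool.toNat_le b8
    have t9 := Bool.toNat_le b9
    have t10 := Bool.toNat_le b10
    have t11 := Bool.toNat_le b11
    have t12 := Bool.toNat_le b12
    have t13 := Bool.toNat_le b13
    have t14 := Bool.toNat_le b14
    have t15 := Bool.toNat_le b15
    omega
  · have h3 := of_decide_eq_true h1
    omega

/-- The table function of a face. -/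
noncomputable def cu_F (C : Set ℤ) (T : ℕ) (u v w x : ℤ) : ℝ := by
  classical exact
  ((cu_ent T (cu_pat (decide (x ∈ C)) (decide (x + u ∈ C)) (decide (x + v ∈ C))
    (decide (x + u + v ∈ C)) (decide (x + w ∈ C)) (decide (x + u + w ∈ C))
    (decide (x + v + w ∈ C)) (decide (x + u + v + w ∈ C))) : ℕ) : ℝ)

theorem cu_F_bd (C : Set ℤ) (T : ℕ) (u v w : ℤ) : Bd (cu_F C T u v w) := by
  refine Bd.of_abs_le 3 fun x => ?_
  unfold cu_F
  rw [abs_of_nonneg (Nat.cast_nonneg _)]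
  have h : ∀ p, cu_ent T p ≤ 3 := fun p => Nat.and_le_right
  exact_mod_cast h _

/-- indicator -/
noncomputable def cu_c (C : Set ℤ) (x : ℤ) : ℝ := C.indicator (fun _ => (1 : ℝ)) x

/-- indicator of a triple -/
noncomputable def cu_t (C : Set ℤ) (r s t x : ℤ) : ℝ :=
  {x | x + r ∈ C ∧ x + s ∈ C ∧ x + t ∈ C}.indicator (fun _ => (1 : ℝ)) x

theorem cu_c_eq (C : Set ℤ) (x : ℤ) (b : Bool) (h : b = true ↔ x ∈ C) :
    cu_c C x = (b.toNat : ℝ) := by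
  unfold cu_c
  by_cases hx : x ∈ C
  · rw [Set.indicator_of_mem hx, h.2 hx]; simp
  · have : b = false := by
      cases b
      · rfl
      · exact absurd (h.1 rfl) hx
    rw [Set.indicator_of_notMem hx, this]; simp

theorem cu_t_eq (C : Set ℤ) (r s t x : ℤ) (b b' b'' : Bool) (h : b = true ↔ x + r ∈ C)
    (h' : b' = true ↔ x + s ∈ C) (h'' : b'' = true ↔ x + t ∈ C) :
    cu_t C r s t x = (b.toNat * b'.toNat * b''.toNat : ℕ) := by
  unfold cu_t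
  cases b <;> cases b' <;> cases b'' <;> simp_all

theorem cu_point (C : Set ℤ) (e0 e1 e2 e3 x : ℤ) :
    2 * (cu_c C (x) + cu_c C (x + e0) + cu_c C (x + e1) + cu_c C (x + e0 + e1) + cu_c C (x + e2) + cu_c C (x + e0 + e2) + cu_c C (x + e1 + e2) + cu_c C (x + e0 + e1 + e2) + cu_c C (x + e3) + cu_c C (x + e0 + e3) + cu_c C (x + e1 + e3) + cu_c C (x + e0 + e1 + e3) + cu_c C (x + e2 + e3) + cu_c C (x + e0 + e2 + e3) + cu_c C (x + e1 + e2 + e3) + cu_c C (x + e0 + e1 + e2 + e3)) +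
      (cu_F C cu_T0 e1 e2 e3 (x + e0) +
      cu_F C cu_T1 e0 e2 e3 (x + e1) +
      cu_F C cu_T2 e0 e1 e3 (x + e2) +
      cu_F C cu_T3 e0 e1 e2 (x + e3)) ≤
      16 + (cu_F C cu_T0 e1 e2 e3 x + cu_F C cu_T1 e0 e2 e3 x + cu_F C cu_T2 e0 e1 e3 x + cu_F C cu_T3 e0 e1 e2 x) +
      24 * (cu_t C (e0) (0) (e1) x +
      cu_t C (e1) (e0 + e1) (e0) x +
      cu_t C (e0 + e2) (e2) (e1 + e2) x +
      cu_t C (e1 + e2) (e0 + e1 + e2) (e0 + e2) x +
      cu_t C (e0 + e3) (e3) (e1 + e3) x +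
      cu_t C (e1 + e3) (e0 + e1 + e3) (e0 + e3) x +
      cu_t C (e0 + e2 + e3) (e2 + e3) (e1 + e2 + e3) x +
      cu_t C (e1 + e2 + e3) (e0 + e1 + e2 + e3) (e0 + e2 + e3) x +
      cu_t C (e1) (0) (e2) x +
      cu_t C (e2) (e1 + e2) (e1) x +
      cu_t C (e0 + e1) (e0) (e0 + e2) x +
      cu_t C (e0 + e2) (e0 + e1 + e2) (e0 + e1) x +
      cu_t C (e1 + e3) (e3) (e2 + e3) x +
      cu_t C (e2 + e3) (e1 + e2 + e3) (e1 + e3) x +
      cu_t C (e0 + e1 + e3) (e0 + e3) (e0 + e2 + e3) x +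
      cu_t C (e0 + e2 + e3) (e0 + e1 + e2 + e3) (e0 + e1 + e3) x +
      cu_t C (e2) (0) (e3) x +
      cu_t C (e3) (e2 + e3) (e2) x +
      cu_t C (e0 + e2) (e0) (e0 + e3) x +
      cu_t C (e0 + e3) (e0 + e2 + e3) (e0 + e2) x +
      cu_t C (e1 + e2) (e1) (e1 + e3) x +
      cu_t C (e1 + e3) (e1 + e2 + e3) (e1 + e2) x +
      cu_t C (e0 + e1 + e2) (e0 + e1) (e0 + e1 + e3) x +
      cu_t C (e0 + e1 + e3) (e0 + e1 + e2 + e3) (e0 + e1 + e2) x +
      cu_t C (0) (e0) (e0 + e3) x +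
      cu_t C (0) (e3) (e0 + e3) x +
      cu_t C (e1) (e0 + e1) (e0 + e1 + e3) x +
      cu_t C (e1) (e1 + e3) (e0 + e1 + e3) x +
      cu_t C (e2) (e0 + e2) (e0 + e2 + e3) x +
      cu_t C (e2) (e2 + e3) (e0 + e2 + e3) x +
      cu_t C (e1 + e2) (e0 + e1 + e2) (e0 + e1 + e2 + e3) x +
      cu_t C (e1 + e2) (e1 + e2 + e3) (e0 + e1 + e2 + e3) x) := by
  classical
  obtain ⟨b0, hb0⟩ : ∃ b : Bool, b = decide (x ∈ C) := ⟨_, rfl⟩
  have c0 : b0 = true ↔ x ∈ C := by rw [hb0, decide_eq_true_iff]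
  obtain ⟨b1, hb1⟩ : ∃ b : Bool, b = decide (x + e0 ∈ C) := ⟨_, rfl⟩
  have c1 : b1 = true ↔ x + e0 ∈ C := by rw [hb1, decide_eq_true_iff]
  obtain ⟨b2, hb2⟩ : ∃ b : Bool, b = decide (x + e1 ∈ C) := ⟨_, rfl⟩
  have c2 : b2 = true ↔ x + e1 ∈ C := by rw [hb2, decide_eq_true_iff]
  obtain ⟨b3, hb3⟩ : ∃ b : Bool, b = decide (x + e0 + e1 ∈ C) := ⟨_, rfl⟩
  have c3 : b3 = true ↔ x + e0 + e1 ∈ C := by rw [hb3, decide_eq_true_iff]
  obtain ⟨b4, hb4⟩ : ∃ b : Bool, b = decide (x + e2 ∈ C) := ⟨_, rfl⟩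
  have c4 : b4 = true ↔ x + e2 ∈ C := by rw [hb4, decide_eq_true_iff]
  obtain ⟨b5, hb5⟩ : ∃ b : Bool, b = decide (x + e0 + e2 ∈ C) := ⟨_, rfl⟩
  have c5 : b5 = true ↔ x + e0 + e2 ∈ C := by rw [hb5, decide_eq_true_iff]
  obtain ⟨b6, hb6⟩ : ∃ b : Bool, b = decide (x + e1 + e2 ∈ C) := ⟨_, rfl⟩
  have c6 : b6 = true ↔ x + e1 + e2 ∈ C := by rw [hb6, decide_eq_true_iff]
  obtain ⟨b7, hb7⟩ : ∃ b : Bool, b = decide (x + e0 + e1 + e2 ∈ C) := ⟨_, rfl⟩
  have c7 : b7 = true ↔ x + e0 + e1 + e2 ∈ C := by rw [hb7, decide_eq_true_iff]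
  obtain ⟨b8, hb8⟩ : ∃ b : Bool, b = decide (x + e3 ∈ C) := ⟨_, rfl⟩
  have c8 : b8 = true ↔ x + e3 ∈ C := by rw [hb8, decide_eq_true_iff]
  obtain ⟨b9, hb9⟩ : ∃ b : Bool, b = decide (x + e0 + e3 ∈ C) := ⟨_, rfl⟩
  have c9 : b9 = true ↔ x + e0 + e3 ∈ C := by rw [hb9, decide_eq_true_iff]
  obtain ⟨b10, hb10⟩ : ∃ b : Bool, b = decide (x + e1 + e3 ∈ C) := ⟨_, rfl⟩
  have c10 : b10 = true ↔ x + e1 + e3 ∈ C := by rw [hb10, decide_eq_true_iff]
  obtain ⟨b11, hb11⟩ : ∃ b : Bool, b = decide (x + e0 + e1 + e3 ∈ C) := ⟨_, rfl⟩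
  have c11 : b11 = true ↔ x + e0 + e1 + e3 ∈ C := by rw [hb11, decide_eq_true_iff]
  obtain ⟨b12, hb12⟩ : ∃ b : Bool, b = decide (x + e2 + e3 ∈ C) := ⟨_, rfl⟩
  have c12 : b12 = true ↔ x + e2 + e3 ∈ C := by rw [hb12, decide_eq_true_iff]
  obtain ⟨b13, hb13⟩ : ∃ b : Bool, b = decide (x + e0 + e2 + e3 ∈ C) := ⟨_, rfl⟩
  have c13 : b13 = true ↔ x + e0 + e2 + e3 ∈ C := by rw [hb13, decide_eq_true_iff]
  obtain ⟨b14, hb14⟩ : ∃ b : Bool, b = decide (x + e1 + e2 + e3 ∈ C) := ⟨_, rfl⟩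
  have c14 : b14 = true ↔ x + e1 + e2 + e3 ∈ C := by rw [hb14, decide_eq_true_iff]
  obtain ⟨b15, hb15⟩ : ∃ b : Bool, b = decide (x + e0 + e1 + e2 + e3 ∈ C) := ⟨_, rfl⟩
  have c15 : b15 = true ↔ x + e0 + e1 + e2 + e3 ∈ C := by rw [hb15, decide_eq_true_iff]
  have f0 : cu_F C cu_T0 e1 e2 e3 x = (cu_ent cu_T0 (cu_pat b0 b2 b4 b6 b8 b10 b12 b14) : ℕ) := by
    unfold cu_F
    rw [← hb14, ← hb12, ← hb10, ← hb8, ← hb6, ← hb4, ← hb2, ← hb0]
  have g0 : cu_F C cu_T0 e1 e2 e3 (x + e0) = (cu_ent cu_T0 (cu_pat b1 b3 b5 b7 b9 b11 b13 b15) : ℕ) := by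
    unfold cu_F
    rw [← hb15, ← hb13, ← hb11, ← hb9, ← hb7, ← hb5, ← hb3, ← hb1]
  have f1 : cu_F C cu_T1 e0 e2 e3 x = (cu_ent cu_T1 (cu_pat b0 b1 b4 b5 b8 b9 b12 b13) : ℕ) := by
    unfold cu_F
    rw [← hb13, ← hb12, ← hb9, ← hb8, ← hb5, ← hb4, ← hb1, ← hb0]
  have g1 : cu_F C cu_T1 e0 e2 e3 (x + e1) = (cu_ent cu_T1 (cu_pat b2 b3 b6 b7 b10 b11 b14 b15) : ℕ) := by
    unfold cu_F
    rw [show x + e1 + e0 + e2 + e3 = x + e0 + e1 + e2 + e3 by ring,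
      show x + e1 + e0 + e2 = x + e0 + e1 + e2 by ring,
      show x + e1 + e0 + e3 = x + e0 + e1 + e3 by ring,
      show x + e1 + e0 = x + e0 + e1 by ring]
    rw [← hb15, ← hb14, ← hb11, ← hb10, ← hb7, ← hb6, ← hb3, ← hb2]
  have f2 : cu_F C cu_T2 e0 e1 e3 x = (cu_ent cu_T2 (cu_pat b0 b1 b2 b3 b8 b9 b10 b11) : ℕ) := by
    unfold cu_F
    rw [← hb11, ← hb10, ← hb9, ← hb8, ← hb3, ← hb2, ← hb1, ← hb0]
  have g2 : cu_F C cu_T2 e0 e1 e3 (x + e2) = (cu_ent cu_T2 (cu_pat b4 b5 b6 b7 b12 b13 b14 b15) : ℕ) := by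
    unfold cu_F
    rw [show x + e2 + e0 + e1 + e3 = x + e0 + e1 + e2 + e3 by ring,
      show x + e2 + e0 + e1 = x + e0 + e1 + e2 by ring,
      show x + e2 + e0 + e3 = x + e0 + e2 + e3 by ring,
      show x + e2 + e1 + e3 = x + e1 + e2 + e3 by ring,
      show x + e2 + e0 = x + e0 + e2 by ring,
      show x + e2 + e1 = x + e1 + e2 by ring]
    rw [← hb15, ← hb14, ← hb13, ← hb12, ← hb7, ← hb6, ← hb5, ← hb4]
  have f3 : cu_F C cu_T3 e0 e1 e2 x = (cu_ent cu_T3 (cu_pat b0 b1 b2 b3 b4 b5 b6 b7) : ℕ) := by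
    unfold cu_F
    rw [← hb7, ← hb6, ← hb5, ← hb4, ← hb3, ← hb2, ← hb1, ← hb0]
  have g3 : cu_F C cu_T3 e0 e1 e2 (x + e3) = (cu_ent cu_T3 (cu_pat b8 b9 b10 b11 b12 b13 b14 b15) : ℕ) := by
    unfold cu_F
    rw [show x + e3 + e0 + e1 + e2 = x + e0 + e1 + e2 + e3 by ring,
      show x + e3 + e0 + e1 = x + e0 + e1 + e3 by ring,
      show x + e3 + e0 + e2 = x + e0 + e2 + e3 by ring,
      show x + e3 + e1 + e2 = x + e1 + e2 + e3 by ring,
      show x + e3 + e0 = x + e0 + e3 by ring,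
      show x + e3 + e1 = x + e1 + e3 by ring,
      show x + e3 + e2 = x + e2 + e3 by ring]
    rw [← hb15, ← hb14, ← hb13, ← hb12, ← hb11, ← hb10, ← hb9, ← hb8]
  have s0 : cu_t C (e0) (0) (e1) x =
      (b1.toNat * b0.toNat * b2.toNat : ℕ) :=
    cu_t_eq C _ _ _ x b1 b0 b2 (by rw [c1] <;> ring_nf) (by rw [c0] <;> ring_nf)
      (by rw [c2] <;> ring_nf)
  have s1 : cu_t C (e1) (e0 + e1) (e0) x =
      (b2.toNat * b3.toNat * b1.toNat : ℕ) :=
    cu_t_eq C _ _ _ x b2 b3 b1 (by rw [c2] <;> ring_nf) (by rw [c3] <;> ring_nf)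
      (by rw [c1] <;> ring_nf)
  have s2 : cu_t C (e0 + e2) (e2) (e1 + e2) x =
      (b5.toNat * b4.toNat * b6.toNat : ℕ) :=
    cu_t_eq C _ _ _ x b5 b4 b6 (by rw [c5] <;> ring_nf) (by rw [c4] <;> ring_nf)
      (by rw [c6] <;> ring_nf)
  have s3 : cu_t C (e1 + e2) (e0 + e1 + e2) (e0 + e2) x =
      (b6.toNat * b7.toNat * b5.toNat : ℕ) :=
    cu_t_eq C _ _ _ x b6 b7 b5 (by rw [c6] <;> ring_nf) (by rw [c7] <;> ring_nf)
      (by rw [c5] <;> ring_nf)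
  have s4 : cu_t C (e0 + e3) (e3) (e1 + e3) x =
      (b9.toNat * b8.toNat * b10.toNat : ℕ) :=
    cu_t_eq C _ _ _ x b9 b8 b10 (by rw [c9] <;> ring_nf) (by rw [c8] <;> ring_nf)
      (by rw [c10] <;> ring_nf)
  have s5 : cu_t C (e1 + e3) (e0 + e1 + e3) (e0 + e3) x =
      (b10.toNat * b11.toNat * b9.toNat : ℕ) :=
    cu_t_eq C _ _ _ x b10 b11 b9 (by rw [c10] <;> ring_nf) (by rw [c11] <;> ring_nf)
      (by rw [c9] <;> ring_nf)
  have s6 : cu_t C (e0 + e2 + e3) (e2 + e3) (e1 + e2 + e3) x =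
      (b13.toNat * b12.toNat * b14.toNat : ℕ) :=
    cu_t_eq C _ _ _ x b13 b12 b14 (by rw [c13] <;> ring_nf) (by rw [c12] <;> ring_nf)
      (by rw [c14] <;> ring_nf)
  have s7 : cu_t C (e1 + e2 + e3) (e0 + e1 + e2 + e3) (e0 + e2 + e3) x =
      (b14.toNat * b15.toNat * b13.toNat : ℕ) :=
    cu_t_eq C _ _ _ x b14 b15 b13 (by rw [c14] <;> ring_nf) (by rw [c15] <;> ring_nf)
      (by rw [c13] <;> ring_nf)
  have s8 : cu_t C (e1) (0) (e2) x =
      (b2.toNat * b0.toNat * b4.toNat : ℕ) :=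
    cu_t_eq C _ _ _ x b2 b0 b4 (by rw [c2] <;> ring_nf) (by rw [c0] <;> ring_nf)
      (by rw [c4] <;> ring_nf)
  have s9 : cu_t C (e2) (e1 + e2) (e1) x =
      (b4.toNat * b6.toNat * b2.toNat : ℕ) :=
    cu_t_eq C _ _ _ x b4 b6 b2 (by rw [c4] <;> ring_nf) (by rw [c6] <;> ring_nf)
      (by rw [c2] <;> ring_nf)
  have s10 : cu_t C (e0 + e1) (e0) (e0 + e2) x =
      (b3.toNat * b1.toNat * b5.toNat : ℕ) :=
    cu_t_eq C _ _ _ x b3 b1 b5 (by rw [c3] <;> ring_nf) (by rw [c1] <;> ring_nf)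
      (by rw [c5] <;> ring_nf)
  have s11 : cu_t C (e0 + e2) (e0 + e1 + e2) (e0 + e1) x =
      (b5.toNat * b7.toNat * b3.toNat : ℕ) :=
    cu_t_eq C _ _ _ x b5 b7 b3 (by rw [c5] <;> ring_nf) (by rw [c7] <;> ring_nf)
      (by rw [c3] <;> ring_nf)
  have s12 : cu_t C (e1 + e3) (e3) (e2 + e3) x =
      (b10.toNat * b8.toNat * b12.toNat : ℕ) :=
    cu_t_eq C _ _ _ x b10 b8 b12 (by rw [c10] <;> ring_nf) (by rw [c8] <;> ring_nf)
      (by rw [c12] <;> ring_nf)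
  have s13 : cu_t C (e2 + e3) (e1 + e2 + e3) (e1 + e3) x =
      (b12.toNat * b14.toNat * b10.toNat : ℕ) :=
    cu_t_eq C _ _ _ x b12 b14 b10 (by rw [c12] <;> ring_nf) (by rw [c14] <;> ring_nf)
      (by rw [c10] <;> ring_nf)
  have s14 : cu_t C (e0 + e1 + e3) (e0 + e3) (e0 + e2 + e3) x =
      (b11.toNat * b9.toNat * b13.toNat : ℕ) :=
    cu_t_eq C _ _ _ x b11 b9 b13 (by rw [c11] <;> ring_nf) (by rw [c9] <;> ring_nf)
      (by rw [c13] <;> ring_nf)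
  have s15 : cu_t C (e0 + e2 + e3) (e0 + e1 + e2 + e3) (e0 + e1 + e3) x =
      (b13.toNat * b15.toNat * b11.toNat : ℕ) :=
    cu_t_eq C _ _ _ x b13 b15 b11 (by rw [c13] <;> ring_nf) (by rw [c15] <;> ring_nf)
      (by rw [c11] <;> ring_nf)
  have s16 : cu_t C (e2) (0) (e3) x =
      (b4.toNat * b0.toNat * b8.toNat : ℕ) :=
    cu_t_eq C _ _ _ x b4 b0 b8 (by rw [c4] <;> ring_nf) (by rw [c0] <;> ring_nf)
      (by rw [c8] <;> ring_nf)
  have s17 : cu_t C (e3) (e2 + e3) (e2) x =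
      (b8.toNat * b12.toNat * b4.toNat : ℕ) :=
    cu_t_eq C _ _ _ x b8 b12 b4 (by rw [c8] <;> ring_nf) (by rw [c12] <;> ring_nf)
      (by rw [c4] <;> ring_nf)
  have s18 : cu_t C (e0 + e2) (e0) (e0 + e3) x =
      (b5.toNat * b1.toNat * b9.toNat : ℕ) :=
    cu_t_eq C _ _ _ x b5 b1 b9 (by rw [c5] <;> ring_nf) (by rw [c1] <;> ring_nf)
      (by rw [c9] <;> ring_nf)
  have s19 : cu_t C (e0 + e3) (e0 + e2 + e3) (e0 + e2) x =
      (b9.toNat * b13.toNat * b5.toNat : ℕ) :=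
    cu_t_eq C _ _ _ x b9 b13 b5 (by rw [c9] <;> ring_nf) (by rw [c13] <;> ring_nf)
      (by rw [c5] <;> ring_nf)
  have s20 : cu_t C (e1 + e2) (e1) (e1 + e3) x =
      (b6.toNat * b2.toNat * b10.toNat : ℕ) :=
    cu_t_eq C _ _ _ x b6 b2 b10 (by rw [c6] <;> ring_nf) (by rw [c2] <;> ring_nf)
      (by rw [c10] <;> ring_nf)
  have s21 : cu_t C (e1 + e3) (e1 + e2 + e3) (e1 + e2) x =
      (b10.toNat * b14.toNat * b6.toNat : ℕ) :=
    cu_t_eq C _ _ _ x b10 b14 b6 (by rw [c10] <;> ring_nf) (by rw [c14] <;> ring_nf)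
      (by rw [c6] <;> ring_nf)
  have s22 : cu_t C (e0 + e1 + e2) (e0 + e1) (e0 + e1 + e3) x =
      (b7.toNat * b3.toNat * b11.toNat : ℕ) :=
    cu_t_eq C _ _ _ x b7 b3 b11 (by rw [c7] <;> ring_nf) (by rw [c3] <;> ring_nf)
      (by rw [c11] <;> ring_nf)
  have s23 : cu_t C (e0 + e1 + e3) (e0 + e1 + e2 + e3) (e0 + e1 + e2) x =
      (b11.toNat * b15.toNat * b7.toNat : ℕ) :=
    cu_t_eq C _ _ _ x b11 b15 b7 (by rw [c11] <;> ring_nf) (by rw [c15] <;> ring_nf)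
      (by rw [c7] <;> ring_nf)
  have s24 : cu_t C (0) (e0) (e0 + e3) x =
      (b0.toNat * b1.toNat * b9.toNat : ℕ) :=
    cu_t_eq C _ _ _ x b0 b1 b9 (by rw [c0] <;> ring_nf) (by rw [c1] <;> ring_nf)
      (by rw [c9] <;> ring_nf)
  have s25 : cu_t C (0) (e3) (e0 + e3) x =
      (b0.toNat * b8.toNat * b9.toNat : ℕ) :=
    cu_t_eq C _ _ _ x b0 b8 b9 (by rw [c0] <;> ring_nf) (by rw [c8] <;> ring_nf)
      (by rw [c9] <;> ring_nf)
  have s26 : cu_t C (e1) (e0 + e1) (e0 + e1 + e3) x =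
      (b2.toNat * b3.toNat * b11.toNat : ℕ) :=
    cu_t_eq C _ _ _ x b2 b3 b11 (by rw [c2] <;> ring_nf) (by rw [c3] <;> ring_nf)
      (by rw [c11] <;> ring_nf)
  have s27 : cu_t C (e1) (e1 + e3) (e0 + e1 + e3) x =
      (b2.toNat * b10.toNat * b11.toNat : ℕ) :=
    cu_t_eq C _ _ _ x b2 b10 b11 (by rw [c2] <;> ring_nf) (by rw [c10] <;> ring_nf)
      (by rw [c11] <;> ring_nf)
  have s28 : cu_t C (e2) (e0 + e2) (e0 + e2 + e3) x =
      (b4.toNat * b5.toNat * b13.toNat : ℕ) :=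
    cu_t_eq C _ _ _ x b4 b5 b13 (by rw [c4] <;> ring_nf) (by rw [c5] <;> ring_nf)
      (by rw [c13] <;> ring_nf)
  have s29 : cu_t C (e2) (e2 + e3) (e0 + e2 + e3) x =
      (b4.toNat * b12.toNat * b13.toNat : ℕ) :=
    cu_t_eq C _ _ _ x b4 b12 b13 (by rw [c4] <;> ring_nf) (by rw [c12] <;> ring_nf)
      (by rw [c13] <;> ring_nf)
  have s30 : cu_t C (e1 + e2) (e0 + e1 + e2) (e0 + e1 + e2 + e3) x =
      (b6.toNat * b7.toNat * b15.toNat : ℕ) :=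
    cu_t_eq C _ _ _ x b6 b7 b15 (by rw [c6] <;> ring_nf) (by rw [c7] <;> ring_nf)
      (by rw [c15] <;> ring_nf)
  have s31 : cu_t C (e1 + e2) (e1 + e2 + e3) (e0 + e1 + e2 + e3) x =
      (b6.toNat * b14.toNat * b15.toNat : ℕ) :=
    cu_t_eq C _ _ _ x b6 b14 b15 (by rw [c6] <;> ring_nf) (by rw [c14] <;> ring_nf)
      (by rw [c15] <;> ring_nf)
  have d0 := cu_c_eq C _ b0 c0
  have d1 := cu_c_eq C _ b1 c1
  have d2 := cu_c_eq C _ b2 c2
  have d3 := cu_c_eq C _ b3 c3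
  have d4 := cu_c_eq C _ b4 c4
  have d5 := cu_c_eq C _ b5 c5
  have d6 := cu_c_eq C _ b6 c6
  have d7 := cu_c_eq C _ b7 c7
  have d8 := cu_c_eq C _ b8 c8
  have d9 := cu_c_eq C _ b9 c9
  have d10 := cu_c_eq C _ b10 c10
  have d11 := cu_c_eq C _ b11 c11
  have d12 := cu_c_eq C _ b12 c12
  have d13 := cu_c_eq C _ b13 c13
  have d14 := cu_c_eq C _ b14 c14
  have d15 := cu_c_eq C _ b15 c15
  have key := cu_ineq b0 b1 b2 b3 b4 b5 b6 b7 b8 b9 b10 b11 b12 b13 b14 b15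
  rw [d0, d1, d2, d3, d4, d5, d6, d7, d8, d9, d10, d11, d12, d13, d14, d15,
    f0, g0, f1, g1, f2, g2, f3, g3,
    s0, s1, s2, s3, s4, s5, s6, s7, s8, s9, s10, s11, s12, s13, s14, s15, s16, s17, s18, s19, s20, s21, s22, s23, s24, s25, s26, s27, s28, s29, s30, s31]
  exact_mod_cast key

theorem cu_add (m : Mn ℤ) (f g : ℤ → ℝ) : m.L (fun x => f x + g x) = m.L f + m.L g := map_add m.L f g

theorem cu_mul (m : Mn ℤ) (c : ℝ) (f : ℤ → ℝ) : m.L (fun x => c * f x) = c * m.L f :=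
  map_smul m.L c f

theorem cu_sh (m : Mn ℤ) (hm : m.Inv) {f : ℤ → ℝ} (hf : Bd f) (g : ℤ → ℤ) (s : ℤ)
    (h : ∀ x, g x = x + s) : m.L (fun x => f (g x)) = m.L f := by
  rw [← L_shift m hm hf s]
  congr 1
  ext x
  rw [h]

theorem cu_tri (m : Mn ℤ) (hm : m.Inv) (C : Set ℤ) (r s t u v : ℤ) (hu : s - r = u)
    (hv : t - s = v) : m.L (fun x => cu_t C r s t x) = P m C u v := by
  subst hu hv
  unfold P
  rw [← ms_shift m hm _ r]
  have e : {x : ℤ | x + r ∈ C ∧ x + s ∈ C ∧ x + t ∈ C} =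
      {x : ℤ | x + r ∈ {x : ℤ | x ∈ C ∧ x + (s - r) ∈ C ∧ x + (s - r) + (t - s) ∈ C}} := by
    ext x
    simp only [Set.mem_setOf_eq]
    rw [show x + r + (s - r) = x + s by ring, show x + s + (t - s) = x + t by ring]
  rw [← e]
  rfl

variable {m : Mn ℤ} {C : Set ℤ}

theorem cube4 (h : Sym m C) (η : ℝ) (a b c d : ℤ) (h1 : P m C a b ≤ η) (h2 : P m C b c ≤ η)
    (h3 : P m C c d ≤ η) (h4 : P m C d (-a) ≤ η) : 32 * ms m C - 16 ≤ 768 * η := by
  obtain ⟨e0, he0⟩ : ∃ e0 : ℤ, e0 = a := ⟨_, rfl⟩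
  obtain ⟨e1, he1⟩ : ∃ e1 : ℤ, e1 = -b := ⟨_, rfl⟩
  obtain ⟨e2, he2⟩ : ∃ e2 : ℤ, e2 = c := ⟨_, rfl⟩
  obtain ⟨e3, he3⟩ : ∃ e3 : ℤ, e3 = -d := ⟨_, rfl⟩
  have p01 : P m C (-e0) e1 ≤ η := by
    rw [he0, he1, P_neg h]; exact h1
  have q01 : P m C e0 (-e1) ≤ η := by
    rw [he0, he1, neg_neg]; exact h1
  have p12 : P m C (-e1) e2 ≤ η := by
    rw [he1, he2, neg_neg]; exact h2
  have q12 : P m C e1 (-e2) ≤ η := by
    rw [he1, he2, P_neg h]; exact h2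
  have p23 : P m C (-e2) e3 ≤ η := by
    rw [he2, he3, P_neg h]; exact h3
  have q23 : P m C e2 (-e3) ≤ η := by
    rw [he2, he3, neg_neg]; exact h3
  have p03 : P m C e0 e3 ≤ η := by
    rw [he0, he3, ← P_neg h, neg_neg, P_comm h]; exact h4
  have q03 : P m C e3 e0 ≤ η := by
    rw [P_comm h]; exact p03
  clear he0 he1 he2 he3
  have t0 : m.L (fun x => cu_t C (e0) (0) (e1) x) ≤ η :=
    (cu_tri m h.inv C _ _ _ _ _ (by ring) (by ring)).trans_le p01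
  have t1 : m.L (fun x => cu_t C (e1) (e0 + e1) (e0) x) ≤ η :=
    (cu_tri m h.inv C _ _ _ _ _ (by ring) (by ring)).trans_le q01
  have t2 : m.L (fun x => cu_t C (e0 + e2) (e2) (e1 + e2) x) ≤ η :=
    (cu_tri m h.inv C _ _ _ _ _ (by ring) (by ring)).trans_le p01
  have t3 : m.L (fun x => cu_t C (e1 + e2) (e0 + e1 + e2) (e0 + e2) x) ≤ η :=
    (cu_tri m h.inv C _ _ _ _ _ (by ring) (by ring)).trans_le q01
  have t4 : m.L (fun x => cu_t C (e0 + e3) (e3) (e1 + e3) x) ≤ η :=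
    (cu_tri m h.inv C _ _ _ _ _ (by ring) (by ring)).trans_le p01
  have t5 : m.L (fun x => cu_t C (e1 + e3) (e0 + e1 + e3) (e0 + e3) x) ≤ η :=
    (cu_tri m h.inv C _ _ _ _ _ (by ring) (by ring)).trans_le q01
  have t6 : m.L (fun x => cu_t C (e0 + e2 + e3) (e2 + e3) (e1 + e2 + e3) x) ≤ η :=
    (cu_tri m h.inv C _ _ _ _ _ (by ring) (by ring)).trans_le p01
  have t7 : m.L (fun x => cu_t C (e1 + e2 + e3) (e0 + e1 + e2 + e3) (e0 + e2 + e3) x) ≤ η :=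
    (cu_tri m h.inv C _ _ _ _ _ (by ring) (by ring)).trans_le q01
  have t8 : m.L (fun x => cu_t C (e1) (0) (e2) x) ≤ η :=
    (cu_tri m h.inv C _ _ _ _ _ (by ring) (by ring)).trans_le p12
  have t9 : m.L (fun x => cu_t C (e2) (e1 + e2) (e1) x) ≤ η :=
    (cu_tri m h.inv C _ _ _ _ _ (by ring) (by ring)).trans_le q12
  have t10 : m.L (fun x => cu_t C (e0 + e1) (e0) (e0 + e2) x) ≤ η :=
    (cu_tri m h.inv C _ _ _ _ _ (by ring) (by ring)).trans_le p12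
  have t11 : m.L (fun x => cu_t C (e0 + e2) (e0 + e1 + e2) (e0 + e1) x) ≤ η :=
    (cu_tri m h.inv C _ _ _ _ _ (by ring) (by ring)).trans_le q12
  have t12 : m.L (fun x => cu_t C (e1 + e3) (e3) (e2 + e3) x) ≤ η :=
    (cu_tri m h.inv C _ _ _ _ _ (by ring) (by ring)).trans_le p12
  have t13 : m.L (fun x => cu_t C (e2 + e3) (e1 + e2 + e3) (e1 + e3) x) ≤ η :=
    (cu_tri m h.inv C _ _ _ _ _ (by ring) (by ring)).trans_le q12
  have t14 : m.L (fun x => cu_t C (e0 + e1 + e3) (e0 + e3) (e0 + e2 + e3) x) ≤ η :=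
    (cu_tri m h.inv C _ _ _ _ _ (by ring) (by ring)).trans_le p12
  have t15 : m.L (fun x => cu_t C (e0 + e2 + e3) (e0 + e1 + e2 + e3) (e0 + e1 + e3) x) ≤ η :=
    (cu_tri m h.inv C _ _ _ _ _ (by ring) (by ring)).trans_le q12
  have t16 : m.L (fun x => cu_t C (e2) (0) (e3) x) ≤ η :=
    (cu_tri m h.inv C _ _ _ _ _ (by ring) (by ring)).trans_le p23
  have t17 : m.L (fun x => cu_t C (e3) (e2 + e3) (e2) x) ≤ η :=
    (cu_tri m h.inv C _ _ _ _ _ (by ring) (by ring)).trans_le q23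
  have t18 : m.L (fun x => cu_t C (e0 + e2) (e0) (e0 + e3) x) ≤ η :=
    (cu_tri m h.inv C _ _ _ _ _ (by ring) (by ring)).trans_le p23
  have t19 : m.L (fun x => cu_t C (e0 + e3) (e0 + e2 + e3) (e0 + e2) x) ≤ η :=
    (cu_tri m h.inv C _ _ _ _ _ (by ring) (by ring)).trans_le q23
  have t20 : m.L (fun x => cu_t C (e1 + e2) (e1) (e1 + e3) x) ≤ η :=
    (cu_tri m h.inv C _ _ _ _ _ (by ring) (by ring)).trans_le p23
  have t21 : m.L (fun x => cu_t C (e1 + e3) (e1 + e2 + e3) (e1 + e2) x) ≤ η :=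
    (cu_tri m h.inv C _ _ _ _ _ (by ring) (by ring)).trans_le q23
  have t22 : m.L (fun x => cu_t C (e0 + e1 + e2) (e0 + e1) (e0 + e1 + e3) x) ≤ η :=
    (cu_tri m h.inv C _ _ _ _ _ (by ring) (by ring)).trans_le p23
  have t23 : m.L (fun x => cu_t C (e0 + e1 + e3) (e0 + e1 + e2 + e3) (e0 + e1 + e2) x) ≤ η :=
    (cu_tri m h.inv C _ _ _ _ _ (by ring) (by ring)).trans_le q23
  have t24 : m.L (fun x => cu_t C (0) (e0) (e0 + e3) x) ≤ η :=
    (cu_tri m h.inv C _ _ _ _ _ (by ring) (by ring)).trans_le p03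
  have t25 : m.L (fun x => cu_t C (0) (e3) (e0 + e3) x) ≤ η :=
    (cu_tri m h.inv C _ _ _ _ _ (by ring) (by ring)).trans_le q03
  have t26 : m.L (fun x => cu_t C (e1) (e0 + e1) (e0 + e1 + e3) x) ≤ η :=
    (cu_tri m h.inv C _ _ _ _ _ (by ring) (by ring)).trans_le p03
  have t27 : m.L (fun x => cu_t C (e1) (e1 + e3) (e0 + e1 + e3) x) ≤ η :=
    (cu_tri m h.inv C _ _ _ _ _ (by ring) (by ring)).trans_le q03
  have t28 : m.L (fun x => cu_t C (e2) (e0 + e2) (e0 + e2 + e3) x) ≤ η :=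
    (cu_tri m h.inv C _ _ _ _ _ (by ring) (by ring)).trans_le p03
  have t29 : m.L (fun x => cu_t C (e2) (e2 + e3) (e0 + e2 + e3) x) ≤ η :=
    (cu_tri m h.inv C _ _ _ _ _ (by ring) (by ring)).trans_le q03
  have t30 : m.L (fun x => cu_t C (e1 + e2) (e0 + e1 + e2) (e0 + e1 + e2 + e3) x) ≤ η :=
    (cu_tri m h.inv C _ _ _ _ _ (by ring) (by ring)).trans_le p03
  have t31 : m.L (fun x => cu_t C (e1 + e2) (e1 + e2 + e3) (e0 + e1 + e2 + e3) x) ≤ η :=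
    (cu_tri m h.inv C _ _ _ _ _ (by ring) (by ring)).trans_le q03
  have v0 : m.L (fun x => cu_c C (x)) = ms m C :=
    cu_sh m h.inv (bd_ind C) (fun x => x) (0) (fun x => by ring)
  have v1 : m.L (fun x => cu_c C (x + e0)) = ms m C :=
    cu_sh m h.inv (bd_ind C) (fun x => x + e0) (e0) (fun x => by ring)
  have v2 : m.L (fun x => cu_c C (x + e1)) = ms m C :=
    cu_sh m h.inv (bd_ind C) (fun x => x + e1) (e1) (fun x => by ring)
  have v3 : m.L (fun x => cu_c C (x + e0 + e1)) = ms m C :=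
    cu_sh m h.inv (bd_ind C) (fun x => x + e0 + e1) (e0 + e1) (fun x => by ring)
  have v4 : m.L (fun x => cu_c C (x + e2)) = ms m C :=
    cu_sh m h.inv (bd_ind C) (fun x => x + e2) (e2) (fun x => by ring)
  have v5 : m.L (fun x => cu_c C (x + e0 + e2)) = ms m C :=
    cu_sh m h.inv (bd_ind C) (fun x => x + e0 + e2) (e0 + e2) (fun x => by ring)
  have v6 : m.L (fun x => cu_c C (x + e1 + e2)) = ms m C :=
    cu_sh m h.inv (bd_ind C) (fun x => x + e1 + e2) (e1 + e2) (fun x => by ring)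
  have v7 : m.L (fun x => cu_c C (x + e0 + e1 + e2)) = ms m C :=
    cu_sh m h.inv (bd_ind C) (fun x => x + e0 + e1 + e2) (e0 + e1 + e2) (fun x => by ring)
  have v8 : m.L (fun x => cu_c C (x + e3)) = ms m C :=
    cu_sh m h.inv (bd_ind C) (fun x => x + e3) (e3) (fun x => by ring)
  have v9 : m.L (fun x => cu_c C (x + e0 + e3)) = ms m C :=
    cu_sh m h.inv (bd_ind C) (fun x => x + e0 + e3) (e0 + e3) (fun x => by ring)
  have v10 : m.L (fun x => cu_c C (x + e1 + e3)) = ms m C :=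
    cu_sh m h.inv (bd_ind C) (fun x => x + e1 + e3) (e1 + e3) (fun x => by ring)
  have v11 : m.L (fun x => cu_c C (x + e0 + e1 + e3)) = ms m C :=
    cu_sh m h.inv (bd_ind C) (fun x => x + e0 + e1 + e3) (e0 + e1 + e3) (fun x => by ring)
  have v12 : m.L (fun x => cu_c C (x + e2 + e3)) = ms m C :=
    cu_sh m h.inv (bd_ind C) (fun x => x + e2 + e3) (e2 + e3) (fun x => by ring)
  have v13 : m.L (fun x => cu_c C (x + e0 + e2 + e3)) = ms m C :=
    cu_sh m h.inv (bd_ind C) (fun x => x + e0 + e2 + e3) (e0 + e2 + e3) (fun x => by ring)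
  have v14 : m.L (fun x => cu_c C (x + e1 + e2 + e3)) = ms m C :=
    cu_sh m h.inv (bd_ind C) (fun x => x + e1 + e2 + e3) (e1 + e2 + e3) (fun x => by ring)
  have v15 : m.L (fun x => cu_c C (x + e0 + e1 + e2 + e3)) = ms m C :=
    cu_sh m h.inv (bd_ind C) (fun x => x + e0 + e1 + e2 + e3) (e0 + e1 + e2 + e3) (fun x => by ring)
  have w0 : m.L (fun x => cu_F C cu_T0 e1 e2 e3 (x + e0)) = m.L (fun x => cu_F C cu_T0 e1 e2 e3 x) :=
    cu_sh m h.inv (cu_F_bd C _ _ _ _) (fun x => x + e0) e0 (fun x => rfl)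
  have w1 : m.L (fun x => cu_F C cu_T1 e0 e2 e3 (x + e1)) = m.L (fun x => cu_F C cu_T1 e0 e2 e3 x) :=
    cu_sh m h.inv (cu_F_bd C _ _ _ _) (fun x => x + e1) e1 (fun x => rfl)
  have w2 : m.L (fun x => cu_F C cu_T2 e0 e1 e3 (x + e2)) = m.L (fun x => cu_F C cu_T2 e0 e1 e3 x) :=
    cu_sh m h.inv (cu_F_bd C _ _ _ _) (fun x => x + e2) e2 (fun x => rfl)
  have w3 : m.L (fun x => cu_F C cu_T3 e0 e1 e2 (x + e3)) = m.L (fun x => cu_F C cu_T3 e0 e1 e2 x) :=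
    cu_sh m h.inv (cu_F_bd C _ _ _ _) (fun x => x + e3) e3 (fun x => rfl)
  have bc : ∀ g : ℤ → ℤ, Bd (fun x => cu_c C (g x)) := fun g => (bd_ind C).comp g
  have bF : ∀ (T : ℕ) (u v w : ℤ) (g : ℤ → ℤ), Bd (fun x => cu_F C T u v w (g x)) :=
    fun T u v w g => (cu_F_bd C T u v w).comp g
  have bF' : ∀ (T : ℕ) (u v w : ℤ), Bd (fun x => cu_F C T u v w x) := fun T u v w => cu_F_bd C T u v w
  have bt : ∀ r s t : ℤ, Bd (fun x => cu_t C r s t x) := fun r s t => bd_ind _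
  have key := L_mono m (f := fun x => 2 * (cu_c C (x) + cu_c C (x + e0) + cu_c C (x + e1) + cu_c C (x + e0 + e1) + cu_c C (x + e2) + cu_c C (x + e0 + e2) + cu_c C (x + e1 + e2) + cu_c C (x + e0 + e1 + e2) + cu_c C (x + e3) + cu_c C (x + e0 + e3) + cu_c C (x + e1 + e3) + cu_c C (x + e0 + e1 + e3) + cu_c C (x + e2 + e3) + cu_c C (x + e0 + e2 + e3) + cu_c C (x + e1 + e2 + e3) + cu_c C (x + e0 + e1 + e2 + e3)) +
      (cu_F C cu_T0 e1 e2 e3 (x + e0) +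
      cu_F C cu_T1 e0 e2 e3 (x + e1) +
      cu_F C cu_T2 e0 e1 e3 (x + e2) +
      cu_F C cu_T3 e0 e1 e2 (x + e3))) (g := fun x => 16 + (cu_F C cu_T0 e1 e2 e3 x + cu_F C cu_T1 e0 e2 e3 x + cu_F C cu_T2 e0 e1 e3 x + cu_F C cu_T3 e0 e1 e2 x) +
      24 * (cu_t C (e0) (0) (e1) x +
      cu_t C (e1) (e0 + e1) (e0) x +
      cu_t C (e0 + e2) (e2) (e1 + e2) x +
      cu_t C (e1 + e2) (e0 + e1 + e2) (e0 + e2) x +
      cu_t C (e0 + e3) (e3) (e1 + e3) x +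
      cu_t C (e1 + e3) (e0 + e1 + e3) (e0 + e3) x +
      cu_t C (e0 + e2 + e3) (e2 + e3) (e1 + e2 + e3) x +
      cu_t C (e1 + e2 + e3) (e0 + e1 + e2 + e3) (e0 + e2 + e3) x +
      cu_t C (e1) (0) (e2) x +
      cu_t C (e2) (e1 + e2) (e1) x +
      cu_t C (e0 + e1) (e0) (e0 + e2) x +
      cu_t C (e0 + e2) (e0 + e1 + e2) (e0 + e1) x +
      cu_t C (e1 + e3) (e3) (e2 + e3) x +
      cu_t C (e2 + e3) (e1 + e2 + e3) (e1 + e3) x +
      cu_t C (e0 + e1 + e3) (e0 + e3) (e0 + e2 + e3) x +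
      cu_t C (e0 + e2 + e3) (e0 + e1 + e2 + e3) (e0 + e1 + e3) x +
      cu_t C (e2) (0) (e3) x +
      cu_t C (e3) (e2 + e3) (e2) x +
      cu_t C (e0 + e2) (e0) (e0 + e3) x +
      cu_t C (e0 + e3) (e0 + e2 + e3) (e0 + e2) x +
      cu_t C (e1 + e2) (e1) (e1 + e3) x +
      cu_t C (e1 + e3) (e1 + e2 + e3) (e1 + e2) x +
      cu_t C (e0 + e1 + e2) (e0 + e1) (e0 + e1 + e3) x +
      cu_t C (e0 + e1 + e3) (e0 + e1 + e2 + e3) (e0 + e1 + e2) x +
      cu_t C (0) (e0) (e0 + e3) x +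
      cu_t C (0) (e3) (e0 + e3) x +
      cu_t C (e1) (e0 + e1) (e0 + e1 + e3) x +
      cu_t C (e1) (e1 + e3) (e0 + e1 + e3) x +
      cu_t C (e2) (e0 + e2) (e0 + e2 + e3) x +
      cu_t C (e2) (e2 + e3) (e0 + e2 + e3) x +
      cu_t C (e1 + e2) (e0 + e1 + e2) (e0 + e1 + e2 + e3) x +
      cu_t C (e1 + e2) (e1 + e2 + e3) (e0 + e1 + e2 + e3) x)) ?_ ?_ (fun x => cu_point C e0 e1 e2 e3 x)
  · simp only [cu_add, cu_mul, L_const] at key
    rw [v0, v1, v2, v3, v4, v5, v6, v7, v8, v9, v10, v11, v12, v13, v14, v15, w0, w1, w2, w3] at key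
    linarith
  · refine Bd.add ((Bd.const 2).mulR ?_) ?_
    · repeat' first | exact bc _ | refine Bd.add ?_ ?_
    · repeat' first | exact bF _ _ _ _ _ | refine Bd.add ?_ ?_
  · refine Bd.add (Bd.add (Bd.const 16) ?_) ((Bd.const 24).mulR ?_)
    · repeat' first | exact bF' _ _ _ _ | refine Bd.add ?_ ?_
    · repeat' first | exact bt _ _ _ | refine Bd.add ?_ ?_

end Pool.Agent.TA
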