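import Pool.Agent.Lib_helper47.TA.F.CLS

/-! # TA, block GAP -/

set_option autoImplicit false

namespace Pool.Agent.TA

open Pool.Agent.HOM
open scoped Pointwise

section PP
variable {m : Mn ℤ} {C : Set ℤ}

theorem cls_ms (h : Sym m C) (hk : K4N C) (η : ℝ) (hη : 0 < η) (X : Set ℤ)
    (hX : Cls m C η X) : ms m X = ms m C / 2 := by
  have h1 : ms m (C \ Typ m C η) = 0 := typ_null h hk η hη m h.inv
  have hsub : Typ m C η ⊆ C := fun v hv => hv.1
  have h2 : ms m C = ms m (Typ m C η) := by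
    refine ms_congr_null m h1 ?_
    have : Typ m C η \ C = ∅ := by
      ext x
      simp only [Set.mem_sdiff, Set.mem_empty_iff_false, iff_false, not_and, not_not]
      exact fun hx => hsub hx
    rw [this, ms_empty]
  have h3 : Typ m C η = X ∪ {p | -p ∈ X} := by
    ext p
    constructor
    · exact fun hp => hX.cov p hp
    · rintro (hp | hp)
      · exact hX.sub hp
      · exact (typ_neg h η p).1 (hX.sub hp)
  have h4 : ms m (X ∪ {p | -p ∈ X}) = ms m X + ms m {p | -p ∈ X} :=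
    ms_disj m fun x hx => hX.dis x hx
  have h5 : ms m {p | -p ∈ X} = ms m X := ms_neg m h.evn X
  rw [h2, h3, h4, h5]
  ring

/-- (X2) -/
theorem gap_x2 (h : Sym m C) (η : ℝ) (hη : 0 < η) (X : Set ℤ)
    (hX : Cls m C η X) (p : ℤ) (hp : p ∈ X) : ms m {y | y + p ∈ X ∧ y ∈ C} ≤ η := by
  have h1 : ms m {y | y + p ∈ X ∧ y ∈ C} = ms m {u | u ∈ X ∧ u - p ∈ C} := by
    rw [← ms_shift m h.inv {u | u ∈ X ∧ u - p ∈ C} p]
    congr 1
    ext y
    show y + p ∈ X ∧ y ∈ C ↔ y + p ∈ X ∧ y + p - p ∈ C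
    rw [add_sub_cancel_right]
  rw [h1]
  refine (ms_mono m ?_).trans (typ_mark η hη p (hX.sub hp))
  rintro u ⟨hu, hu'⟩
  refine ⟨(hX.sub hu).1, hu', ?_⟩
  have := hX.high u hu p hp
  linarith

theorem cls_gap (h : Sym m C) (hk : K4N C) (η : ℝ) (hη : 0 < η) (X : Set ℤ)
    (hX : Cls m C η X) (p p' : ℤ) (hp : p ∈ X) (hp' : p' ∈ X) :
    2 * ms m C - 1 - 2 * η ≤ phi m X (p - p') := by
  have h0 := cls_ms h hk η hη X hX
  have h1 : phi m X (p - p') = ms m ({y | y + p ∈ X} ∩ {y | y + p' ∈ X}) := by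
    unfold phi
    rw [← ms_shift m h.inv {x | x ∈ X ∧ x + (p - p') ∈ X} p']
    congr 1
    ext y
    show y + p' ∈ X ∧ y + p' + (p - p') ∈ X ↔ y + p ∈ X ∧ y + p' ∈ X
    have : y + p' + (p - p') = y + p := by ring
    rw [this]
    exact and_comm
  have h2 := ms_union_add_inter m {y | y + p ∈ X} {y | y + p' ∈ X}
  have h3 : ms m {y | y + p ∈ X} = ms m X := ms_shift m h.inv X p
  have h4 : ms m {y | y + p' ∈ X} = ms m X := ms_shift m h.inv X p'
  have h5 := gap_x2 h η hη X hX p hp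
  have h6 := gap_x2 h η hη X hX p' hp'
  have h7 : ms m ({y | y + p ∈ X} ∪ {y | y + p' ∈ X}) ≤ (1 - ms m C) + (η + η) := by
    calc ms m ({y | y + p ∈ X} ∪ {y | y + p' ∈ X}) ≤
        ms m (Cᶜ ∪ ({y | y + p ∈ X ∧ y ∈ C} ∪ {y | y + p' ∈ X ∧ y ∈ C})) := by
          refine ms_mono m fun y hy => ?_
          by_cases hC : y ∈ C
          · right
            rcases hy with hy | hy
            · exact Or.inl ⟨hy, hC⟩
            · exact Or.inr ⟨hy, hC⟩
          · exact Or.inl hC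
      _ ≤ ms m Cᶜ + (ms m {y | y + p ∈ X ∧ y ∈ C} + ms m {y | y + p' ∈ X ∧ y ∈ C}) :=
          (ms_union_le m _ _).trans (add_le_add le_rfl (ms_union_le m _ _))
      _ ≤ (1 - ms m C) + (η + η) := by
          rw [ms_compl]
          linarith
  rw [h1]
  linarith

theorem cls_typ (h : Sym m C) (η : ℝ) (hη : 0 < η) (X : Set ℤ) (hX : Cls m C η X) (t : ℤ)
    (ht : t ∈ Typ m C η) : phi m X t ≤ η := by
  have h1 : phi m X t = ms m {u | u - t ∈ X ∧ u ∈ X} := by
    unfold phi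
    rw [← ms_shift_sub m h.inv {x | x ∈ X ∧ x + t ∈ X} t]
    congr 1
    ext y
    show y - t ∈ X ∧ y - t + t ∈ X ↔ y - t ∈ X ∧ y ∈ X
    rw [sub_add_cancel]
  rw [h1]
  refine (ms_mono m ?_).trans (typ_mark η hη t ht)
  rintro u ⟨hs, hu⟩
  refine ⟨(hX.sub hu).1, (hX.sub hs).1, ?_⟩
  have h2 := hX.high u hu (u - t) hs
  have h3 : P m C (-(u - t)) u = P m C u (-t) := P_cyc h _ _ _ (by ring)
  have h4 : P m C (-(u - t)) u = P m C u (-(u - t)) := P_comm h _ _
  rw [← h3, h4]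
  linarith

end PP

end Pool.Agent.TA

example : type_of% @Pool.Agent.TA.cls_ms := @Pool.Agent.TA.cls_ms
example : type_of% @Pool.Agent.TA.cls_gap := @Pool.Agent.TA.cls_gap
example : type_of% @Pool.Agent.TA.cls_typ := @Pool.Agent.TA.cls_typ
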