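import Pool.Agent.Lib_helper47.TA.F.GAP
import Pool.Agent.Lib_helper70.BS.HER

/-! Block HPD of the project TA (MP_49610d_nt): the theorem of Herglotz for positive definite
functions. -/

set_option autoImplicit false

namespace Pool.Agent.TA

open MeasureTheory Filter Topology

theorem herglotz_pd (γ : ℕ → ℝ) (hpos : ∀ (n : ℕ) (c : ℕ → ℝ),
    0 ≤ ∑ s ∈ Finset.range n, ∑ s' ∈ Finset.range n, c s * c s' * γ ((s : ℤ) - s').natAbs) :
    ∃ μ : MeasureTheory.Measure Circle, MeasureTheory.IsFiniteMeasure μ ∧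
      ∀ t : ℕ, γ t = ∫ z : Circle, ((z : ℂ) ^ t).re ∂μ := by
  have hcont : ∀ t : ℕ, Continuous (fun z : Circle => ((z : ℂ) ^ t).re) := fun t =>
    Complex.continuous_re.comp (continuous_subtype_val.pow t)
  have hval : ∀ (n t : ℕ), 0 < n → t ≤ n →
      ∫ z, ((z : ℂ) ^ t).re ∂(BS.her_mu γ n) = (1 - t / n : ℝ) * γ t := by
    intro n t hn ht
    rw [BS.her_int γ n (hpos n) _ (hcont t), ← BS.her_sum γ n (3 * n) t hn rfl ht]
    refine Finset.sum_congr rfl fun r _ => ?_
    rw [BS.her_z_pow]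
  let μs : ℕ → FiniteMeasure Circle := fun n => ⟨BS.her_mu γ n, BS.her_fin γ n⟩
  set C : NNReal := (γ 0).toNNReal with hC
  have hmass : ∀ n, 0 < n → (μs n).mass ≤ C := by
    intro n hn
    have h1 := hval n 0 hn (Nat.zero_le _)
    simp only [pow_zero, Complex.one_re, integral_const, smul_eq_mul, mul_one, Nat.cast_zero,
      zero_div, sub_zero, one_mul] at h1
    rw [hC, ← h1]
    apply le_of_eq
    rw [FiniteMeasure.mass, FiniteMeasure.mk_apply, measureReal_def]
    exact (Real.toNNReal_coe).symm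
  have hK := isCompact_setOfPred_finiteMeasure_le_of_compactSpace Circle C
  rw [isCompact_iff_ultrafilter_le_nhds] at hK
  obtain ⟨μ, -, hμ⟩ := hK ((hyperfilter ℕ).map μs) (by
    rw [le_principal_iff]
    have h1 : ∀ᶠ n in (hyperfilter ℕ : Filter ℕ), 0 < n :=
      (Nat.hyperfilter_le_atTop) (eventually_gt_atTop 0)
    exact h1.mono fun n hn => hmass n hn)
  have hμ' : Tendsto μs (hyperfilter ℕ) (𝓝 μ) := hμ
  refine ⟨μ, inferInstance, fun t => ?_⟩
  have h1 := (FiniteMeasure.tendsto_iff_forall_integral_tendsto.1 hμ')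
    (BoundedContinuousFunction.mkOfCompact ⟨_, hcont t⟩)
  have h2 : Tendsto (fun n => ∫ z, ((z : ℂ) ^ t).re ∂(BS.her_mu γ n)) (hyperfilter ℕ)
      (𝓝 (∫ z, ((z : ℂ) ^ t).re ∂(μ : Measure Circle))) := h1
  have h3 : Tendsto (fun n : ℕ => (1 - t / n : ℝ) * γ t) (hyperfilter ℕ) (𝓝 (γ t)) := by
    have h4 : Tendsto (fun n : ℕ => (1 - t / n : ℝ) * γ t) atTop (𝓝 ((1 - 0) * γ t)) :=
      (tendsto_const_nhds.sub (tendsto_const_div_atTop_nhds_zero_nat (t : ℝ))).mul_const _
    rw [sub_zero, one_mul] at h4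
    exact h4.mono_left Nat.hyperfilter_le_atTop
  refine tendsto_nhds_unique h3 (h2.congr' ?_)
  have h5 : ∀ᶠ n in (hyperfilter ℕ : Filter ℕ), t < n :=
    (Nat.hyperfilter_le_atTop) (eventually_gt_atTop t)
  exact h5.mono fun n hn => hval n t (by omega) hn.le

example : type_of% @herglotz_pd := @herglotz_pd

end Pool.Agent.TA
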