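import Pool.Agent.Lib_helper47.TA.F.MMN

/-! Block K4A: admissibility of four classes. -/

set_option autoImplicit false

namespace Pool.Agent.TA

open Pool.Agent.HOM
open scoped Pointwise

theorem k4a_large (p n : ℕ) (U : Finset ℕ) (hU : U.card ≤ n) (hp : n < p) :
    ∃ r : ℕ, ∀ h ∈ U, ¬ h ≡ r [MOD p] := by
  by_contra hcon
  push Not at hcon
  choose f hf hfm using hcon
  have h1 : (Finset.range p).card ≤ U.card := by
    refine Finset.card_le_card_of_injOn (fun r => f r) (fun r _ => hf r) ?_
    intro a ha b hb hab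
    rw [Finset.mem_coe, Finset.mem_range] at ha hb
    have h2 : a ≡ b [MOD p] := by
      have h3 := hfm a
      have h4 := hfm b
      simp only at hab
      rw [hab] at h3
      exact h3.symm.trans h4
    exact Nat.ModEq.eq_of_lt_of_lt h2 ha hb
  rw [Finset.card_range] at h1
  omega

theorem adm_of_classes (k : ℕ) (H : Fin 4 → Finset ℕ) (hc : ∀ i, (H i).card = k)
    (h6 : ∀ i, ∀ u ∈ H i, 6 ∣ u)
    (hcl : ∀ i, ∀ u ∈ H i, ∀ v ∈ H i, u ≡ v [MOD (4 * k).factorial]) :
    Pool.Agent.Lib_helper23.PG.Admissible (Finset.univ.biUnion H) := by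
  classical
  intro p hp
  by_cases hp6 : p ∣ 6
  · refine ⟨1, fun u hu h => ?_⟩
    obtain ⟨i, -, hui⟩ := Finset.mem_biUnion.1 hu
    have h1 : p ∣ u := hp6.trans (h6 i u hui)
    have h2 : u ≡ 0 [MOD p] := (Nat.modEq_zero_iff_dvd).2 h1
    have h3 : (0 : ℕ) ≡ 1 [MOD p] := h2.symm.trans h
    have h4 := (Nat.modEq_iff_dvd' (Nat.zero_le 1)).1 h3
    rw [Nat.sub_zero, Nat.dvd_one] at h4
    exact hp.one_lt.ne' h4
  · by_cases hpk : p ≤ 4 * k
    · have h5 : 5 ≤ p := by
        by_contra hlt
        have h2 := hp.two_le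
        have h4 : p = 2 ∨ p = 3 ∨ p = 4 := by omega
        rcases h4 with rfl | rfl | rfl
        · exact hp6 (by norm_num)
        · exact hp6 (by norm_num)
        · exact absurd hp (by norm_num)
      have hk : ∀ i, (H i).Nonempty := fun i => by
        rw [← Finset.card_pos, hc i]
        omega
      choose f hf using hk
      obtain ⟨r, hr, hrn⟩ : ∃ r ∈ Finset.range p, r ∉ (Finset.univ.image fun i => f i % p) := by
        apply Finset.exists_mem_notMem_of_card_lt_card
        refine lt_of_le_of_lt Finset.card_image_le ?_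
        rw [Finset.card_univ, Fintype.card_fin, Finset.card_range]
        omega
      refine ⟨r, fun u hu h => hrn ?_⟩
      obtain ⟨i, -, hui⟩ := Finset.mem_biUnion.1 hu
      refine Finset.mem_image.2 ⟨i, Finset.mem_univ _, ?_⟩
      have h1 : f i ≡ u [MOD p] := (hcl i _ (hf i) u hui).of_dvd ((hp.dvd_factorial).2 hpk)
      have h2 : f i % p = r % p := h1.trans h
      rw [h2, Nat.mod_eq_of_lt (Finset.mem_range.1 hr)]
    · refine k4a_large p (4 * k) _ ?_ (not_le.1 hpk)
      refine Finset.card_biUnion_le.trans ?_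
      rw [Finset.sum_congr rfl fun i _ => hc i]
      simp

example : type_of% @adm_of_classes := @adm_of_classes

end Pool.Agent.TA
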