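import Pool.Agent.Lib_helper47.TA.F.K4B

/-! Block K4C: the set of the multiples of `q` that are no gaps has no `K_4`. -/

set_option autoImplicit false

namespace Pool.Agent.TA

open Pool.Agent.HOM
open scoped Pointwise

theorem k4c_CI (D : Set ℕ) (v : ℤ) : 0 ≤ CI D v ∧ CI D v ≤ 1 := by
  unfold CI
  split_ifs <;> norm_num

theorem k4c_prod {a b : ℝ} (ha : 0 ≤ a ∧ a ≤ 1) (hb : 0 ≤ b ∧ b ≤ 1) : 0 ≤ a * b ∧ a * b ≤ 1 :=
  ⟨mul_nonneg ha.1 hb.1, mul_le_one₀ ha.2 hb.1 hb.2⟩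

theorem k4c_L {X : Type*} (m : Mn X) {f : X → ℝ} (hf : ∀ x, 0 ≤ f x ∧ f x ≤ 1) :
    0 ≤ m.L f ∧ m.L f ≤ 1 :=
  ⟨le_L m 0 (Bd.of_mem_Icc hf) fun x => (hf x).1, L_le m 1 (Bd.of_mem_Icc hf) fun x => (hf x).2⟩

/-- The indicator of the set is the function `CI D`. -/
theorem k4c_mem (D : Set ℕ) (q : ℕ) (hq : 0 < q) (n : ℤ) :
    (n ∈ {n : ℤ | n ≠ 0 ∧ ((q : ℤ) * n).natAbs ∉ D} → CI D ((q : ℤ) * n) = 1) ∧
      (n ∉ {n : ℤ | n ≠ 0 ∧ ((q : ℤ) * n).natAbs ∉ D} → CI D ((q : ℤ) * n) = 0) := by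
  have hq' : (q : ℤ) ≠ 0 := by exact_mod_cast hq.ne'
  constructor
  · intro h
    unfold CI
    rw [if_pos ⟨mul_ne_zero hq' h.1, h.2⟩]
  · intro h
    unfold CI
    rw [if_neg]
    intro h1
    exact h ⟨fun h2 => h1.1 (by rw [h2, mul_zero]), h1.2⟩

/-- The nested mean of the definition of `K4N`, with the functions `CI D`. -/
theorem k4c_eq (D : Set ℕ) (q : ℕ) (hq : 0 < q) (m₁ m₂ m₃ : Mn ℤ) (C : Set ℤ)
    (hC : C = {n : ℤ | n ≠ 0 ∧ ((q : ℤ) * n).natAbs ∉ D}) :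
    m₃.L (C.indicator fun v => m₂.L ({u | u ∈ C ∧ u - v ∈ C}.indicator fun u =>
      ms m₁ {x | x ∈ C ∧ x - u ∈ C ∧ x - v ∈ C})) =
    m₃.L (fun v => CI D (0 + (q : ℤ) * v) * m₂.L (fun u => CI D (0 + (q : ℤ) * u) *
      CI D (0 + (q : ℤ) * u - (0 + (q : ℤ) * v)) * m₁.L (fun x => CI D (0 + (q : ℤ) * x) *
        CI D (0 + (q : ℤ) * x - (0 + (q : ℤ) * u)) *
        CI D (0 + (q : ℤ) * x - (0 + (q : ℤ) * v))))) := by
  have h1 : ∀ n, n ∈ C → CI D ((q : ℤ) * n) = 1 := fun n hn =>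
    (k4c_mem D q hq n).1 (hC ▸ hn)
  have h0 : ∀ n, n ∉ C → CI D ((q : ℤ) * n) = 0 := fun n hn =>
    (k4c_mem D q hq n).2 (hC ▸ hn)
  simp only [zero_add, ← mul_sub]
  congr 1
  funext v
  by_cases hv : v ∈ C
  · rw [Set.indicator_of_mem hv, h1 v hv, one_mul]
    congr 1
    funext u
    by_cases hu : u ∈ {u | u ∈ C ∧ u - v ∈ C}
    · rw [Set.indicator_of_mem hu, h1 u hu.1, h1 _ hu.2, one_mul, one_mul]
      unfold ms
      congr 1
      funext x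
      by_cases hx : x ∈ {x | x ∈ C ∧ x - u ∈ C ∧ x - v ∈ C}
      · rw [Set.indicator_of_mem hx, h1 x hx.1, h1 _ hx.2.1, h1 _ hx.2.2, one_mul, one_mul]
      · rw [Set.indicator_of_notMem hx]
        by_cases h2 : x ∈ C
        · by_cases h3 : x - u ∈ C
          · have h4 : x - v ∉ C := fun h4 => hx ⟨h2, h3, h4⟩
            rw [h0 _ h4, mul_zero]
          · rw [h0 _ h3, mul_zero, zero_mul]
        · rw [h0 _ h2, zero_mul, zero_mul]
    · rw [Set.indicator_of_notMem hu]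
      by_cases h2 : u ∈ C
      · have h3 : u - v ∉ C := fun h3 => hu ⟨h2, h3⟩
        rw [h0 _ h3, mul_zero, zero_mul]
      · rw [h0 _ h2, zero_mul, zero_mul]
  · rw [Set.indicator_of_notMem hv, h0 v hv, zero_mul]

/-- Translation of four bins into the natural numbers. -/
theorem k4c_bins (D : Set ℕ) (k : ℕ) (hD : Pool.Agent.Lib_helper23.PG.HitsBins 4 k D)
    (B : Fin 4 → Finset ℤ) (hBc : ∀ i, (B i).card = k) (hB6 : ∀ i, ∀ b ∈ B i, (6 : ℤ) ∣ b)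
    (hBW : ∀ i, ∀ b ∈ B i, ∀ b' ∈ B i, ((4 * k).factorial : ℤ) ∣ b - b')
    (hBd : ∀ i j, i < j → ∀ b ∈ B i, ∀ b' ∈ B j, b ≠ b' ∧ (b - b').natAbs ∉ D) : False := by
  classical
  obtain ⟨S, hS⟩ : ∃ S : ℕ, S = ∑ i, ∑ b ∈ B i, b.natAbs := ⟨_, rfl⟩
  have hSb : ∀ i, ∀ b ∈ B i, b.natAbs ≤ S := by
    intro i b hb
    rw [hS]
    refine (Finset.single_le_sum (f := fun b : ℤ => b.natAbs) (fun _ _ => Nat.zero_le _) hb).trans ?_
    exact Finset.single_le_sum (f := fun i => ∑ b ∈ B i, b.natAbs) (fun _ _ => Nat.zero_le _)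
      (Finset.mem_univ i)
  obtain ⟨t, ht⟩ : ∃ t : ℤ, t = 6 * (S : ℤ) := ⟨_, rfl⟩
  have hnn : ∀ i, ∀ b ∈ B i, 0 ≤ b + t := by
    intro i b hb
    have h1 := hSb i b hb
    omega
  have hcast : ∀ i, ∀ b ∈ B i, (((b + t).toNat : ℕ) : ℤ) = b + t :=
    fun i b hb => Int.toNat_of_nonneg (hnn i b hb)
  obtain ⟨H, hH⟩ : ∃ H : Fin 4 → Finset ℕ, H = fun i => (B i).image fun b => (b + t).toNat :=
    ⟨_, rfl⟩
  have hHc : ∀ i, (H i).card = k := by
    intro i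
    rw [hH]
    simp only
    rw [Finset.card_image_of_injOn, hBc i]
    intro b hb b' hb' h
    have h1 := hcast i b hb
    have h2 := hcast i b' hb'
    simp only at h
    rw [h] at h1
    linarith
  have hdis : ∀ i j, i < j → ∀ a ∈ H i, ∀ c ∈ H j, a ≠ c ∧ ((a : ℤ) - c).natAbs ∉ D := by
    intro i j hij a ha c hc
    rw [hH] at ha hc
    obtain ⟨b, hb, rfl⟩ := Finset.mem_image.1 ha
    obtain ⟨b', hb', rfl⟩ := Finset.mem_image.1 hc
    have h1 := hBd i j hij b hb b' hb'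
    have h2 := hcast i b hb
    have h3 := hcast j b' hb'
    refine ⟨fun h => h1.1 ?_, ?_⟩
    · rw [h] at h2
      linarith
    · rw [h2, h3, show b + t - (b' + t) = b - b' by ring]
      exact h1.2
  obtain ⟨i, j, hij, a, ha, b, hb, hab, hDab⟩ := hD H hHc
    (fun i j hij => by
      rw [Finset.disjoint_left]
      intro a ha hb
      rcases lt_or_gt_of_ne hij with h1 | h1
      · exact (hdis i j h1 a ha a hb).1 rfl
      · exact (hdis j i h1 a hb a ha).1 rfl)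
    (by
      refine adm_of_classes k H hHc ?_ ?_
      · intro i u hu
        rw [hH] at hu
        obtain ⟨b, hb, rfl⟩ := Finset.mem_image.1 hu
        have h1 : (6 : ℤ) ∣ (((b + t).toNat : ℕ) : ℤ) := by
          rw [hcast i b hb, ht]
          exact dvd_add (hB6 i b hb) (dvd_mul_right _ _)
        exact_mod_cast h1
      · intro i u hu v hv
        rw [hH] at hu hv
        obtain ⟨b, hb, rfl⟩ := Finset.mem_image.1 hu
        obtain ⟨b', hb', rfl⟩ := Finset.mem_image.1 hv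
        have h1 : ((4 * k).factorial : ℤ) ∣
            (((b' + t).toNat : ℕ) : ℤ) - (((b + t).toNat : ℕ) : ℤ) := by
          rw [hcast i b hb, hcast i b' hb', show b' + t - (b + t) = b' - b by ring]
          exact hBW i b' hb' b hb
        exact (Nat.modEq_iff_dvd).2 h1)
  have h2 : ((b : ℤ) - a).natAbs = b - a := by
    have h1 : (b : ℤ) - a = ((b - a : ℕ) : ℤ) := by
      rw [Nat.cast_sub hab.le]
    rw [h1, Int.natAbs_natCast]
  rcases lt_or_gt_of_ne hij with h3 | h3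
  · refine (hdis i j h3 a ha b hb).2 ?_
    rw [← Int.natAbs_neg, neg_sub, h2]
    exact hDab
  · refine (hdis j i h3 b hb a ha).2 ?_
    rw [h2]
    exact hDab

theorem k4n_of_bins (D : Set ℕ) (k : ℕ) (hD : Pool.Agent.Lib_helper23.PG.HitsBins 4 k D) (q : ℕ)
    (hq : 0 < q) (h6 : 6 ∣ q) : K4N {n : ℤ | n ≠ 0 ∧ ((q : ℤ) * n).natAbs ∉ D} := by
  classical
  intro m₁ m₂ m₃ i₁ i₂ i₃
  by_contra hne
  rw [k4c_eq D q hq m₁ m₂ m₃ _ rfl] at hne
  have hpos : 0 < m₃.L (fun v => CI D (0 + (q : ℤ) * v) * m₂.L (fun u => CI D (0 + (q : ℤ) * u) *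
      CI D (0 + (q : ℤ) * u - (0 + (q : ℤ) * v)) * m₁.L (fun x => CI D (0 + (q : ℤ) * x) *
        CI D (0 + (q : ℤ) * x - (0 + (q : ℤ) * u)) *
        CI D (0 + (q : ℤ) * x - (0 + (q : ℤ) * v))))) := by
    refine lt_of_le_of_ne ?_ (Ne.symm hne)
    exact (k4c_L m₃ fun v => k4c_prod (k4c_CI D _) (k4c_L m₂ fun u => k4c_prod (k4c_prod
      (k4c_CI D _) (k4c_CI D _)) (k4c_L m₁ fun x => k4c_prod (k4c_prod (k4c_CI D _) (k4c_CI D _))
        (k4c_CI D _)))).1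
  have hW0 : 0 < (4 * k).factorial := Nat.factorial_pos _
  have hq' : (0 : ℤ) < (q : ℤ) := by exact_mod_cast hq
  have h6' : (6 : ℤ) ∣ (q : ℤ) := by exact_mod_cast h6
  obtain ⟨B, hBc, hBK, hBd⟩ := blowup D (k * (4 * k).factorial) (6 : ℤ) (by norm_num)
    0 0 0 (q : ℤ) (q : ℤ) (q : ℤ) hq' hq' hq' (dvd_zero _) (dvd_zero _) (dvd_zero _) h6' h6' h6'
    m₁ m₂ m₃ i₁ i₂ i₃ hpos
  choose B' hB' hc' hW' using fun i => bins_in_class k (4 * k).factorial hW0 (B i) (hBc i)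
  exact k4c_bins D k hD B' hc' (fun i b hb => hBK i b (hB' i hb)) hW'
    (fun i j hij b hb b' hb' => hBd i j hij b (hB' i hb) b' (hB' j hb'))

example : type_of% @k4n_of_bins := @k4n_of_bins

end Pool.Agent.TA
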