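import Pool.Agent.Lib_helper47.TA.F.PER

set_option autoImplicit false

open Finset Pointwise

universe u

namespace Pool.Agent.TA

section atom

variable {G : Type*} [AddCommGroup G] [Fintype G] [DecidableEq G]

omit [Fintype G] in
theorem kn1_card_le (A X : Finset G) (hX : X.Nonempty) : #A ≤ #(A - X) := by
  obtain ⟨x, hx⟩ := hX
  calc #A = #(A.image (· - x)) := (card_image_of_injective _ (sub_left_injective)).symm
    _ ≤ #(A - X) := card_le_card (by
      intro y hy
      obtain ⟨a, ha, rfl⟩ := mem_image.mp hy
      exact sub_mem_sub ha hx)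

/-- the atoms are cosets of a subgroup -/
theorem kn1_atom (X : Finset G) (hX : X.Nonempty) (hne : X - X ≠ univ) :
    ∃ H : AddSubgroup G, ∃ HF : Finset G, (∀ g, g ∈ HF ↔ g ∈ H) ∧ X + HF ≠ univ ∧
      #(X + HF) + #X ≤ #(X - X) + #HF := by
  classical
  set n := Fintype.card G with hn
  -- the family and the minimiser
  let F : Finset (Finset G) := (univ : Finset (Finset G)).filter fun A => A.Nonempty ∧ A - X ≠ univ
  have hXF : X ∈ F := by simp [F, hX, hne]
  let f : Finset G → ℤ := fun A => ((#(A - X) : ℤ) - #A) * (n + 1) + #A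
  obtain ⟨A, hAF, hAmin⟩ := exists_min_image F f ⟨X, hXF⟩
  have hA : A.Nonempty ∧ A - X ≠ univ := by simpa [F] using hAF
  -- consequences of minimality
  have hcardle : ∀ B : Finset G, (#B : ℤ) ≤ n := fun B => by
    rw [hn]; exact_mod_cast card_le_univ B
  have hκ : ∀ B : Finset G, B.Nonempty → B - X ≠ univ →
      (#(A - X) : ℤ) - #A ≤ #(B - X) - #B := by
    intro B hB hB'
    have h := hAmin B (by simp [F, hB, hB'])
    by_contra hlt
    push Not at hlt
    have h1 : (#(B - X) : ℤ) - #B + 1 ≤ #(A - X) - #A := by linarith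
    have h2 : (((#(B - X) : ℤ) - #B) + 1) * (n + 1) ≤ (#(A - X) - #A) * (n + 1) :=
      mul_le_mul_of_nonneg_right h1 (by positivity)
    have h3 := hcardle B
    have h4 : (0 : ℤ) ≤ #A := by positivity
    simp only [f] at h
    nlinarith
  have hcard : ∀ B : Finset G, B.Nonempty → B - X ≠ univ →
      (#(B - X) : ℤ) - #B = #(A - X) - #A → #A ≤ #B := by
    intro B hB hB' heq
    have h := hAmin B (by simp [F, hB, hB'])
    simp only [f, heq] at h
    have : (#A : ℤ) ≤ #B := by linarith
    exact_mod_cast this
  -- duality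
  have hdual : (2 : ℤ) * #A + (#(A - X) - #A) ≤ n := by
    set A' : Finset G := -(univ \ (A - X)) with hA'
    have hne' : (univ \ (A - X)).Nonempty := by
      rw [sdiff_nonempty]
      intro h
      exact hA.2 (eq_univ_of_forall fun x => h (mem_univ x))
    have h1 : A'.Nonempty := hne'.neg
    have hdisj : Disjoint (A' - X) (-A) := by
      rw [disjoint_left]
      rintro y hy hyA
      obtain ⟨a, ha, x, hx, rfl⟩ := mem_sub.mp hy
      rw [hA', mem_neg'] at ha
      rw [mem_neg'] at hyA
      have h2 := (mem_sdiff.mp ha).2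
      apply h2
      have : -a = -(a - x) - x := by abel
      rw [this]
      exact sub_mem_sub hyA hx
    have hcA' : (#A' : ℤ) = n - #(A - X) := by
      rw [hA', card_neg, card_univ_sdiff, ← hn]
      push_cast [Nat.cast_sub (show #(A - X) ≤ n by rw [hn]; exact card_le_univ _)]
      ring
    have h3 : #(A' - X) + #A ≤ n := by
      rw [← card_neg A, ← card_union_of_disjoint hdisj, hn]
      exact card_le_univ _
    have h4 : A' - X ≠ univ := by
      intro h
      rw [h, card_univ, ← hn] at h3
      have := hA.1.card_pos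
      omega
    have h5 := hκ A' h1 h4
    have h6 : (#(A' - X) : ℤ) + #A ≤ n := by exact_mod_cast h3
    have h7 : (#(A' - X) : ℤ) - #A' = #(A - X) - #A := by linarith
    have h8 := hcard A' h1 h4 h7
    have h9 : (#A : ℤ) ≤ #A' := by exact_mod_cast h8
    linarith
  -- translations
  have htr : ∀ t ∈ A - A, t +ᵥ A = A := by
    intro t ht
    obtain ⟨a, ha, b, hb, rfl⟩ := mem_sub.mp ht
    set t := a - b with htdef
    set I := A ∩ (t +ᵥ A) with hI
    set V := A ∪ (t +ᵥ A) with hV
    have hIne : I.Nonempty := ⟨a, mem_inter.mpr ⟨ha, by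
      rw [mem_vadd_finset]
      exact ⟨b, hb, by simp [htdef]⟩⟩⟩
    have hIA : I ⊆ A := inter_subset_left
    have hIX : I - X ≠ univ := fun h => hA.2 (by
      apply eq_univ_of_forall
      intro x
      exact sub_subset_sub_right hIA (by rw [h]; exact mem_univ x))
    have hshift : #((t +ᵥ A) - X) = #(A - X) := by
      have : (t +ᵥ A) - X = t +ᵥ (A - X) := by
        ext y
        simp only [mem_sub, mem_vadd_finset, vadd_eq_add]
        constructor
        · rintro ⟨_, ⟨c, hc, rfl⟩, x, hx, rfl⟩
          exact ⟨c - x, ⟨c, hc, x, hx, rfl⟩, by abel⟩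
        · rintro ⟨_, ⟨c, hc, x, hx, rfl⟩, rfl⟩
          exact ⟨t + c, ⟨c, hc, rfl⟩, x, hx, by abel⟩
      rw [this, card_vadd_finset]
    have hsub : #(I - X) + #(V - X) ≤ 2 * #(A - X) := by
      have h1 : I - X ⊆ (A - X) ∩ ((t +ᵥ A) - X) :=
        subset_inter (sub_subset_sub_right inter_subset_left)
          (sub_subset_sub_right inter_subset_right)
      have h2 : V - X = (A - X) ∪ ((t +ᵥ A) - X) := union_sub
      have h3 := card_le_card h1
      have h4 := card_union_add_card_inter (A - X) ((t +ᵥ A) - X)
      rw [h2]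
      omega
    have hcardIV : #I + #V = 2 * #A := by
      have h1 : #V + #I = #A + #(t +ᵥ A) := card_union_add_card_inter A (t +ᵥ A)
      rw [card_vadd_finset] at h1
      omega
    have hIκ := hκ I hIne hIX
    have hle : #A ≤ #I := by
      by_cases hVX : V - X = univ
      · exfalso
        rw [hVX, card_univ, ← hn] at hsub
        have h1 : (#(I - X) : ℤ) + n ≤ 2 * #(A - X) := by exact_mod_cast hsub
        have h2 : (1 : ℤ) ≤ #I := by exact_mod_cast hIne.card_pos
        linarith
      · have hVκ := hκ V (hA.1.mono subset_union_left) hVX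
        apply hcard I hIne hIX
        have h1 : (#(I - X) : ℤ) + #(V - X) ≤ 2 * #(A - X) := by exact_mod_cast hsub
        have h2 : (#I : ℤ) + #V = 2 * #A := by exact_mod_cast hcardIV
        linarith
    have hIeq : I = A := eq_of_subset_of_card_le hIA hle
    have h5 : A ⊆ t +ᵥ A := by
      rw [← hIeq]
      intro x hx
      have h6 := (mem_inter.mp hx).2
      rwa [hIeq]
    exact (eq_of_subset_of_card_le h5 (by rw [card_vadd_finset])).symm
  -- the subgroup
  obtain ⟨a0, ha0⟩ := hA.1
  have hAH : ∀ g, g ∈ AddAction.stabilizer G A ↔ a0 + g ∈ A := by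
    intro g
    rw [AddAction.mem_stabilizer_iff]
    constructor
    · intro h
      rw [← h, mem_vadd_finset]
      exact ⟨a0, ha0, by rw [vadd_eq_add, add_comm]⟩
    · intro h
      exact htr g (mem_sub.mpr ⟨a0 + g, h, a0, ha0, by abel⟩)
  set HF : Finset G := -a0 +ᵥ A with hHF
  have hmem : ∀ g, g ∈ HF ↔ g ∈ AddAction.stabilizer G A := by
    intro g
    rw [hAH, hHF, mem_vadd_finset]
    constructor
    · rintro ⟨c, hc, rfl⟩
      simpa using hc
    · intro h
      exact ⟨a0 + g, h, by simp⟩
  have hHFA : A = a0 +ᵥ HF := by rw [hHF, vadd_neg_vadd]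
  have hneg : ∀ g, g ∈ HF → -g ∈ HF := by
    intro g hg
    rw [hmem] at hg ⊢
    exact neg_mem hg
  have hAX : #(A - X) = #(X + HF) := by
    have h1 : A - X = a0 +ᵥ -(X + HF) := by
      ext y
      simp only [mem_sub, mem_vadd_finset, vadd_eq_add, mem_neg', mem_add]
      constructor
      · rintro ⟨a, ha, x, hx, rfl⟩
        rw [hHFA, mem_vadd_finset] at ha
        obtain ⟨g, hg, rfl⟩ := ha
        exact ⟨g - x, ⟨x, hx, -g, hneg g hg, by abel⟩, by simp only [vadd_eq_add]; abel⟩
      · rintro ⟨z, ⟨x, hx, g, hg, hz⟩, rfl⟩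
        refine ⟨a0 + -g, ?_, x, hx, ?_⟩
        · rw [hHFA, mem_vadd_finset]
          exact ⟨-g, hneg g hg, rfl⟩
        · have : z = -(x + g) := by rw [hz, neg_neg]
          rw [this]
          abel
    rw [h1, card_vadd_finset, card_neg]
  refine ⟨AddAction.stabilizer G A, HF, hmem, ?_, ?_⟩
  · intro h
    apply hA.2
    rw [← card_eq_iff_eq_univ, hAX, h, card_univ]
  · have h1 := hκ X hX hne
    rw [hAX] at h1
    have h2 : #HF = #A := by rw [hHF, card_vadd_finset]
    have h3 : (#(X + HF) : ℤ) + #X ≤ #(X - X) + #HF := by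
      rw [h2]; linarith
    exact_mod_cast h3

end atom

section quot

variable {G : Type*} [AddCommGroup G] [Fintype G] [DecidableEq G]

omit [Fintype G] [DecidableEq G] in
/-- the number of elements of a fibre is at most `|H|` -/
theorem kn1_fiber (H : AddSubgroup G) (HF : Finset G) (hHF : ∀ g, g ∈ HF ↔ g ∈ H) (X : Finset G)
    [DecidableEq (G ⧸ H)] (c : G ⧸ H) : #(X.filter fun x : G => (x : G ⧸ H) = c) ≤ #HF := by
  classical
  rcases (X.filter fun x : G => (x : G ⧸ H) = c).eq_empty_or_nonempty with h | ⟨x0, hx0⟩
  · rw [h]; simp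
  · apply card_le_card_of_injOn (fun x => -x0 + x)
    · intro x hx
      rw [mem_coe, mem_filter] at hx
      rw [mem_filter] at hx0
      rw [mem_coe, hHF]
      exact QuotientAddGroup.eq.mp (hx0.2.trans hx.2.symm)
    · intro x _ y _ h
      simpa using h

omit [Fintype G] [DecidableEq G] in
theorem kn1_count (H : AddSubgroup G) (HF : Finset G) (hHF : ∀ g, g ∈ HF ↔ g ∈ H) (X : Finset G)
    [DecidableEq (G ⧸ H)] (hX : ∀ x ∈ X, ∀ g ∈ HF, x + g ∈ X) :
    #X = #HF * #(X.image fun x : G => (x : G ⧸ H)) := by
  classical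
  rw [card_eq_sum_card_image (fun x : G => (x : G ⧸ H)) X]
  rw [sum_const_nat (m := #HF), mul_comm]
  intro c hc
  obtain ⟨x0, hx0, rfl⟩ := mem_image.mp hc
  apply le_antisymm (kn1_fiber H HF hHF X _)
  apply card_le_card_of_injOn (fun g => x0 + g)
  · intro g hg
    rw [mem_coe] at hg
    rw [mem_coe, mem_filter]
    refine ⟨hX x0 hx0 g hg, ?_⟩
    rw [QuotientAddGroup.mk_add, (QuotientAddGroup.eq_zero_iff g).mpr ((hHF g).mp hg), add_zero]
  · intro x _ y _ h
    simpa using h

end quot

/-- LEMMA M: `4 |X| > |G|`, `2 |X - X| < |G|`. -/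
theorem kn1_aux (n : ℕ) : ∀ (G : Type u) [AddCommGroup G] [Fintype G] [DecidableEq G]
    (X : Finset G), Fintype.card G = n → Fintype.card G < 4 * #X →
    2 * #(X - X) < Fintype.card G →
    ∃ (K : AddSubgroup G) (k : ℕ), 1 ≤ k ∧ Fintype.card G = (4 * k - 1) * Nat.card K ∧
      (∀ r ∈ X - X, ∀ g ∈ K, r + g ∈ X - X) ∧ #X ≤ k * Nat.card K ∧
      #(X - X) = (2 * k - 1) * Nat.card K := by
  induction n using Nat.strong_induction_on with
  | _ n ih =>
    intro G _ _ _ X hn h1 h2
    classical
    have hXne : X.Nonempty := by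
      rw [← card_pos]; omega
    have hne : X - X ≠ univ := by
      intro h
      rw [h, card_univ] at h2
      omega
    obtain ⟨H, HF, hHF, hXH, hκ⟩ := kn1_atom X hXne hne
    have hnat : Nat.card H = #HF := by
      rw [← Nat.card_eq_finsetCard HF]
      exact Nat.card_congr (Equiv.subtypeEquivRight fun g => (hHF g).symm)
    have hzero : (0 : G) ∈ HF := (hHF 0).mpr H.zero_mem
    have hpos : 1 ≤ #HF := card_pos.mpr ⟨0, hzero⟩
    -- the number of cosets
    set Xh : Finset (G ⧸ H) := X.image fun x : G => (x : G ⧸ H) with hXh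
    have hXHcount : #(X + HF) = #HF * #Xh := by
      rw [kn1_count H HF hHF (X + HF) ?_]
      · congr 2
        ext c
        simp only [hXh, mem_image, mem_add]
        constructor
        · rintro ⟨_, ⟨x, hx, g, hg, rfl⟩, rfl⟩
          refine ⟨x, hx, ?_⟩
          rw [QuotientAddGroup.mk_add, (QuotientAddGroup.eq_zero_iff g).mpr ((hHF g).mp hg),
            add_zero]
        · rintro ⟨x, hx, rfl⟩
          exact ⟨x + 0, ⟨x, hx, 0, hzero, rfl⟩, by rw [add_zero]⟩
      · intro y hy g hg
        obtain ⟨x, hx, g', hg', rfl⟩ := mem_add.mp hy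
        rw [add_assoc]
        exact add_mem_add hx ((hHF _).mpr (H.add_mem ((hHF _).mp hg') ((hHF _).mp hg)))
    have hcardG : Fintype.card G = #HF * Fintype.card (G ⧸ H) := by
      have h := AddSubgroup.card_eq_card_quotient_mul_card_addSubgroup H
      rw [hnat, Nat.card_eq_fintype_card, Nat.card_eq_fintype_card] at h
      rw [h, mul_comm]
    have hlt : #Xh < Fintype.card (G ⧸ H) := by
      have h3 : #(X + HF) < Fintype.card G := by
        rw [← card_univ]
        exact card_lt_card (ssubset_univ_iff.mpr hXH)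
      rw [hXHcount, hcardG] at h3
      exact lt_of_mul_lt_mul_left h3 (Nat.zero_le _)
    have hm1 : 1 ≤ #Xh := card_pos.mpr (hXne.image _)
    set h := #HF with hh
    set m := #Xh with hm
    set N := Fintype.card (G ⧸ H) with hN
    have hXle : #X ≤ h * m := by
      rw [← hXHcount]
      exact card_le_card fun x hx => by
        rw [← add_zero x]; exact add_mem_add hx hzero
    rw [hXHcount] at hκ
    have e1 : 4 * (h * m) < h * N + 4 * h := by
      have : Fintype.card G = h * N := hcardG
      omega
    have e2 : 4 * m < N + 4 := by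
      have : h * (4 * m) < h * (N + 4) := by nlinarith
      exact lt_of_mul_lt_mul_left this (Nat.zero_le _)
    have e3 : N < 4 * m := by
      have : h * N < h * (4 * m) := by nlinarith
      exact lt_of_mul_lt_mul_left this (Nat.zero_le _)
    rcases Nat.lt_or_ge 1 h with hh2 | hh1
    · -- the difference set is a union of cosets
      have hfib := fun c : G ⧸ H => kn1_fiber H HF hHF X c
      have hsum : #X = ∑ c ∈ Xh, #(X.filter fun x : G => (x : G ⧸ H) = c) :=
        card_eq_sum_card_image (fun x : G => (x : G ⧸ H)) X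
      have htwo : ∀ c ∈ Xh, ∀ c' ∈ Xh, c ≠ c' →
          h < #(X.filter fun x : G => (x : G ⧸ H) = c) + #(X.filter fun x : G => (x : G ⧸ H) = c') := by
        intro c hc c' hc' hcc
        have hs1 : ∑ c ∈ Xh, #(X.filter fun x : G => (x : G ⧸ H) = c) =
            #(X.filter fun x : G => (x : G ⧸ H) = c) + (#(X.filter fun x : G => (x : G ⧸ H) = c') +
              ∑ d ∈ (Xh.erase c).erase c', #(X.filter fun x : G => (x : G ⧸ H) = d)) := by
          rw [← add_sum_erase Xh _ hc, ← add_sum_erase (Xh.erase c) _
            (mem_erase.mpr ⟨hcc.symm, hc'⟩)]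
        have hs2 : ∑ d ∈ (Xh.erase c).erase c', #(X.filter fun x : G => (x : G ⧸ H) = d) ≤
            #((Xh.erase c).erase c') * h := by
          rw [← smul_eq_mul]
          exact sum_le_card_nsmul _ _ _ fun d _ => hfib d
        rw [card_erase_of_mem (mem_erase.mpr ⟨hcc.symm, hc'⟩), card_erase_of_mem hc] at hs2
        have hm2 : 2 ≤ m := by
          have := card_le_card (show ({c, c'} : Finset (G ⧸ H)) ⊆ Xh by
            intro d hd
            rcases mem_insert.mp hd with rfl | hd
            · exact hc
            · rw [mem_singleton.mp hd]; exact hc')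
          rwa [card_pair hcc] at this
        obtain ⟨m', hm'⟩ : ∃ m', m = m' + 2 := ⟨m - 2, by omega⟩
        have hs3 : m - 1 - 1 = m' := by omega
        rw [← hm, hs3] at hs2
        have hG : Fintype.card G = h * N := hcardG
        have e4 : N + 3 ≥ 4 * m := by omega
        have e5 : h * (4 * m) ≤ h * (N + 3) := Nat.mul_le_mul_left h e4
        rw [hm'] at e5
        have e6 : h * (4 * (m' + 2)) = 4 * (m' * h) + 8 * h := by ring
        have e7 : h * (N + 3) = h * N + 3 * h := by ring
        omega
      have hHR : ∀ g ∈ HF, g ∈ X - X := by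
        -- a coset with more than half of the elements
        obtain ⟨c, hc⟩ : ∃ c : G ⧸ H, h < 2 * #(X.filter fun x : G => (x : G ⧸ H) = c) := by
          rcases Nat.lt_or_ge 1 m with hm2 | hm1'
          · obtain ⟨c, hc, c', hc', hcc⟩ := one_lt_card.mp hm2
            have := htwo c hc c' hc' hcc
            rcases Nat.lt_or_ge h (2 * #(X.filter fun x : G => (x : G ⧸ H) = c)) with h3 | h3
            · exact ⟨c, h3⟩
            · exact ⟨c', by omega⟩
          · obtain ⟨c, hc⟩ := card_eq_one.mp (show #Xh = 1 by omega)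
            refine ⟨c, ?_⟩
            rw [hc, sum_singleton] at hsum
            have hG : Fintype.card G = h * N := hcardG
            have : h * 2 ≤ h * N := Nat.mul_le_mul_left h (by omega)
            omega
        intro g hg
        set Y := X.filter fun x : G => (x : G ⧸ H) = c with hY
        have hYne : Y.Nonempty := by
          rw [← card_pos]; omega
        obtain ⟨y0, hy0⟩ := hYne
        have hsubU : ∀ y ∈ Y ∪ (g +ᵥ Y), -y0 + y ∈ HF := by
          intro y hy
          rw [hHF]
          have hyc : ∀ z ∈ Y, -y0 + z ∈ H := fun z hz =>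
            QuotientAddGroup.eq.mp ((mem_filter.mp hy0).2.trans (mem_filter.mp hz).2.symm)
          rcases mem_union.mp hy with hy | hy
          · exact hyc y hy
          · obtain ⟨z, hz, rfl⟩ := mem_vadd_finset.mp hy
            have : -y0 + (g +ᵥ z) = g + (-y0 + z) := by rw [vadd_eq_add]; abel
            rw [this]
            exact H.add_mem ((hHF g).mp hg) (hyc z hz)
        have hcU : #(Y ∪ (g +ᵥ Y)) ≤ h := by
          apply card_le_card_of_injOn (fun y => -y0 + y)
          · intro y hy
            exact hsubU y hy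
          · intro x _ y _ hxy
            simpa using hxy
        have hI : (Y ∩ (g +ᵥ Y)).Nonempty := by
          rw [← card_pos]
          have := card_union_add_card_inter Y (g +ᵥ Y)
          rw [card_vadd_finset] at this
          omega
        obtain ⟨y, hy⟩ := hI
        obtain ⟨hy1, hy2⟩ := mem_inter.mp hy
        obtain ⟨z, hz, hzy⟩ := mem_vadd_finset.mp hy2
        rw [mem_sub]
        refine ⟨y, (mem_filter.mp hy1).1, z, (mem_filter.mp hz).1, ?_⟩
        rw [← hzy, vadd_eq_add]
        abel
      have hper : ∀ r ∈ X - X, ∀ g ∈ HF, r + g ∈ X - X := by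
        intro r hr g hg
        obtain ⟨x, hx, x', hx', rfl⟩ := mem_sub.mp hr
        by_cases hcc : (x : G ⧸ H) = x'
        · apply hHR
          rw [hHF]
          have h3 : -x' + x ∈ H := QuotientAddGroup.eq.mp hcc.symm
          have : x - x' + g = (-x' + x) + g := by abel
          rw [this]
          exact H.add_mem h3 ((hHF g).mp hg)
        · have h4 := htwo x (mem_image_of_mem _ hx) x' (mem_image_of_mem _ hx') hcc
          set Y := X.filter fun z : G => (z : G ⧸ H) = x with hY
          set Y' := X.filter fun z : G => (z : G ⧸ H) = x' with hY'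
          set t := x - x' + g with ht
          have hcU : #(Y ∪ (t +ᵥ Y')) ≤ h := by
            apply card_le_card_of_injOn (fun y => -x + y)
            · intro y hy
              rw [mem_coe, hHF]
              rcases mem_union.mp hy with hy | hy
              · exact QuotientAddGroup.eq.mp (mem_filter.mp hy).2.symm
              · obtain ⟨z, hz, rfl⟩ := mem_vadd_finset.mp hy
                have h5 : -x' + z ∈ H := QuotientAddGroup.eq.mp (mem_filter.mp hz).2.symm
                have : -x + (t +ᵥ z) = g + (-x' + z) := by rw [vadd_eq_add, ht]; abel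
                show -x + (t +ᵥ z) ∈ H
                rw [this]
                exact H.add_mem ((hHF g).mp hg) h5
            · intro y _ z _ hyz
              simpa using hyz
          have hI : (Y ∩ (t +ᵥ Y')).Nonempty := by
            rw [← card_pos]
            have := card_union_add_card_inter Y (t +ᵥ Y')
            rw [card_vadd_finset] at this
            omega
          obtain ⟨y, hy⟩ := hI
          obtain ⟨hy1, hy2⟩ := mem_inter.mp hy
          obtain ⟨z, hz, hzy⟩ := mem_vadd_finset.mp hy2
          rw [mem_sub]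
          refine ⟨y, (mem_filter.mp hy1).1, z, (mem_filter.mp hz).1, ?_⟩
          rw [← hzy, vadd_eq_add]
          abel
      have hRcount := kn1_count H HF hHF (X - X) hper
      have himg : ((X - X).image fun x : G => (x : G ⧸ H)) = Xh - Xh := by
        ext c
        simp only [hXh, mem_image, mem_sub]
        constructor
        · rintro ⟨_, ⟨x, hx, y, hy, rfl⟩, rfl⟩
          exact ⟨x, ⟨x, hx, rfl⟩, y, ⟨y, hy, rfl⟩, (QuotientAddGroup.mk_sub H x y).symm⟩
        · rintro ⟨_, ⟨x, hx, rfl⟩, _, ⟨y, hy, rfl⟩, rfl⟩
          exact ⟨x - y, ⟨x, hx, y, hy, rfl⟩, QuotientAddGroup.mk_sub H x y⟩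
      rw [himg] at hRcount
      have hNn : N < n := by
        rw [← hn, hcardG]
        have : 1 * N < h * N := Nat.mul_lt_mul_of_pos_right hh2 (by omega)
        omega
      have h2' : 2 * #(Xh - Xh) < N := by
        rw [hRcount, hcardG] at h2
        have : h * (2 * #(Xh - Xh)) < h * N := by
          calc h * (2 * #(Xh - Xh)) = 2 * (h * #(Xh - Xh)) := by ring
            _ < h * N := h2
        exact lt_of_mul_lt_mul_left this (Nat.zero_le _)
      obtain ⟨K, k, hk1, hk2, hk3, hk4, hk5⟩ := ih N hNn (G ⧸ H) Xh rfl e3 h2'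
      have h5 : Nat.card (K.comap (QuotientAddGroup.mk' H)) = Nat.card K * h := by
        have h6 := AddSubgroup.index_comap_of_surjective K (QuotientAddGroup.mk'_surjective H)
        have h7 := (K.comap (QuotientAddGroup.mk' H)).card_mul_index
        have h8 := K.card_mul_index
        rw [h6, Nat.card_eq_fintype_card (α := G), hcardG] at h7
        rw [Nat.card_eq_fintype_card (α := G ⧸ H), ← hN] at h8
        rw [← h8] at h7
        have h9 : 0 < K.index := Nat.pos_of_ne_zero AddSubgroup.index_ne_zero_of_finite
        apply Nat.eq_of_mul_eq_mul_right h9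
        rw [h7]
        ring
      refine ⟨K.comap (QuotientAddGroup.mk' H), k, hk1, ?_, ?_, ?_, ?_⟩
      · have hk2' : N = (4 * k - 1) * Nat.card K := hk2
        rw [h5, hcardG, hk2']
        ring
      · intro r hr g hg
        have h6 := hk3 (r : G ⧸ H) (by rw [← himg]; exact mem_image_of_mem _ hr) (g : G ⧸ H) hg
        rw [← himg, mem_image] at h6
        obtain ⟨r', hr', hr2⟩ := h6
        have h7 : -r' + (r + g) ∈ HF := by
          rw [hHF]
          exact QuotientAddGroup.eq.mp (hr2.trans (QuotientAddGroup.mk_add H r g).symm)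
        have h8 := hper r' hr' _ h7
        rwa [add_neg_cancel_left] at h8
      · rw [h5]
        calc #X ≤ h * m := hXle
          _ ≤ h * (k * Nat.card K) := Nat.mul_le_mul_left h hk4
          _ = k * (Nat.card K * h) := by ring
      · rw [h5, hRcount, hk5]
        ring
    · -- trivial subgroup
      have hh' : h = 1 := by omega
      have hHbot : ∀ g, g ∈ H ↔ g = 0 := by
        intro g
        obtain ⟨g0, hg0⟩ := card_eq_one.mp (show #HF = 1 by omega)
        rw [← hHF, hg0, mem_singleton]
        rw [hg0, mem_singleton] at hzero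
        rw [hzero]
      have hmX : m = #X := by
        rw [hm, hXh, card_image_of_injective]
        intro x y hxy
        have h3 := QuotientAddGroup.eq.mp hxy
        rw [hHbot] at h3
        have : y = x + (-x + y) := by abel
        rw [this, h3, add_zero]
      refine ⟨⊥, #X, by omega, ?_, ?_, ?_, ?_⟩
      · simp only [AddSubgroup.card_bot, mul_one]
        rw [hh', hmX] at hκ
        omega
      · intro r hr g hg
        rw [AddSubgroup.mem_bot.mp hg, add_zero]
        exact hr
      · simp
      · simp only [AddSubgroup.card_bot, mul_one]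
        rw [hh', hmX] at hκ
        omega

theorem finite_kneser {G : Type*} [AddCommGroup G] [Fintype G] [DecidableEq G] (X : Finset G)
    (h1 : Fintype.card G < 4 * X.card) (h2 : 2 * (X - X).card < Fintype.card G) :
    ∃ (H : AddSubgroup G) (k : ℕ), 0 < k ∧ Fintype.card G = (4 * k - 1) * Nat.card H ∧
      (∀ x ∈ X - X, ∀ y ∈ H, x + y ∈ X - X) ∧ (X - X).card = (2 * k - 1) * Nat.card H ∧
      X.card ≤ k * Nat.card H := by
  obtain ⟨K, k, a, b, c, d, e⟩ := kn1_aux _ G X rfl h1 h2
  exact ⟨K, k, a, b, c, e, d⟩

end Pool.Agent.TA
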