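import Pool.Agent.Lib_helper47.TA.F.KN1

set_option autoImplicit false

namespace Pool.Agent.TA

open Pool.Agent.HOM
open scoped Pointwise

theorem finite_zmod (W : ℕ) (hW : 0 < W) (X : Finset (ZMod W)) (h1 : W < 4 * X.card)
    (h2 : 2 * (X - X).card < W) : ∃ (k : ℕ) (J : Finset (ZMod (4 * k - 1))), 0 < k ∧
      J.card = 2 * k - 1 ∧ 0 ∈ J ∧ (∀ j ∈ J, -j ∈ J) ∧ X.card * (4 * k - 1) ≤ k * W ∧
      ∀ n : ℤ, (n : ZMod (4 * k - 1)) ∈ J → (n : ZMod W) ∈ X - X := by
  have : NeZero W := ⟨hW.ne'⟩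
  have hcW : Fintype.card (ZMod W) = W := ZMod.card W
  obtain ⟨H, k, hk, hcard, hper, hdiff, hXk⟩ := finite_kneser X (by rw [hcW]; exact h1)
    (by rw [hcW]; exact h2)
  set N : ℕ := 4 * k - 1 with hN
  have hNpos : 0 < N := by omega
  have : NeZero N := ⟨hNpos.ne'⟩
  set h : ℕ := Nat.card H with hh
  rw [hcW] at hcard
  have hdvd : N ∣ W := ⟨h, hcard⟩
  let f : ZMod W →+ ZMod N := (ZMod.castHom hdvd (ZMod N)).toAddMonoidHom
  have hf : ∀ m : ℤ, f (m : ZMod W) = (m : ZMod N) := fun m => map_intCast (ZMod.castHom hdvd _) m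
  -- the index of `H`
  have hidx : H.index = N := by
    have h3 := H.card_mul_index
    rw [Nat.card_eq_fintype_card (α := ZMod W), hcW, ← hh] at h3
    have hpos : 0 < h := Nat.card_pos
    exact Nat.eq_of_mul_eq_mul_left hpos (h3.trans (hcard.trans (mul_comm N h)))
  have hmul : ∀ y : ZMod W, N • y ∈ H := by
    intro y
    rw [← hidx]
    exact H.nsmul_index_mem y
  have hker : ∀ y : ZMod W, f y = 0 → y ∈ H := by
    intro y hy
    obtain ⟨m, rfl⟩ := ZMod.intCast_surjective y
    rw [hf, ZMod.intCast_zmod_eq_zero_iff_dvd] at hy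
    obtain ⟨t, rfl⟩ := hy
    have h3 : (((N : ℤ) * t : ℤ) : ZMod W) = N • (t : ZMod W) := by
      push_cast
      rw [nsmul_eq_mul]
    rw [h3]
    exact hmul _
  set KF : Finset (ZMod W) := Finset.univ.filter fun y => f y = 0 with hKF
  have hKFcard : KF.card = h := by
    have h3 := f.ker.card_mul_index
    have hsurj : Function.Surjective f := by
      intro y
      obtain ⟨m, rfl⟩ := ZMod.intCast_surjective y
      exact ⟨m, hf m⟩
    have h4 : f.ker.index = N := by
      rw [AddSubgroup.index_ker, AddMonoidHom.range_eq_top.mpr hsurj,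
        Nat.card_congr AddSubgroup.topEquiv.toEquiv, Nat.card_eq_fintype_card, ZMod.card]
    rw [h4, Nat.card_eq_fintype_card (α := ZMod W), hcW] at h3
    have h5 : Nat.card f.ker = h :=
      Nat.eq_of_mul_eq_mul_right hNpos (h3.trans (hcard.trans (mul_comm N h)))
    rw [← h5, ← Nat.card_eq_finsetCard KF]
    exact Nat.card_congr (Equiv.subtypeEquivRight fun y => by simp [hKF, AddMonoidHom.mem_ker])
  set J : Finset (ZMod N) := (X - X).image f with hJ
  have hXne : X.Nonempty := by
    rw [← Finset.card_pos]; omega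
  have hJcard : J.card * h = (2 * k - 1) * h := by
    rw [← hdiff, Finset.card_eq_sum_card_image f (X - X), ← hJ]
    symm
    apply Finset.sum_const_nat
    intro j hj
    obtain ⟨r, hr, rfl⟩ := Finset.mem_image.mp hj
    have h3 : ((X - X).filter fun x => f x = f r) = KF.image fun g => r + g := by
      ext x
      simp only [Finset.mem_filter, Finset.mem_image, hKF, Finset.mem_univ, true_and]
      constructor
      · rintro ⟨_, hx⟩
        exact ⟨x - r, by rw [map_sub, hx, sub_self], by abel⟩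
      · rintro ⟨g, hg, rfl⟩
        exact ⟨hper r hr g (hker g hg), by rw [map_add, hg, add_zero]⟩
    rw [h3, Finset.card_image_of_injective _ (add_right_injective r), hKFcard]
  have hhpos : 0 < h := Nat.card_pos
  refine ⟨k, J, hk, Nat.eq_of_mul_eq_mul_right hhpos hJcard, ?_, ?_, ?_, ?_⟩
  · obtain ⟨x, hx⟩ := hXne
    exact Finset.mem_image.mpr ⟨x - x, Finset.sub_mem_sub hx hx, by simp⟩
  · intro j hj
    obtain ⟨r, hr, rfl⟩ := Finset.mem_image.mp hj
    obtain ⟨x, hx, y, hy, rfl⟩ := Finset.mem_sub.mp hr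
    exact Finset.mem_image.mpr ⟨y - x, Finset.sub_mem_sub hy hx, by
      rw [← map_neg, neg_sub]⟩
  · calc X.card * (4 * k - 1) = X.card * N := by rw [hN]
      _ ≤ k * h * N := Nat.mul_le_mul_right N hXk
      _ = k * W := by rw [hcard]; ring
  · intro n hn
    obtain ⟨r, hr, hrn⟩ := Finset.mem_image.mp hn
    obtain ⟨m, rfl⟩ := ZMod.intCast_surjective r
    rw [hf] at hrn
    have h3 : ((n - m : ℤ) : ZMod N) = 0 := by
      push_cast
      rw [hrn, sub_self]
    have h4 := hker ((n - m : ℤ) : ZMod W) (by rw [hf, h3])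
    have h5 := hper _ hr _ h4
    have h6 : (m : ZMod W) + ((n - m : ℤ) : ZMod W) = (n : ZMod W) := by
      push_cast
      ring
    rwa [h6] at h5

end Pool.Agent.TA
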