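import Pool.Agent.Lib_helper47.TA.F.BOH

/-!
# Project TA, block PER: the period (helper56)
-/

set_option autoImplicit false

namespace Pool.Agent.TA

open Pool.Agent.HOM
open scoped Pointwise

/-- a trigonometric polynomial changes little under a shift in a Bohr set -/
theorem per_shift (F : Finset Circle) (c : Circle → ℝ) (ρ : ℝ) (t τ : ℤ)
    (hτ : ∀ z ∈ F, ‖(z : ℂ) ^ τ - 1‖ < ρ) :
    |∑ z ∈ F, c z * ((z : ℂ) ^ (t + τ)).re - ∑ z ∈ F, c z * ((z : ℂ) ^ t).re| ≤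
      (∑ z ∈ F, |c z|) * ρ := by
  rw [← Finset.sum_sub_distrib, Finset.sum_mul]
  refine (Finset.abs_sum_le_sum_abs _ _).trans (Finset.sum_le_sum fun z hz => ?_)
  have h1 : c z * ((z : ℂ) ^ (t + τ)).re - c z * ((z : ℂ) ^ t).re =
      c z * ((z : ℂ) ^ t * ((z : ℂ) ^ τ - 1)).re := by
    rw [zpow_add₀ (Circle.coe_ne_zero z), mul_sub, mul_one, Complex.sub_re]
    ring
  rw [h1, abs_mul]
  refine mul_le_mul_of_nonneg_left ?_ (abs_nonneg _)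
  refine (Complex.abs_re_le_norm _).trans ?_
  rw [norm_mul, norm_zpow, Circle.norm_coe, one_zpow, one_mul]
  exact (hτ z hz).le

theorem period_exists (φ : ℤ → ℝ) (Δ : ℝ) (hΔ : 0 < Δ) (R : Set ℤ) (h1 : ∀ t ∈ R, Δ ≤ φ t)
    (h0 : ∀ t, t ∉ R → φ t = 0) (F : Finset Circle) (c : Circle → ℝ)
    (hF : Null {t : ℤ | Δ / 16 ≤ |φ t - ∑ z ∈ F, c z * ((z : ℂ) ^ t).re|}) :
    ∃ (W : ℕ) (R' : Set ℤ), 0 < W ∧ (∀ t : ℤ, t + W ∈ R' ↔ t ∈ R') ∧ Null (R \ R') ∧ Null (R' \ R) := by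
  by_cases hm : ∃ m : Mn ℤ, m.Inv
  swap
  · push Not at hm
    exact ⟨1, ∅, one_pos, fun t => Iff.rfl, fun m h => absurd h (hm m), fun m h => absurd h (hm m)⟩
  obtain ⟨m, hmi⟩ := hm
  set ψ : ℤ → ℝ := fun t => ∑ z ∈ F, c z * ((z : ℂ) ^ t).re with hψ
  set A : ℝ := ∑ z ∈ F, |c z| with hA
  have hA0 : 0 ≤ A := Finset.sum_nonneg fun z _ => abs_nonneg _
  obtain ⟨ρ, hρ⟩ : ∃ ρ : ℝ, ρ = Δ / (8 * (A + 1)) := ⟨_, rfl⟩
  have hρ0 : 0 < ρ := by rw [hρ]; positivity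
  have hρA : A * ρ ≤ Δ / 8 := by
    have h2 : (A + 1) * ρ = Δ / 8 := by
      rw [hρ]
      field_simp
    nlinarith
  have hsh : ∀ t τ : ℤ, (∀ z ∈ F, ‖(z : ℂ) ^ τ - 1‖ < ρ) → |ψ (t + τ) - ψ t| ≤ Δ / 8 :=
    fun t τ hτ => (per_shift F c ρ t τ hτ).trans hρA
  obtain ⟨H, hH⟩ := bohr_syndetic F ρ hρ0
  -- there are no values in the middle
  have hmid : ∀ t : ℤ, ψ t ≤ Δ / 4 ∨ 3 * Δ / 4 ≤ ψ t := by
    intro t
    by_contra hne
    push Not at hne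
    have h2 := ms_pos_of_syndetic m hmi {t : ℤ | Δ / 16 ≤ |φ t - ψ t|} H (by
      intro x
      obtain ⟨τ, hτ, hB⟩ := hH (x - t)
      refine ⟨t + τ, ⟨by linarith [hτ.1], by linarith [hτ.2]⟩, ?_⟩
      have h3 := abs_le.1 (hsh t τ hB)
      show Δ / 16 ≤ |φ (t + τ) - ψ (t + τ)|
      by_cases hR : t + τ ∈ R
      · have h4 := h1 _ hR
        refine le_trans ?_ (le_abs_self _)
        linarith [h3.2]
      · rw [h0 _ hR]
        refine le_trans ?_ (neg_le_abs _)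
        linarith [h3.1])
    rw [hF m hmi] at h2
    exact lt_irrefl _ h2
  obtain ⟨τ, hτ, hB⟩ := hH 0
  have hτ0 : 0 < τ := hτ.1
  have hW : ((τ.toNat : ℕ) : ℤ) = τ := Int.toNat_of_nonneg hτ0.le
  refine ⟨τ.toNat, {t | 3 * Δ / 4 ≤ ψ t}, by omega, fun t => ?_, fun m' hm' => ?_, fun m' hm' => ?_⟩
  · rw [hW]
    have h3 := abs_le.1 (hsh t τ hB)
    constructor
    · intro h4
      have h4' : 3 * Δ / 4 ≤ ψ (t + τ) := h4
      rcases hmid t with h5 | h5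
      · linarith [h3.2]
      · exact h5
    · intro h4
      have h4' : 3 * Δ / 4 ≤ ψ t := h4
      rcases hmid (t + τ) with h5 | h5
      · linarith [h3.1]
      · exact h5
  · refine ms_null_mono m' ?_ (hF m' hm')
    rintro t ⟨ht, ht'⟩
    have h4 := h1 t ht
    have h5 : ψ t < 3 * Δ / 4 := not_le.1 ht'
    show Δ / 16 ≤ |φ t - ψ t|
    refine le_trans ?_ (le_abs_self _)
    linarith
  · refine ms_null_mono m' ?_ (hF m' hm')
    rintro t ⟨ht, ht'⟩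
    have h5 : 3 * Δ / 4 ≤ ψ t := ht
    show Δ / 16 ≤ |φ t - ψ t|
    rw [h0 t ht']
    refine le_trans ?_ (neg_le_abs _)
    linarith

example : type_of% @period_exists := @period_exists

end Pool.Agent.TA
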