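import Pool.Agent.Lib_helper47.TA.F.SYM

set_option autoImplicit false

namespace Pool.Agent.TA

open Pool.Agent.HOM

section PP
variable {m : Mn ℤ} {C : Set ℤ}

theorem P_nonneg (a b : ℤ) : 0 ≤ P m C a b := ms_nonneg m _

theorem P_le_one (a b : ℤ) : P m C a b ≤ 1 := ms_le_one m _

/-- the path in terms of its middle point -/
theorem P_mid (h : Sym m C) (a b : ℤ) :
    P m C a b = ms m {x | x - a ∈ C ∧ x ∈ C ∧ x + b ∈ C} := by
  unfold P
  rw [← ms_shift_sub m h.inv _ a]
  congr 1
  ext x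
  simp only [Set.mem_setOf_eq, sub_add_cancel]

theorem P_comm (h : Sym m C) (a b : ℤ) : P m C a b = P m C b a := by
  rw [P_mid h, P_mid h, ← ms_neg m h.evn]
  congr 1
  ext x
  simp only [Set.mem_setOf_eq]
  rw [← h.neg (-x - a), ← h.neg (-x), ← h.neg (-x + b), show -(-x - a) = x + a by ring,
    show -(-x) = x by ring, show -(-x + b) = x - b by ring]
  tauto

theorem P_neg (h : Sym m C) (a b : ℤ) : P m C (-a) (-b) = P m C a b := by
  unfold P
  rw [← ms_neg m h.evn]
  congr 1
  ext x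
  simp only [Set.mem_setOf_eq]
  rw [← h.neg (-x), ← h.neg (-x + -a), ← h.neg (-x + -a + -b), show -(-x) = x by ring,
    show -(-x + -a) = x + a by ring, show -(-x + -a + -b) = x + a + b by ring]

theorem P_cyc (h : Sym m C) (a b c : ℤ) (habc : a + b + c = 0) : P m C a b = P m C b c := by
  unfold P
  rw [← ms_shift m h.inv {x | x ∈ C ∧ x + b ∈ C ∧ x + b + c ∈ C} a]
  congr 1
  ext x
  simp only [Set.mem_setOf_eq]
  rw [show x + a + b + c = x by linarith]
  tauto

theorem P_self (h : Sym m C) (a : ℤ) : 2 * ms m C - 1 ≤ P m C a (-a) := by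
  unfold P
  have h1 := ms_inter_ge m C {x | x + a ∈ C}
  rw [ms_shift m h.inv C a] at h1
  have h2 : C ∩ {x | x + a ∈ C} = {x | x ∈ C ∧ x + a ∈ C ∧ x + a + -a ∈ C} := by
    ext x
    simp only [Set.mem_inter_iff, Set.mem_setOf_eq, add_neg_cancel_right]
    tauto
  rw [h2] at h1
  linarith

end PP

end Pool.Agent.TA
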