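import Pool.Agent.Lib_helper47.TA.F.KN2

/-!
# TA block RES (helper72): residue classes of `X` modulo the period
-/

set_option autoImplicit false

namespace Pool.Agent.TA

open Pool.Agent.HOM
open scoped Pointwise

/-- the part of `X` in a residue class -/
private def res_X (X : Set ℤ) (W : ℕ) (r : ZMod W) : Set ℤ := {n : ℤ | n ∈ X ∧ (n : ZMod W) = r}

/-- a periodic set is a union of residue classes -/
private theorem res_per (W : ℕ) (R' : Set ℤ) (hR : ∀ t : ℤ, t + W ∈ R' ↔ t ∈ R') (t s : ℤ)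
    (hts : (t : ZMod W) = (s : ZMod W)) (ht : t ∈ R') : s ∈ R' := by
  have h1 : ∀ (j : ℕ) (t : ℤ), t + j * W ∈ R' ↔ t ∈ R' := by
    intro j
    induction j with
    | zero => intro t; simp
    | succ j ih =>
      intro t
      have h2 : t + ((j + 1 : ℕ) : ℤ) * W = (t + j * W) + W := by push_cast; ring
      rw [h2, hR, ih]
  obtain ⟨c, hc⟩ := (ZMod.intCast_eq_intCast_iff_dvd_sub t s W).1 hts
  obtain ⟨j, rfl | rfl⟩ := c.eq_nat_or_neg
  · have h2 : s = t + j * W := by linarith [mul_comm (W : ℤ) j]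
    rw [h2, h1]
    exact ht
  · have h2 : t = s + j * W := by
      have : (W : ℤ) * -(j : ℤ) = -(j * W) := by ring
      linarith
    rw [h2, h1] at ht
    exact ht

theorem residues (m : Mn ℤ) (hm : m.Inv) (he : Evn m) (X : Set ℤ) (hX : 1 / 4 < ms m X) (W : ℕ)
    (hW : 0 < W) (R' : Set ℤ) (hR : ∀ t : ℤ, t + W ∈ R' ↔ t ∈ R')
    (hn : ms m ({t | ∃ p ∈ X, ∃ p' ∈ X, t = p - p'} \ R') = 0) (hR' : ms m R' < 1 / 2) :
    ∃ (k : ℕ) (J : Finset (ZMod (4 * k - 1))), 0 < k ∧ J.card = 2 * k - 1 ∧ 0 ∈ J ∧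
      (∀ j ∈ J, -j ∈ J) ∧ ms m X * (4 * (k : ℝ) - 1) ≤ k ∧
      ∀ n : ℤ, (n : ZMod (4 * k - 1)) ∈ J → n ∈ R' := by
  classical
  have : NeZero W := ⟨hW.ne'⟩
  have hW0 : (0 : ℝ) < W := by exact_mod_cast hW
  set Y : Finset (ZMod W) := Finset.univ.filter (fun r => 0 < ms m (res_X X W r)) with hY
  -- `X` is contained in the classes of `Y` up to a null set
  have hA : ms m X ≤ (Y.card : ℝ) / W := by
    rw [← ms_classes m hm W hW Y]
    have h1 : X ⊆ {n : ℤ | (n : ZMod W) ∈ Y} ∪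
        ⋃ r ∈ (Finset.univ.filter (fun r => ¬ 0 < ms m (res_X X W r)) : Finset (ZMod W)),
          res_X X W r := by
      intro n hn
      by_cases h : (n : ZMod W) ∈ Y
      · exact Or.inl h
      · right
        rw [Set.mem_iUnion₂]
        refine ⟨(n : ZMod W), ?_, hn, rfl⟩
        rw [hY, Finset.mem_filter] at h
        rw [Finset.mem_filter]
        exact ⟨Finset.mem_univ _, fun h' => h ⟨Finset.mem_univ _, h'⟩⟩
    refine (ms_mono m h1).trans ((ms_union_le m _ _).trans ?_)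
    have h2 : ms m (⋃ r ∈ (Finset.univ.filter (fun r => ¬ 0 < ms m (res_X X W r)) :
        Finset (ZMod W)), res_X X W r) ≤ 0 := by
      refine (ms_finset_le m _ _).trans (Finset.sum_nonpos fun r hr => ?_)
      rw [Finset.mem_filter] at hr
      exact not_lt.1 hr.2
    linarith
  have h1 : W < 4 * Y.card := by
    have h2 : (1 : ℝ) / 4 < (Y.card : ℝ) / W := lt_of_lt_of_le hX hA
    rw [lt_div_iff₀ hW0] at h2
    have h3 : (W : ℝ) < 4 * Y.card := by linarith
    exact_mod_cast h3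
  -- differences of classes in `Y` are contained in `R'`
  have hB : ∀ n : ℤ, (n : ZMod W) ∈ Y - Y → n ∈ R' := by
    intro n hn'
    obtain ⟨a, ha, b, hb, hab⟩ := Finset.mem_sub.1 hn'
    rw [hY, Finset.mem_filter] at ha hb
    obtain ⟨p, hp, hpa⟩ := ms_nonempty m ha.2
    by_contra hnR
    have hT : {t : ℤ | p - t ∈ res_X X W b} ⊆ {t | ∃ p ∈ X, ∃ p' ∈ X, t = p - p'} \ R' := by
      intro t ht
      obtain ⟨ht1, ht2⟩ := ht
      refine ⟨⟨p, hp, p - t, ht1, by ring⟩, fun htR => hnR ?_⟩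
      refine res_per W R' hR t n ?_ htR
      rw [← hab, ← hpa, ← ht2]
      push_cast
      ring
    have hms : ms m {t : ℤ | p - t ∈ res_X X W b} = ms m (res_X X W b) := by
      have h2 := ms_shift_sub m hm {s : ℤ | -s ∈ res_X X W b} p
      rw [ms_neg m he] at h2
      rw [← h2]
      congr 1
      ext t
      simp only [Set.mem_ofPred_eq, neg_sub]
    have h3 := ms_null_mono m hT hn
    rw [hms] at h3
    exact absurd h3 hb.2.ne'
  have h2 : 2 * (Y - Y).card < W := by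
    have h3 : ms m {n : ℤ | (n : ZMod W) ∈ Y - Y} ≤ ms m R' := ms_mono m fun n hn' => hB n hn'
    rw [ms_classes m hm W hW] at h3
    have h4 : ((Y - Y).card : ℝ) / W < 1 / 2 := lt_of_le_of_lt h3 hR'
    rw [div_lt_iff₀ hW0] at h4
    have h5 : 2 * ((Y - Y).card : ℝ) < W := by linarith
    exact_mod_cast h5
  obtain ⟨k, J, hk, hJ, hJ0, hJn, hYk, hJY⟩ := finite_zmod W hW Y h1 h2
  refine ⟨k, J, hk, hJ, hJ0, hJn, ?_, fun n hn' => hB n (hJY n hn')⟩
  have hk1 : (1 : ℝ) ≤ k := by exact_mod_cast hk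
  have h4 : ((4 * k - 1 : ℕ) : ℝ) = 4 * (k : ℝ) - 1 := by
    rw [Nat.cast_sub (by omega)]
    push_cast
    ring
  have h5 : (Y.card : ℝ) * (4 * (k : ℝ) - 1) ≤ k * W := by
    rw [← h4]
    exact_mod_cast hYk
  calc ms m X * (4 * (k : ℝ) - 1) ≤ (Y.card : ℝ) / W * (4 * (k : ℝ) - 1) := by
        apply mul_le_mul_of_nonneg_right hA
        linarith
    _ = (Y.card : ℝ) * (4 * (k : ℝ) - 1) / W := by ring
    _ ≤ k := by
        rw [div_le_iff₀ hW0]
        exact h5

end Pool.Agent.TA
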