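import Pool.Agent.Lib_helper47.TA.F.PP

/-! Block SQ3 of the project TA (MP_49610d_nt): the square and the 3-cube. -/

set_option autoImplicit false

namespace Pool.Agent.TA

open Pool.Agent.HOM

/-- indicator -/
noncomputable def sq_c (C : Set ℤ) (x : ℤ) : ℝ := C.indicator (fun _ => (1 : ℝ)) x

/-- indicator of a triple -/
noncomputable def sq_t (C : Set ℤ) (r s t x : ℤ) : ℝ :=
  {x | x + r ∈ C ∧ x + s ∈ C ∧ x + t ∈ C}.indicator (fun _ => (1 : ℝ)) x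

theorem sq_c_eq (C : Set ℤ) (x : ℤ) (b : Bool) (h : b = true ↔ x ∈ C) :
    sq_c C x = (b.toNat : ℝ) := by
  unfold sq_c
  by_cases hx : x ∈ C
  · rw [Set.indicator_of_mem hx, h.2 hx]; simp
  · have : b = false := by
      cases b
      · rfl
      · exact absurd (h.1 rfl) hx
    rw [Set.indicator_of_notMem hx, this]; simp

theorem sq_t_eq (C : Set ℤ) (r s t x : ℤ) (b b' b'' : Bool) (h : b = true ↔ x + r ∈ C)
    (h' : b' = true ↔ x + s ∈ C) (h'' : b'' = true ↔ x + t ∈ C) :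
    sq_t C r s t x = (b.toNat * b'.toNat * b''.toNat : ℕ) := by
  unfold sq_t
  cases b <;> cases b' <;> cases b'' <;> simp_all

theorem sq_add (m : Mn ℤ) (f g : ℤ → ℝ) : m.L (fun x => f x + g x) = m.L f + m.L g := map_add m.L f g

theorem sq_sh (m : Mn ℤ) (hm : m.Inv) {f : ℤ → ℝ} (hf : Bd f) (g : ℤ → ℤ) (s : ℤ)
    (h : ∀ x, g x = x + s) : m.L (fun x => f (g x)) = m.L f := by
  rw [← L_shift m hm hf s]
  congr 1
  ext x
  rw [h]

theorem sq_tri (m : Mn ℤ) (hm : m.Inv) (C : Set ℤ) (r s t u v : ℤ) (hu : s - r = u)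
    (hv : t - s = v) : m.L (fun x => sq_t C r s t x) = P m C u v := by
  subst hu hv
  unfold P
  rw [← ms_shift m hm _ r]
  have e : {x : ℤ | x + r ∈ C ∧ x + s ∈ C ∧ x + t ∈ C} =
      {x : ℤ | x + r ∈ {x : ℤ | x ∈ C ∧ x + (s - r) ∈ C ∧ x + (s - r) + (t - s) ∈ C}} := by
    ext x
    simp only [Set.mem_setOf_eq]
    rw [show x + r + (s - r) = x + s by ring, show x + s + (t - s) = x + t by ring]
  rw [← e]
  rfl

theorem sq_s_bool : ∀ b0 b1 b2 b3 : Bool,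
    b0.toNat + b1.toNat + b2.toNat + b3.toNat ≤ 2 + (b0.toNat * b1.toNat * b3.toNat +
      b0.toNat * b2.toNat * b3.toNat +
      b1.toNat * b0.toNat * b2.toNat +
      b1.toNat * b3.toNat * b2.toNat) := by
  decide

theorem sq_s_point (C : Set ℤ) (e0 e1 x : ℤ) :
    sq_c C (x) + sq_c C (x + e0) + sq_c C (x + e1) + sq_c C (x + e0 + e1) ≤ 2 + (sq_t C (0) (e0) (e0 + e1) x +
      sq_t C (0) (e1) (e0 + e1) x +
      sq_t C (e0) (0) (e1) x +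
      sq_t C (e0) (e0 + e1) (e1) x) := by
  classical
  obtain ⟨b0, hb0⟩ : ∃ b : Bool, b = decide (x ∈ C) := ⟨_, rfl⟩
  have c0 : b0 = true ↔ x ∈ C := by rw [hb0, decide_eq_true_iff]
  obtain ⟨b1, hb1⟩ : ∃ b : Bool, b = decide (x + e0 ∈ C) := ⟨_, rfl⟩
  have c1 : b1 = true ↔ x + e0 ∈ C := by rw [hb1, decide_eq_true_iff]
  obtain ⟨b2, hb2⟩ : ∃ b : Bool, b = decide (x + e1 ∈ C) := ⟨_, rfl⟩
  have c2 : b2 = true ↔ x + e1 ∈ C := by rw [hb2, decide_eq_true_iff]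
  obtain ⟨b3, hb3⟩ : ∃ b : Bool, b = decide (x + e0 + e1 ∈ C) := ⟨_, rfl⟩
  have c3 : b3 = true ↔ x + e0 + e1 ∈ C := by rw [hb3, decide_eq_true_iff]
  have s0 : sq_t C (0) (e0) (e0 + e1) x =
      (b0.toNat * b1.toNat * b3.toNat : ℕ) :=
    sq_t_eq C _ _ _ x b0 b1 b3 (by rw [c0] <;> ring_nf) (by rw [c1] <;> ring_nf)
      (by rw [c3] <;> ring_nf)
  have s1 : sq_t C (0) (e1) (e0 + e1) x =
      (b0.toNat * b2.toNat * b3.toNat : ℕ) :=
    sq_t_eq C _ _ _ x b0 b2 b3 (by rw [c0] <;> ring_nf) (by rw [c2] <;> ring_nf)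
      (by rw [c3] <;> ring_nf)
  have s2 : sq_t C (e0) (0) (e1) x =
      (b1.toNat * b0.toNat * b2.toNat : ℕ) :=
    sq_t_eq C _ _ _ x b1 b0 b2 (by rw [c1] <;> ring_nf) (by rw [c0] <;> ring_nf)
      (by rw [c2] <;> ring_nf)
  have s3 : sq_t C (e0) (e0 + e1) (e1) x =
      (b1.toNat * b3.toNat * b2.toNat : ℕ) :=
    sq_t_eq C _ _ _ x b1 b3 b2 (by rw [c1] <;> ring_nf) (by rw [c3] <;> ring_nf)
      (by rw [c2] <;> ring_nf)
  have d0 := sq_c_eq C _ b0 c0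
  have d1 := sq_c_eq C _ b1 c1
  have d2 := sq_c_eq C _ b2 c2
  have d3 := sq_c_eq C _ b3 c3
  have key := sq_s_bool b0 b1 b2 b3
  rw [d0, d1, d2, d3, s0, s1, s2, s3]
  exact_mod_cast key

section PP
variable {m : Mn ℤ} {C : Set ℤ}

theorem square (h : Sym m C) (η : ℝ) (a b : ℤ) (h1 : P m C a b ≤ η) (h2 : P m C a (-b) ≤ η) :
    4 * ms m C - 2 ≤ 4 * η := by
  obtain ⟨e0, he0⟩ : ∃ e0 : ℤ, e0 = a := ⟨_, rfl⟩
  obtain ⟨e1, he1⟩ : ∃ e1 : ℤ, e1 = b := ⟨_, rfl⟩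
  have p : P m C e0 e1 ≤ η := by rw [he0, he1]; exact h1
  have p2 : P m C e1 e0 ≤ η := by rw [P_comm h]; exact p
  have q : P m C (-e0) e1 ≤ η := by rw [he0, he1, ← P_neg h, neg_neg]; exact h2
  have q2 : P m C e1 (-e0) ≤ η := by rw [P_comm h]; exact q
  clear he0 he1
  have t0 : m.L (fun x => sq_t C (0) (e0) (e0 + e1) x) ≤ η :=
    (sq_tri m h.inv C _ _ _ _ _ (by ring) (by ring)).trans_le p
  have t1 : m.L (fun x => sq_t C (0) (e1) (e0 + e1) x) ≤ η :=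
    (sq_tri m h.inv C _ _ _ _ _ (by ring) (by ring)).trans_le p2
  have t2 : m.L (fun x => sq_t C (e0) (0) (e1) x) ≤ η :=
    (sq_tri m h.inv C _ _ _ _ _ (by ring) (by ring)).trans_le q
  have t3 : m.L (fun x => sq_t C (e0) (e0 + e1) (e1) x) ≤ η :=
    (sq_tri m h.inv C _ _ _ _ _ (by ring) (by ring)).trans_le q2
  have v0 : m.L (fun x => sq_c C (x)) = ms m C :=
    sq_sh m h.inv (bd_ind C) (fun x => x) (0) (fun x => by ring)
  have v1 : m.L (fun x => sq_c C (x + e0)) = ms m C :=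
    sq_sh m h.inv (bd_ind C) (fun x => x + e0) (e0) (fun x => by ring)
  have v2 : m.L (fun x => sq_c C (x + e1)) = ms m C :=
    sq_sh m h.inv (bd_ind C) (fun x => x + e1) (e1) (fun x => by ring)
  have v3 : m.L (fun x => sq_c C (x + e0 + e1)) = ms m C :=
    sq_sh m h.inv (bd_ind C) (fun x => x + e0 + e1) (e0 + e1) (fun x => by ring)
  have bc : ∀ g : ℤ → ℤ, Bd (fun x => sq_c C (g x)) := fun g => (bd_ind C).comp g
  have bt : ∀ r s t : ℤ, Bd (fun x => sq_t C r s t x) := fun r s t => bd_ind _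
  have key := L_mono m (f := fun x => sq_c C (x) + sq_c C (x + e0) + sq_c C (x + e1) + sq_c C (x + e0 + e1)) (g := fun x => 2 + (sq_t C (0) (e0) (e0 + e1) x +
      sq_t C (0) (e1) (e0 + e1) x +
      sq_t C (e0) (0) (e1) x +
      sq_t C (e0) (e0 + e1) (e1) x)) ?_ ?_
    (fun x => sq_s_point C e0 e1 x)
  · simp only [sq_add, L_const] at key
    rw [v0, v1, v2, v3] at key
    linarith
  · repeat' first | exact bc _ | refine Bd.add ?_ ?_
  · refine Bd.add (Bd.const 2) ?_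
    repeat' first | exact bt _ _ _ | refine Bd.add ?_ ?_

end PP

theorem sq_k_bool : ∀ b0 b1 b2 b3 b4 b5 b6 b7 : Bool,
    b0.toNat + b1.toNat + b2.toNat + b3.toNat + b4.toNat + b5.toNat + b6.toNat + b7.toNat ≤ 4 + (b1.toNat * b0.toNat * b2.toNat +
      b2.toNat * b3.toNat * b1.toNat +
      b5.toNat * b4.toNat * b6.toNat +
      b6.toNat * b7.toNat * b5.toNat +
      b2.toNat * b0.toNat * b4.toNat +
      b4.toNat * b6.toNat * b2.toNat +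
      b3.toNat * b1.toNat * b5.toNat +
      b5.toNat * b7.toNat * b3.toNat +
      b1.toNat * b0.toNat * b4.toNat +
      b4.toNat * b5.toNat * b1.toNat +
      b3.toNat * b2.toNat * b6.toNat +
      b6.toNat * b7.toNat * b3.toNat) := by
  decide

theorem sq_k_point (C : Set ℤ) (e0 e1 e2 x : ℤ) :
    sq_c C (x) + sq_c C (x + e0) + sq_c C (x + e1) + sq_c C (x + e0 + e1) + sq_c C (x + e2) + sq_c C (x + e0 + e2) + sq_c C (x + e1 + e2) + sq_c C (x + e0 + e1 + e2) ≤ 4 + (sq_t C (e0) (0) (e1) x +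
      sq_t C (e1) (e0 + e1) (e0) x +
      sq_t C (e0 + e2) (e2) (e1 + e2) x +
      sq_t C (e1 + e2) (e0 + e1 + e2) (e0 + e2) x +
      sq_t C (e1) (0) (e2) x +
      sq_t C (e2) (e1 + e2) (e1) x +
      sq_t C (e0 + e1) (e0) (e0 + e2) x +
      sq_t C (e0 + e2) (e0 + e1 + e2) (e0 + e1) x +
      sq_t C (e0) (0) (e2) x +
      sq_t C (e2) (e0 + e2) (e0) x +
      sq_t C (e0 + e1) (e1) (e1 + e2) x +
      sq_t C (e1 + e2) (e0 + e1 + e2) (e0 + e1) x) := by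
  classical
  obtain ⟨b0, hb0⟩ : ∃ b : Bool, b = decide (x ∈ C) := ⟨_, rfl⟩
  have c0 : b0 = true ↔ x ∈ C := by rw [hb0, decide_eq_true_iff]
  obtain ⟨b1, hb1⟩ : ∃ b : Bool, b = decide (x + e0 ∈ C) := ⟨_, rfl⟩
  have c1 : b1 = true ↔ x + e0 ∈ C := by rw [hb1, decide_eq_true_iff]
  obtain ⟨b2, hb2⟩ : ∃ b : Bool, b = decide (x + e1 ∈ C) := ⟨_, rfl⟩
  have c2 : b2 = true ↔ x + e1 ∈ C := by rw [hb2, decide_eq_true_iff]
  obtain ⟨b3, hb3⟩ : ∃ b : Bool, b = decide (x + e0 + e1 ∈ C) := ⟨_, rfl⟩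
  have c3 : b3 = true ↔ x + e0 + e1 ∈ C := by rw [hb3, decide_eq_true_iff]
  obtain ⟨b4, hb4⟩ : ∃ b : Bool, b = decide (x + e2 ∈ C) := ⟨_, rfl⟩
  have c4 : b4 = true ↔ x + e2 ∈ C := by rw [hb4, decide_eq_true_iff]
  obtain ⟨b5, hb5⟩ : ∃ b : Bool, b = decide (x + e0 + e2 ∈ C) := ⟨_, rfl⟩
  have c5 : b5 = true ↔ x + e0 + e2 ∈ C := by rw [hb5, decide_eq_true_iff]
  obtain ⟨b6, hb6⟩ : ∃ b : Bool, b = decide (x + e1 + e2 ∈ C) := ⟨_, rfl⟩
  have c6 : b6 = true ↔ x + e1 + e2 ∈ C := by rw [hb6, decide_eq_true_iff]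
  obtain ⟨b7, hb7⟩ : ∃ b : Bool, b = decide (x + e0 + e1 + e2 ∈ C) := ⟨_, rfl⟩
  have c7 : b7 = true ↔ x + e0 + e1 + e2 ∈ C := by rw [hb7, decide_eq_true_iff]
  have s0 : sq_t C (e0) (0) (e1) x =
      (b1.toNat * b0.toNat * b2.toNat : ℕ) :=
    sq_t_eq C _ _ _ x b1 b0 b2 (by rw [c1] <;> ring_nf) (by rw [c0] <;> ring_nf)
      (by rw [c2] <;> ring_nf)
  have s1 : sq_t C (e1) (e0 + e1) (e0) x =
      (b2.toNat * b3.toNat * b1.toNat : ℕ) :=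
    sq_t_eq C _ _ _ x b2 b3 b1 (by rw [c2] <;> ring_nf) (by rw [c3] <;> ring_nf)
      (by rw [c1] <;> ring_nf)
  have s2 : sq_t C (e0 + e2) (e2) (e1 + e2) x =
      (b5.toNat * b4.toNat * b6.toNat : ℕ) :=
    sq_t_eq C _ _ _ x b5 b4 b6 (by rw [c5] <;> ring_nf) (by rw [c4] <;> ring_nf)
      (by rw [c6] <;> ring_nf)
  have s3 : sq_t C (e1 + e2) (e0 + e1 + e2) (e0 + e2) x =
      (b6.toNat * b7.toNat * b5.toNat : ℕ) :=
    sq_t_eq C _ _ _ x b6 b7 b5 (by rw [c6] <;> ring_nf) (by rw [c7] <;> ring_nf)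
      (by rw [c5] <;> ring_nf)
  have s4 : sq_t C (e1) (0) (e2) x =
      (b2.toNat * b0.toNat * b4.toNat : ℕ) :=
    sq_t_eq C _ _ _ x b2 b0 b4 (by rw [c2] <;> ring_nf) (by rw [c0] <;> ring_nf)
      (by rw [c4] <;> ring_nf)
  have s5 : sq_t C (e2) (e1 + e2) (e1) x =
      (b4.toNat * b6.toNat * b2.toNat : ℕ) :=
    sq_t_eq C _ _ _ x b4 b6 b2 (by rw [c4] <;> ring_nf) (by rw [c6] <;> ring_nf)
      (by rw [c2] <;> ring_nf)
  have s6 : sq_t C (e0 + e1) (e0) (e0 + e2) x =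
      (b3.toNat * b1.toNat * b5.toNat : ℕ) :=
    sq_t_eq C _ _ _ x b3 b1 b5 (by rw [c3] <;> ring_nf) (by rw [c1] <;> ring_nf)
      (by rw [c5] <;> ring_nf)
  have s7 : sq_t C (e0 + e2) (e0 + e1 + e2) (e0 + e1) x =
      (b5.toNat * b7.toNat * b3.toNat : ℕ) :=
    sq_t_eq C _ _ _ x b5 b7 b3 (by rw [c5] <;> ring_nf) (by rw [c7] <;> ring_nf)
      (by rw [c3] <;> ring_nf)
  have s8 : sq_t C (e0) (0) (e2) x =
      (b1.toNat * b0.toNat * b4.toNat : ℕ) :=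
    sq_t_eq C _ _ _ x b1 b0 b4 (by rw [c1] <;> ring_nf) (by rw [c0] <;> ring_nf)
      (by rw [c4] <;> ring_nf)
  have s9 : sq_t C (e2) (e0 + e2) (e0) x =
      (b4.toNat * b5.toNat * b1.toNat : ℕ) :=
    sq_t_eq C _ _ _ x b4 b5 b1 (by rw [c4] <;> ring_nf) (by rw [c5] <;> ring_nf)
      (by rw [c1] <;> ring_nf)
  have s10 : sq_t C (e0 + e1) (e1) (e1 + e2) x =
      (b3.toNat * b2.toNat * b6.toNat : ℕ) :=
    sq_t_eq C _ _ _ x b3 b2 b6 (by rw [c3] <;> ring_nf) (by rw [c2] <;> ring_nf)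
      (by rw [c6] <;> ring_nf)
  have s11 : sq_t C (e1 + e2) (e0 + e1 + e2) (e0 + e1) x =
      (b6.toNat * b7.toNat * b3.toNat : ℕ) :=
    sq_t_eq C _ _ _ x b6 b7 b3 (by rw [c6] <;> ring_nf) (by rw [c7] <;> ring_nf)
      (by rw [c3] <;> ring_nf)
  have d0 := sq_c_eq C _ b0 c0
  have d1 := sq_c_eq C _ b1 c1
  have d2 := sq_c_eq C _ b2 c2
  have d3 := sq_c_eq C _ b3 c3
  have d4 := sq_c_eq C _ b4 c4
  have d5 := sq_c_eq C _ b5 c5
  have d6 := sq_c_eq C _ b6 c6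
  have d7 := sq_c_eq C _ b7 c7
  have key := sq_k_bool b0 b1 b2 b3 b4 b5 b6 b7
  rw [d0, d1, d2, d3, d4, d5, d6, d7, s0, s1, s2, s3, s4, s5, s6, s7, s8, s9, s10, s11]
  exact_mod_cast key

section PP
variable {m : Mn ℤ} {C : Set ℤ}

theorem cube3 (h : Sym m C) (η : ℝ) (a b c : ℤ) (h1 : P m C a b ≤ η) (h2 : P m C b c ≤ η)
    (h3 : P m C c (-a) ≤ η) : 8 * ms m C - 4 ≤ 48 * η := by
  have hη : 0 ≤ η := (ms_nonneg m _).trans h1
  obtain ⟨e0, he0⟩ : ∃ e0 : ℤ, e0 = a := ⟨_, rfl⟩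
  obtain ⟨e1, he1⟩ : ∃ e1 : ℤ, e1 = -b := ⟨_, rfl⟩
  obtain ⟨e2, he2⟩ : ∃ e2 : ℤ, e2 = c := ⟨_, rfl⟩
  have p01 : P m C (-e0) e1 ≤ η := by rw [he0, he1, P_neg h]; exact h1
  have q01 : P m C e0 (-e1) ≤ η := by rw [he0, he1, neg_neg]; exact h1
  have p12 : P m C (-e1) e2 ≤ η := by rw [he1, he2, neg_neg]; exact h2
  have q12 : P m C e1 (-e2) ≤ η := by rw [he1, he2, P_neg h]; exact h2
  have p02 : P m C (-e0) e2 ≤ η := by rw [he0, he2, P_comm h]; exact h3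
  have q02 : P m C e0 (-e2) ≤ η := by rw [he0, he2, ← P_neg h, neg_neg, P_comm h]; exact h3
  clear he0 he1 he2
  have t0 : m.L (fun x => sq_t C (e0) (0) (e1) x) ≤ η :=
    (sq_tri m h.inv C _ _ _ _ _ (by ring) (by ring)).trans_le p01
  have t1 : m.L (fun x => sq_t C (e1) (e0 + e1) (e0) x) ≤ η :=
    (sq_tri m h.inv C _ _ _ _ _ (by ring) (by ring)).trans_le q01
  have t2 : m.L (fun x => sq_t C (e0 + e2) (e2) (e1 + e2) x) ≤ η :=
    (sq_tri m h.inv C _ _ _ _ _ (by ring) (by ring)).trans_le p01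
  have t3 : m.L (fun x => sq_t C (e1 + e2) (e0 + e1 + e2) (e0 + e2) x) ≤ η :=
    (sq_tri m h.inv C _ _ _ _ _ (by ring) (by ring)).trans_le q01
  have t4 : m.L (fun x => sq_t C (e1) (0) (e2) x) ≤ η :=
    (sq_tri m h.inv C _ _ _ _ _ (by ring) (by ring)).trans_le p12
  have t5 : m.L (fun x => sq_t C (e2) (e1 + e2) (e1) x) ≤ η :=
    (sq_tri m h.inv C _ _ _ _ _ (by ring) (by ring)).trans_le q12
  have t6 : m.L (fun x => sq_t C (e0 + e1) (e0) (e0 + e2) x) ≤ η :=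
    (sq_tri m h.inv C _ _ _ _ _ (by ring) (by ring)).trans_le p12
  have t7 : m.L (fun x => sq_t C (e0 + e2) (e0 + e1 + e2) (e0 + e1) x) ≤ η :=
    (sq_tri m h.inv C _ _ _ _ _ (by ring) (by ring)).trans_le q12
  have t8 : m.L (fun x => sq_t C (e0) (0) (e2) x) ≤ η :=
    (sq_tri m h.inv C _ _ _ _ _ (by ring) (by ring)).trans_le p02
  have t9 : m.L (fun x => sq_t C (e2) (e0 + e2) (e0) x) ≤ η :=
    (sq_tri m h.inv C _ _ _ _ _ (by ring) (by ring)).trans_le q02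
  have t10 : m.L (fun x => sq_t C (e0 + e1) (e1) (e1 + e2) x) ≤ η :=
    (sq_tri m h.inv C _ _ _ _ _ (by ring) (by ring)).trans_le p02
  have t11 : m.L (fun x => sq_t C (e1 + e2) (e0 + e1 + e2) (e0 + e1) x) ≤ η :=
    (sq_tri m h.inv C _ _ _ _ _ (by ring) (by ring)).trans_le q02
  have v0 : m.L (fun x => sq_c C (x)) = ms m C :=
    sq_sh m h.inv (bd_ind C) (fun x => x) (0) (fun x => by ring)
  have v1 : m.L (fun x => sq_c C (x + e0)) = ms m C :=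
    sq_sh m h.inv (bd_ind C) (fun x => x + e0) (e0) (fun x => by ring)
  have v2 : m.L (fun x => sq_c C (x + e1)) = ms m C :=
    sq_sh m h.inv (bd_ind C) (fun x => x + e1) (e1) (fun x => by ring)
  have v3 : m.L (fun x => sq_c C (x + e0 + e1)) = ms m C :=
    sq_sh m h.inv (bd_ind C) (fun x => x + e0 + e1) (e0 + e1) (fun x => by ring)
  have v4 : m.L (fun x => sq_c C (x + e2)) = ms m C :=
    sq_sh m h.inv (bd_ind C) (fun x => x + e2) (e2) (fun x => by ring)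
  have v5 : m.L (fun x => sq_c C (x + e0 + e2)) = ms m C :=
    sq_sh m h.inv (bd_ind C) (fun x => x + e0 + e2) (e0 + e2) (fun x => by ring)
  have v6 : m.L (fun x => sq_c C (x + e1 + e2)) = ms m C :=
    sq_sh m h.inv (bd_ind C) (fun x => x + e1 + e2) (e1 + e2) (fun x => by ring)
  have v7 : m.L (fun x => sq_c C (x + e0 + e1 + e2)) = ms m C :=
    sq_sh m h.inv (bd_ind C) (fun x => x + e0 + e1 + e2) (e0 + e1 + e2) (fun x => by ring)
  have bc : ∀ g : ℤ → ℤ, Bd (fun x => sq_c C (g x)) := fun g => (bd_ind C).comp g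
  have bt : ∀ r s t : ℤ, Bd (fun x => sq_t C r s t x) := fun r s t => bd_ind _
  have key := L_mono m (f := fun x => sq_c C (x) + sq_c C (x + e0) + sq_c C (x + e1) + sq_c C (x + e0 + e1) + sq_c C (x + e2) + sq_c C (x + e0 + e2) + sq_c C (x + e1 + e2) + sq_c C (x + e0 + e1 + e2)) (g := fun x => 4 + (sq_t C (e0) (0) (e1) x +
      sq_t C (e1) (e0 + e1) (e0) x +
      sq_t C (e0 + e2) (e2) (e1 + e2) x +
      sq_t C (e1 + e2) (e0 + e1 + e2) (e0 + e2) x +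
      sq_t C (e1) (0) (e2) x +
      sq_t C (e2) (e1 + e2) (e1) x +
      sq_t C (e0 + e1) (e0) (e0 + e2) x +
      sq_t C (e0 + e2) (e0 + e1 + e2) (e0 + e1) x +
      sq_t C (e0) (0) (e2) x +
      sq_t C (e2) (e0 + e2) (e0) x +
      sq_t C (e0 + e1) (e1) (e1 + e2) x +
      sq_t C (e1 + e2) (e0 + e1 + e2) (e0 + e1) x)) ?_ ?_
    (fun x => sq_k_point C e0 e1 e2 x)
  · simp only [sq_add, L_const] at key
    rw [v0, v1, v2, v3, v4, v5, v6, v7] at key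
    linarith
  · repeat' first | exact bc _ | refine Bd.add ?_ ?_
  · refine Bd.add (Bd.const 4) ?_
    repeat' first | exact bt _ _ _ | refine Bd.add ?_ ?_

end PP

end Pool.Agent.TA
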