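import Pool.Agent.Lib_helper47.TA.Defs
import Pool.Agent.Lib_helper33.HOMF.MC
import Pool.Agent.Lib_helper33.HOMF.NB
import Pool.Agent.Lib_helper53.BS.Defs

/-! # Project TA, block SYM: the symmetrised mean -/

set_option autoImplicit false

namespace Pool.Agent.TA

open Pool.Agent.HOM
open scoped Pointwise

/-- the mean `(m + m ∘ neg) / 2` -/
noncomputable def sym_m (m : Mn ℤ) : Mn ℤ where
  L := (1 / 2 : ℝ) • (m.L + m.L.comp (LinearMap.funLeft ℝ ℝ (fun x : ℤ => -x)))
  one := by
    have h : LinearMap.funLeft ℝ ℝ (fun x : ℤ => -x) (fun _ => (1 : ℝ)) = fun _ => 1 := by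
      ext x
      simp [LinearMap.funLeft_apply]
    rw [LinearMap.smul_apply, LinearMap.add_apply, LinearMap.comp_apply, h, m.one]
    norm_num
  nonneg f hf h := by
    have h1 := m.nonneg f hf h
    have h2 := m.nonneg (fun x => f (-x)) (hf.comp _) fun x => h (-x)
    have h3 : LinearMap.funLeft ℝ ℝ (fun x : ℤ => -x) f = fun x => f (-x) := by
      ext x
      simp [LinearMap.funLeft_apply]
    rw [LinearMap.smul_apply, LinearMap.add_apply, LinearMap.comp_apply, h3, smul_eq_mul]
    linarith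

theorem sym_apply (m : Mn ℤ) (f : ℤ → ℝ) :
    (sym_m m).L f = (m.L f + m.L (fun x => f (-x))) / 2 := by
  have h3 : LinearMap.funLeft ℝ ℝ (fun x : ℤ => -x) f = fun x => f (-x) := by
    ext x
    simp [LinearMap.funLeft_apply]
  show ((1 / 2 : ℝ) • (m.L + m.L.comp (LinearMap.funLeft ℝ ℝ (fun x : ℤ => -x)))) f = _
  rw [LinearMap.smul_apply, LinearMap.add_apply, LinearMap.comp_apply, h3, smul_eq_mul]
  ring

theorem sym_mean (m : Mn ℤ) (hm : m.Inv) : ∃ m' : Mn ℤ, m'.Inv ∧ Evn m' ∧
    ∀ S : Set ℤ, (∀ x, -x ∈ S ↔ x ∈ S) → ms m' S = ms m S := by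
  refine ⟨sym_m m, fun f hf => ?_, fun f hf => ?_, fun S hS => ?_⟩
  · rw [sym_apply, sym_apply, hm f hf]
    have h1 := hm (fun x => f (-x + 1)) (hf.comp fun x => -x + 1)
    have h2 : (fun x : ℤ => f (-(x + 1) + 1)) = fun x => f (-x) := by
      ext x
      congr 1
      ring
    rw [h2] at h1
    rw [h1]
  · rw [sym_apply, sym_apply]
    simp only [neg_neg]
    rw [add_comm]
  · unfold ms
    rw [sym_apply]
    have h1 : (fun x : ℤ => S.indicator (fun _ => (1 : ℝ)) (-x)) =
        S.indicator fun _ => (1 : ℝ) := by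
      ext x
      by_cases h : x ∈ S
      · rw [Set.indicator_of_mem h, Set.indicator_of_mem ((hS x).2 h)]
      · rw [Set.indicator_of_notMem h, Set.indicator_of_notMem fun h' => h ((hS x).1 h')]
    rw [h1]
    ring

example : type_of% @sym_mean := @sym_mean

end Pool.Agent.TA

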