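import Pool.Agent.Lib_helper47.TA.F.CU4

set_option autoImplicit false

namespace Pool.Agent.TA

open Pool.Agent.HOM
open scoped Pointwise

section PP
variable {m : Mn ℤ} {C : Set ℤ}

private theorem typ_abs (a b : ℤ) : |P m C a b| ≤ 1 := by
  rw [abs_of_nonneg (P_nonneg a b)]
  exact P_le_one a b

private theorem typ_bd (S : Set ℤ) (v : ℤ) : Bd (S.indicator fun u => P m C u (-v)) :=
  bd_indicator S (Bd.of_abs_le 1 fun u => typ_abs u (-v))

private theorem typ_ind_abs (S : Set ℤ) (v u : ℤ) :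
    |S.indicator (fun u => P m C u (-v)) u| ≤ 1 := by
  by_cases hu : u ∈ S
  · rw [Set.indicator_of_mem hu]
    exact typ_abs u (-v)
  · rw [Set.indicator_of_notMem hu, abs_zero]
    exact zero_le_one

private theorem typ_ind_nonneg (S : Set ℤ) (v u : ℤ) :
    0 ≤ S.indicator (fun u => P m C u (-v)) u :=
  Set.indicator_nonneg (fun _ _ => P_nonneg _ _) u

theorem typ_null (h : Sym m C) (hk : K4N C) (η : ℝ) (hη : 0 < η) :
    Null (C \ Typ m C η) := by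
  intro m₃ hm₃
  have h1 := hk m m m₃ h.inv h.inv hm₃
  have h2 : (C.indicator fun v => m.L ({u | u ∈ C ∧ u - v ∈ C}.indicator fun u =>
      ms m {x | x ∈ C ∧ x - u ∈ C ∧ x - v ∈ C})) =
      C.indicator fun v => m.L ({u | u ∈ C ∧ u - v ∈ C}.indicator fun u => P m C u (-v)) := by
    congr 1
    funext v
    congr 2
    funext u
    rw [P_mid h]
    congr 1
    ext x
    constructor
    · rintro ⟨h3, h4, h5⟩
      exact ⟨h4, h3, h5⟩
    · rintro ⟨h3, h4, h5⟩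
      exact ⟨h4, h3, h5⟩
  rw [h2] at h1
  set F : ℤ → ℝ := C.indicator fun v =>
    m.L ({u | u ∈ C ∧ u - v ∈ C}.indicator fun u => P m C u (-v)) with hF
  have hFb : Bd F := bd_indicator C (Bd_L m 1 fun v u => typ_ind_abs _ v u)
  have hF0 : ∀ v, 0 ≤ F v := fun v =>
    Set.indicator_nonneg (fun v _ => le_L m 0 (typ_bd _ v) fun u => typ_ind_nonneg _ v u) v
  have h3 := ms_markov m₃ hFb hF0 (η ^ 2)
  rw [h1] at h3
  have h4 : 0 < η ^ 2 := by positivity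
  have h5 : ms m₃ {x | η ^ 2 < F x} = 0 := by
    have h6 := ms_nonneg m₃ {x | η ^ 2 < F x}
    by_contra hne
    have h7 : 0 < ms m₃ {x | η ^ 2 < F x} := lt_of_le_of_ne h6 (Ne.symm hne)
    have h8 := mul_pos h4 h7
    linarith
  refine ms_null_mono m₃ ?_ h5
  rintro v ⟨hv, hv'⟩
  show η ^ 2 < F v
  rw [hF, Set.indicator_of_mem hv]
  by_contra hle
  exact hv' ⟨hv, not_lt.mp hle⟩

theorem typ_neg (h : Sym m C) (η : ℝ) (v : ℤ) : -v ∈ Typ m C η ↔ v ∈ Typ m C η := by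
  have key : m.L ({u | u ∈ C ∧ u - -v ∈ C}.indicator fun u => P m C u (-(-v))) =
      m.L ({u | u ∈ C ∧ u - v ∈ C}.indicator fun u => P m C u (-v)) := by
    rw [← h.evn _ (typ_bd _ (-v))]
    congr 1
    funext u
    have h1 : (-u ∈ {u | u ∈ C ∧ u - -v ∈ C}) ↔ (u ∈ {u | u ∈ C ∧ u - v ∈ C}) := by
      have h2 : -u - -v = -(u - v) := by ring
      show (-u ∈ C ∧ -u - -v ∈ C) ↔ (u ∈ C ∧ u - v ∈ C)
      rw [h2, h.neg, h.neg]
    by_cases hu : u ∈ {u | u ∈ C ∧ u - v ∈ C}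
    · rw [Set.indicator_of_mem hu, Set.indicator_of_mem (h1.mpr hu), P_neg h]
    · rw [Set.indicator_of_notMem hu, Set.indicator_of_notMem (fun h3 => hu (h1.mp h3))]
  show (-v ∈ C ∧ m.L ({u | u ∈ C ∧ u - -v ∈ C}.indicator fun u => P m C u (-(-v))) ≤ η ^ 2) ↔
    (v ∈ C ∧ m.L ({u | u ∈ C ∧ u - v ∈ C}.indicator fun u => P m C u (-v)) ≤ η ^ 2)
  rw [key, h.neg]

theorem typ_mark (η : ℝ) (hη : 0 < η) (v : ℤ) (hv : v ∈ Typ m C η) :
    ms m {u | u ∈ C ∧ u - v ∈ C ∧ η < P m C u (-v)} ≤ η := by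
  have h1 := ms_markov m (typ_bd (m := m) (C := C) {u | u ∈ C ∧ u - v ∈ C} v)
    (fun u => typ_ind_nonneg _ v u) η
  have h2 := hv.2
  have h3 : ms m {u | u ∈ C ∧ u - v ∈ C ∧ η < P m C u (-v)} ≤
      ms m {x | η < ({u | u ∈ C ∧ u - v ∈ C}.indicator fun u => P m C u (-v)) x} := by
    refine ms_mono m ?_
    rintro u ⟨hu1, hu2, hu3⟩
    show η < ({u | u ∈ C ∧ u - v ∈ C}.indicator fun u => P m C u (-v)) u
    rw [Set.indicator_of_mem (show u ∈ {u | u ∈ C ∧ u - v ∈ C} from ⟨hu1, hu2⟩)]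
    exact hu3
  have h4 : η * ms m {u | u ∈ C ∧ u - v ∈ C ∧ η < P m C u (-v)} ≤ η * η := by
    calc η * ms m {u | u ∈ C ∧ u - v ∈ C ∧ η < P m C u (-v)} ≤ _ :=
          mul_le_mul_of_nonneg_left h3 hη.le
      _ ≤ _ := h1
      _ ≤ η ^ 2 := h2
      _ = η * η := by ring
  exact le_of_mul_le_mul_left h4 hη

end PP

example : type_of% @typ_null := @typ_null
example : type_of% @typ_neg := @typ_neg
example : type_of% @typ_mark := @typ_mark

end Pool.Agent.TA
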