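import Pool.Agent.Lib_helper47.TA.F.HPD

set_option autoImplicit false

namespace Pool.Agent.TA

open Pool.Agent.HOM

theorem L_le_of_windows (m : Mn ℤ) (hm : m.Inv) (f : ℤ → ℝ) (hf : Bd f) (c : ℝ) (n : ℕ)
    (hn : 0 < n) (h : ∀ x : ℤ, ∑ j ∈ Finset.range n, f (x + j) ≤ c * n) : m.L f ≤ c := by
  have hn0 : (0 : ℝ) < n := by exact_mod_cast hn
  have h1 : (fun x : ℤ => ∑ j ∈ Finset.range n, f (x + j)) =
      ∑ j ∈ Finset.range n, fun x : ℤ => f (x + j) := by
    ext x
    rw [Finset.sum_apply]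
  have h2 : m.L (fun x : ℤ => ∑ j ∈ Finset.range n, f (x + j)) = n * m.L f := by
    rw [h1, map_sum]
    have h3 : ∀ j ∈ Finset.range n, (m.L fun x : ℤ => f (x + (j : ℤ))) = m.L f :=
      fun j _ => L_shift m hm hf (j : ℤ)
    rw [Finset.sum_congr rfl h3, Finset.sum_const, Finset.card_range, nsmul_eq_mul]
  have hbd : Bd (fun x : ℤ => ∑ j ∈ Finset.range n, f (x + j)) :=
    Bd.sum (Finset.range n) (f := fun j x => f (x + j)) fun j _ => hf.comp fun x => x + j
  have h3 := L_le m (c * n) hbd h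
  rw [h2, mul_comm] at h3
  exact le_of_mul_le_mul_right h3 hn0

theorem ms_pos_of_syndetic (m : Mn ℤ) (hm : m.Inv) (B : Set ℤ) (H : ℕ)
    (h : ∀ x : ℤ, ∃ τ ∈ Set.Ioc x (x + H), τ ∈ B) : 0 < ms m B := by
  classical
  have hH : 0 < H := by
    obtain ⟨τ, hτ, -⟩ := h 0
    have h1 := hτ.1
    have h2 := hτ.2
    by_contra h0
    have : H = 0 := by omega
    subst this
    simp at h2
    omega
  have hH0 : (0 : ℝ) < H := by exact_mod_cast hH
  have h1 : m.L (fun x => -(B.indicator (fun _ => (1 : ℝ)) x)) ≤ -(1 / (H : ℝ)) := by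
    refine L_le_of_windows m hm _ (bd_ind B).neg _ H hH fun x => ?_
    obtain ⟨τ, hτ, hB⟩ := h (x - 1)
    have h2 := hτ.1
    have h3 := hτ.2
    have h4 : (τ - x).toNat ∈ Finset.range H := by
      rw [Finset.mem_range]
      omega
    have h5 : x + ((τ - x).toNat : ℤ) = τ := by omega
    rw [Finset.sum_neg_distrib]
    have h6 := Finset.single_le_sum (f := fun j : ℕ => B.indicator (fun _ => (1 : ℝ)) (x + j))
      (fun j _ => Set.indicator_nonneg (fun _ _ => zero_le_one) _) h4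
    simp only [h5, Set.indicator_of_mem hB] at h6
    have h7 : -(1 / (H : ℝ)) * H = -1 := by field_simp
    rw [h7]
    linarith
  have h2 : m.L (fun x => -(B.indicator (fun _ => (1 : ℝ)) x)) = -ms m B := by
    unfold ms
    rw [← map_neg]
    rfl
  rw [h2] at h1
  have h3 : 0 < 1 / (H : ℝ) := by positivity
  linarith

end Pool.Agent.TA

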