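import Pool.Agent.Lib_helper47.TA.F.CLW
import Pool.Agent.Lib_helper18.BS.SPL
import Pool.Agent.Lib_helper38.BS.WIE

set_option autoImplicit false

namespace Pool.Agent.TA

open Pool.Agent.HOM MeasureTheory
open scoped Pointwise

/-- The correlation as a mean of a product. -/
theorem wnr_phi (m : Mn ℤ) (X : Set ℤ) (t : ℤ) : phi m X t =
    m.L (fun x => X.indicator (fun _ => (1 : ℝ)) x * X.indicator (fun _ => (1 : ℝ)) (x + t)) := by
  unfold phi ms
  congr 1
  ext x
  by_cases h : x ∈ X <;> by_cases h' : x + t ∈ X <;> simp [Set.indicator, h, h']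

theorem wnr_phi_neg (m : Mn ℤ) (hm : m.Inv) (X : Set ℤ) (t : ℤ) : phi m X (-t) = phi m X t := by
  unfold phi
  rw [← ms_shift m hm {x | x ∈ X ∧ x + -t ∈ X} t]
  congr 1
  ext x
  simp only [Set.mem_ofPred_eq]
  constructor
  · rintro ⟨h1, h2⟩
    refine ⟨?_, h1⟩
    have : x + t + -t = x := by ring
    rwa [this] at h2
  · rintro ⟨h1, h2⟩
    refine ⟨h2, ?_⟩
    have : x + t + -t = x := by ring
    rwa [this]

theorem wnr_phi_abs (m : Mn ℤ) (hm : m.Inv) (X : Set ℤ) (t : ℤ) :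
    phi m X (t.natAbs : ℤ) = phi m X t := by
  rcases Int.natAbs_eq t with h | h
  · rw [← h]
  · conv_rhs => rw [h]
    rw [wnr_phi_neg m hm]

theorem wnr_pos (m : Mn ℤ) (hm : m.Inv) (X : Set ℤ) (n : ℕ) (c : ℕ → ℝ) :
    0 ≤ ∑ s ∈ Finset.range n, ∑ s' ∈ Finset.range n,
      c s * c s' * phi m X (((s : ℤ) - s').natAbs : ℤ) := by
  set f : ℤ → ℝ := X.indicator (fun _ => (1 : ℝ)) with hf
  have hbf : Bd f := bd_ind X
  have key : ∀ s s' : ℕ, phi m X (((s : ℤ) - s').natAbs : ℤ) =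
      m.L (fun x => f (x + s) * f (x + s')) := by
    intro s s'
    rw [wnr_phi_abs m hm, wnr_phi, ← L_shift m hm (hbf.mulR (hbf.comp (fun x => x + ((s : ℤ) - s'))))
      (s' : ℤ)]
    congr 1
    ext x
    rw [mul_comm]
    congr 2
    ring
  have e : (∑ s ∈ Finset.range n, ∑ s' ∈ Finset.range n,
      c s * c s' * phi m X (((s : ℤ) - s').natAbs : ℤ)) =
      m.L (fun x => (∑ s ∈ Finset.range n, c s * f (x + s)) ^ 2) := by
    have h1 : (fun x : ℤ => (∑ s ∈ Finset.range n, c s * f (x + s)) ^ 2) =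
        ∑ s ∈ Finset.range n, ∑ s' ∈ Finset.range n,
          (c s * c s') • fun x : ℤ => f (x + s) * f (x + s') := by
      ext x
      rw [sq, Finset.sum_mul_sum]
      simp only [Finset.sum_apply, Pi.smul_apply, smul_eq_mul]
      refine Finset.sum_congr rfl fun s _ => Finset.sum_congr rfl fun s' _ => ?_
      ring
    rw [h1, map_sum]
    refine Finset.sum_congr rfl fun s _ => ?_
    rw [map_sum]
    refine Finset.sum_congr rfl fun s' _ => ?_
    rw [map_smul, key, smul_eq_mul]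
  rw [e]
  refine m.nonneg _ ?_ fun x => sq_nonneg _
  refine Bd.powR (Bd.sum _ fun s _ => ?_) 2
  exact (Bd.const (c s)).mulR (hbf.comp _)

theorem wnr_re (z : Circle) (t : ℤ) : ((z : ℂ) ^ t.natAbs).re = ((z : ℂ) ^ t).re := by
  rcases Int.natAbs_eq t with h | h
  · conv_rhs => rw [h]
    rw [zpow_natCast]
  · conv_rhs => rw [h]
    rw [zpow_neg, zpow_natCast, ← Circle.coe_pow, ← Circle.coe_inv, Circle.coe_inv_eq_conj,
      Complex.conj_re]

/-- Windows of integers from windows of positive integers. -/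
theorem wnr_window (g : ℕ → ℝ) (hg : ∀ t, 0 ≤ g t) (n : ℕ) (c : ℝ)
    (h : ∀ y : ℕ, ∑ t ∈ Finset.Ioc y (y + n), g t ≤ c) (x : ℤ) :
    ∑ j ∈ Finset.range n, g (x + j).natAbs ≤ 2 * c + g 0 := by
  classical
  -- the three parts
  have hsplit : ∑ j ∈ Finset.range n, g (x + j).natAbs ≤
      (∑ j ∈ (Finset.range n).filter (fun j : ℕ => 0 < x + j), g (x + j).natAbs) +
      (∑ j ∈ (Finset.range n).filter (fun j : ℕ => x + j < 0), g (x + j).natAbs) +
      (∑ j ∈ (Finset.range n).filter (fun j : ℕ => x + j = 0), g (x + j).natAbs) := by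
    rw [Finset.sum_filter, Finset.sum_filter, Finset.sum_filter, ← Finset.sum_add_distrib,
      ← Finset.sum_add_distrib]
    refine Finset.sum_le_sum fun j _ => ?_
    have h0 := hg (x + j).natAbs
    rcases lt_trichotomy (x + j) 0 with h1 | h1 | h1
    · have h2 : ¬ (0 < x + j) := by omega
      have h3 : ¬ (x + j = 0) := by omega
      simp [h1, h2, h3]
    · have h2 : ¬ (0 < x + j) := by omega
      have h3 : ¬ (x + j < 0) := by omega
      simp [h1]
    · have h2 : ¬ (x + j < 0) := by omega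
      have h3 : ¬ (x + j = 0) := by omega
      simp [h1, h2, h3]
  have hp : (∑ j ∈ (Finset.range n).filter (fun j : ℕ => 0 < x + j), g (x + j).natAbs) ≤ c := by
    refine le_trans ?_ (h (x - 1).toNat)
    rw [← Finset.sum_image (f := g) (s := (Finset.range n).filter (fun j : ℕ => 0 < x + j))
      (g := fun j : ℕ => (x + j).natAbs)]
    · refine Finset.sum_le_sum_of_subset_of_nonneg ?_ fun t _ _ => hg t
      intro t ht
      simp only [Finset.mem_image, Finset.mem_filter, Finset.mem_range] at ht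
      obtain ⟨j, ⟨hj, hx⟩, rfl⟩ := ht
      rw [Finset.mem_Ioc]
      omega
    · intro i hi j hj hij
      simp only [Finset.coe_filter, Finset.mem_range, Set.mem_ofPred_eq] at hi hj
      simp only at hij
      omega
  have hn : (∑ j ∈ (Finset.range n).filter (fun j : ℕ => x + j < 0), g (x + j).natAbs) ≤ c := by
    refine le_trans ?_ (h (-x - n).toNat)
    rw [← Finset.sum_image (f := g) (s := (Finset.range n).filter (fun j : ℕ => x + j < 0))
      (g := fun j : ℕ => (x + j).natAbs)]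
    · refine Finset.sum_le_sum_of_subset_of_nonneg ?_ fun t _ _ => hg t
      intro t ht
      simp only [Finset.mem_image, Finset.mem_filter, Finset.mem_range] at ht
      obtain ⟨j, ⟨hj, hx⟩, rfl⟩ := ht
      rw [Finset.mem_Ioc]
      omega
    · intro i hi j hj hij
      simp only [Finset.coe_filter, Finset.mem_range, Set.mem_ofPred_eq] at hi hj
      simp only at hij
      omega
  have hz : (∑ j ∈ (Finset.range n).filter (fun j : ℕ => x + j = 0), g (x + j).natAbs) ≤ g 0 := by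
    rw [← Finset.sum_image (f := g) (s := (Finset.range n).filter (fun j : ℕ => x + j = 0))
      (g := fun j : ℕ => (x + j).natAbs)]
    · rw [← Finset.sum_singleton g 0]
      refine Finset.sum_le_sum_of_subset_of_nonneg ?_ fun t _ _ => hg t
      intro t ht
      simp only [Finset.mem_image, Finset.mem_filter, Finset.mem_range] at ht
      obtain ⟨j, ⟨hj, hx⟩, rfl⟩ := ht
      rw [Finset.mem_singleton]
      omega
    · intro i hi j hj hij
      simp only [Finset.coe_filter, Finset.mem_range, Set.mem_ofPred_eq] at hi hj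
      omega
  linarith

theorem wiener_approx (m : Mn ℤ) (hm : m.Inv) (X : Set ℤ) (ε : ℝ) (hε : 0 < ε) :
    ∃ (F : Finset Circle) (c : Circle → ℝ),
      Null {t : ℤ | ε ≤ |phi m X t - ∑ z ∈ F, c z * ((z : ℂ) ^ t).re|} := by
  obtain ⟨μ, hμf, hμ⟩ := herglotz_pd (fun t : ℕ => phi m X (t : ℤ)) (wnr_pos m hm X)
  obtain ⟨F, ν, -, hνf, hν, hs⟩ := BS.split_pr μ hμf (ε / 2) (by positivity)
  refine ⟨F, fun z => μ.real {z}, ?_⟩
  intro m' hm'
  set g : ℕ → ℝ := fun t => ‖∫ z : Circle, (z : ℂ) ^ t ∂ν‖ ^ 2 with hg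
  have hg0 : ∀ t, 0 ≤ g t := fun t => sq_nonneg _
  have hgB : ∀ t, g t ≤ (ν.real Set.univ) ^ 2 := by
    intro t
    refine pow_le_pow_left₀ (norm_nonneg _) ?_ 2
    refine (norm_integral_le_integral_norm _).trans ?_
    have : (fun z : Circle => ‖(z : ℂ) ^ t‖) = fun _ => (1 : ℝ) := by
      ext z
      rw [norm_pow, Circle.norm_coe, one_pow]
    rw [this, integral_const, smul_eq_mul, mul_one]
  set f : ℤ → ℝ := fun t => g t.natAbs with hf
  have hbf : Bd f := Bd.of_abs_le ((ν.real Set.univ) ^ 2) fun t => by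
    rw [abs_of_nonneg (hg0 _)]; exact hgB _
  have hL : m'.L f ≤ 0 := by
    refine le_of_forall_pos_le_add fun δ hδ => ?_
    rw [zero_add]
    obtain ⟨L, hL⟩ := BS.wiener_pr ν hνf hν (δ / 4) (by positivity)
    obtain ⟨n₀, hn₀⟩ := exists_nat_gt (g 0 / (δ / 2))
    set n : ℕ := L + n₀ + 1 with hn
    refine L_le_of_windows m' hm' f hbf δ n (by omega) fun x => ?_
    have h1 := wnr_window g hg0 n (δ / 4 * n) (fun y => hL n (by omega) y) x
    have h2 : g 0 ≤ δ / 2 * n := by
      rw [div_lt_iff₀ (by positivity)] at hn₀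
      have h3 : (n₀ : ℝ) ≤ n := by
        rw [hn]; push_cast; linarith [(Nat.cast_nonneg L : (0:ℝ) ≤ L)]
      nlinarith
    calc ∑ j ∈ Finset.range n, f (x + j) = ∑ j ∈ Finset.range n, g (x + j).natAbs := rfl
      _ ≤ 2 * (δ / 4 * n) + g 0 := h1
      _ ≤ δ * n := by linarith
  have hsub : {t : ℤ | ε ≤ |phi m X t - ∑ z ∈ F, μ.real {z} * ((z : ℂ) ^ t).re|} ⊆
      {t : ℤ | (ε / 2) ^ 2 / 2 < f t} := by
    intro t ht
    simp only [Set.mem_ofPred_eq] at ht ⊢
    have h1 := hs t.natAbs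
    have h2 : phi m X t = ∫ z : Circle, ((z : ℂ) ^ t.natAbs).re ∂μ := by
      rw [← hμ t.natAbs, wnr_phi_abs m hm]
    have h3 : ∑ z ∈ F, μ.real {z} * ((z : ℂ) ^ t.natAbs).re =
        ∑ z ∈ F, μ.real {z} * ((z : ℂ) ^ t).re :=
      Finset.sum_congr rfl fun z _ => by rw [wnr_re]
    rw [← h2, h3] at h1
    have h4 : ε / 2 ≤ |∫ z : Circle, ((z : ℂ) ^ t.natAbs).re ∂ν| := by
      set A := phi m X t - ∑ z ∈ F, μ.real {z} * ((z : ℂ) ^ t).re
      set B := ∫ z : Circle, ((z : ℂ) ^ t.natAbs).re ∂ν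
      have := abs_sub_abs_le_abs_sub A B
      linarith
    have hc : Continuous (fun z : Circle => (z : ℂ) ^ t.natAbs) := continuous_subtype_val.pow _
    have hint : Integrable (fun z : Circle => (z : ℂ) ^ t.natAbs) ν :=
      hc.integrable_of_hasCompactSupport (HasCompactSupport.of_compactSpace _)
    have h5 : |∫ z : Circle, ((z : ℂ) ^ t.natAbs).re ∂ν| ≤ ‖∫ z : Circle, (z : ℂ) ^ t.natAbs ∂ν‖ := by
      have h6 : ∫ z : Circle, ((z : ℂ) ^ t.natAbs).re ∂ν =
          (∫ z : Circle, (z : ℂ) ^ t.natAbs ∂ν).re := integral_re hint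
      rw [h6]
      exact Complex.abs_re_le_norm _
    have h7 : (ε / 2) ^ 2 ≤ f t := pow_le_pow_left₀ (by positivity) (h4.trans h5) 2
    have h8 : 0 < (ε / 2) ^ 2 := by positivity
    linarith
  refine ms_null_mono m' hsub ?_
  have h1 := ms_markov m' hbf (fun t => hg0 _) ((ε / 2) ^ 2 / 2)
  have h2 : (ε / 2) ^ 2 / 2 * ms m' {t : ℤ | (ε / 2) ^ 2 / 2 < f t} ≤ 0 := h1.trans hL
  have h3 : 0 < (ε / 2) ^ 2 / 2 := by positivity
  have h4 := ms_nonneg m' {t : ℤ | (ε / 2) ^ 2 / 2 < f t}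
  nlinarith

example : type_of% @wiener_approx := @wiener_approx

end Pool.Agent.TA
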